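import Pool.Agent.Helper24.AL.St

set_option autoImplicit false

namespace Pool.Agent.Helper79.AL

open Pool.Agent.Helper24.AL

private theorem ineq_aux (s e b X K : ℝ) (hs : 0 < s) (he : 0 < e) (heb : e ≤ b) (hK : 1 ≤ K)
    (hb : b ≤ K * s ^ 2) (hX : 0 ≤ X) :
    e * X ^ 2 / (s ^ 2 * max s (s ^ 2 / (3 * e))) ≤ 3 * K * (s ^ 2 * b ^ 2 + X ^ 3 / (s ^ 2) ^ 2) := by
  have hM1 : s ≤ max s (s ^ 2 / (3 * e)) := le_max_left _ _
  have hM2 : s ^ 2 / (3 * e) ≤ max s (s ^ 2 / (3 * e)) := le_max_right _ _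
  have hX3 : 0 ≤ X ^ 3 / (s ^ 2) ^ 2 := by positivity
  have hb0 : 0 < b := lt_of_lt_of_le he heb
  have hsb : 0 ≤ s ^ 2 * b ^ 2 := by positivity
  by_cases h : X ≤ s ^ 3
  · have h1 : e * X ^ 2 / (s ^ 2 * max s (s ^ 2 / (3 * e))) ≤
        e * X ^ 2 / (s ^ 2 * (s ^ 2 / (3 * e))) :=
      div_le_div_of_nonneg_left (by positivity) (by positivity)
        (mul_le_mul_of_nonneg_left hM2 (by positivity))
    have h2 : e * X ^ 2 / (s ^ 2 * (s ^ 2 / (3 * e))) = 3 * e ^ 2 * X ^ 2 / s ^ 4 := by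
      field_simp
    have h3 : X ^ 2 ≤ s ^ 6 := by
      have := pow_le_pow_left₀ hX h 2
      calc X ^ 2 ≤ (s ^ 3) ^ 2 := this
        _ = s ^ 6 := by ring
    have h4 : e ^ 2 ≤ b ^ 2 := pow_le_pow_left₀ he.le heb 2
    have h5 : 3 * e ^ 2 * X ^ 2 / s ^ 4 ≤ 3 * (s ^ 2 * b ^ 2) := by
      rw [div_le_iff₀ (by positivity)]
      calc 3 * e ^ 2 * X ^ 2 ≤ 3 * b ^ 2 * s ^ 6 :=
            mul_le_mul (by linarith) h3 (by positivity) (by positivity)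
        _ = 3 * (s ^ 2 * b ^ 2) * s ^ 4 := by ring
    calc e * X ^ 2 / (s ^ 2 * max s (s ^ 2 / (3 * e))) ≤ 3 * (s ^ 2 * b ^ 2) := by
          rw [h2] at h1; linarith
      _ ≤ 3 * K * (s ^ 2 * b ^ 2 + X ^ 3 / (s ^ 2) ^ 2) := by
          have h6 : 1 * (s ^ 2 * b ^ 2) ≤ K * (s ^ 2 * b ^ 2) := mul_le_mul_of_nonneg_right hK hsb
          have h7 : 0 ≤ K * (X ^ 3 / (s ^ 2) ^ 2) := mul_nonneg (by linarith) hX3
          nlinarith
  · push Not at h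
    have h1 : e * X ^ 2 / (s ^ 2 * max s (s ^ 2 / (3 * e))) ≤ e * X ^ 2 / (s ^ 2 * s) :=
      div_le_div_of_nonneg_left (by positivity) (by positivity)
        (mul_le_mul_of_nonneg_left hM1 (by positivity))
    have h2 : e * X ^ 2 / (s ^ 2 * s) ≤ K * (X ^ 3 / (s ^ 2) ^ 2) := by
      rw [div_le_iff₀ (by positivity)]
      have e1 : K * (X ^ 3 / (s ^ 2) ^ 2) * (s ^ 2 * s) = K * X ^ 3 / s := by
        field_simp
      rw [e1, le_div_iff₀ hs]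
      have h3 : e * s ≤ K * X := by
        calc e * s ≤ K * s ^ 2 * s := mul_le_mul_of_nonneg_right (le_trans heb hb) hs.le
          _ = K * s ^ 3 := by ring
          _ ≤ K * X := mul_le_mul_of_nonneg_left h.le (by linarith)
      calc e * X ^ 2 * s = e * s * X ^ 2 := by ring
        _ ≤ K * X * X ^ 2 := mul_le_mul_of_nonneg_right h3 (by positivity)
        _ = K * X ^ 3 := by ring
    calc e * X ^ 2 / (s ^ 2 * max s (s ^ 2 / (3 * e))) ≤ K * (X ^ 3 / (s ^ 2) ^ 2) :=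
          le_trans h1 h2
      _ ≤ 3 * K * (s ^ 2 * b ^ 2 + X ^ 3 / (s ^ 2) ^ 2) := by
          have h7 : 0 ≤ K * (X ^ 3 / (s ^ 2) ^ 2) := mul_nonneg (by linarith) hX3
          have h8 : 0 ≤ K * (s ^ 2 * b ^ 2) := mul_nonneg (by linarith) hsb
          nlinarith

theorem hINEQ : StINEQ := by
  intro c A B K hc hA hAB hK hBK
  have hc1 : (1 : ℝ) ≤ c := by exact_mod_cast hc
  have hA1 : (1 : ℝ) ≤ A := by exact_mod_cast hA
  have hAB1 : (A : ℝ) ≤ B := by exact_mod_cast hAB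
  have hA0 : (0 : ℝ) < A := by linarith
  have hB0 : (0 : ℝ) < B := by linarith
  obtain ⟨s, hs, hsc⟩ : ∃ s : ℝ, 0 < s ∧ s ^ 2 = c :=
    ⟨Real.sqrt c, Real.sqrt_pos.2 (by linarith), Real.sq_sqrt (by linarith)⟩
  have hsq : Real.sqrt (c : ℝ) = s := by rw [← hsc, Real.sqrt_sq hs.le]
  rw [hsq, ← hsc]
  rw [← hsc] at hBK
  refine ⟨?_, ?_, ?_, ?_⟩
  · by_cases h : (A : ℝ) ^ 2 ≤ s ^ 3
    · have h1 : ((A : ℝ) * B) ^ 2 / s ≤ s ^ 2 * (B : ℝ) ^ 2 := by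
        rw [div_le_iff₀ hs]
        calc ((A : ℝ) * B) ^ 2 = (A : ℝ) ^ 2 * (B : ℝ) ^ 2 := by ring
          _ ≤ s ^ 3 * (B : ℝ) ^ 2 := mul_le_mul_of_nonneg_right h (by positivity)
          _ = s ^ 2 * (B : ℝ) ^ 2 * s := by ring
      have h2 : 0 ≤ ((A : ℝ) * B) ^ 3 / (s ^ 2) ^ 2 := by positivity
      linarith
    · push Not at h
      have hX : s ^ 3 ≤ (A : ℝ) * B := by
        calc s ^ 3 ≤ (A : ℝ) ^ 2 := h.le
          _ = (A : ℝ) * A := by ring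
          _ ≤ (A : ℝ) * B := mul_le_mul_of_nonneg_left hAB1 hA0.le
      have h1 : ((A : ℝ) * B) ^ 2 / s ≤ ((A : ℝ) * B) ^ 3 / (s ^ 2) ^ 2 := by
        rw [div_le_div_iff₀ hs (by positivity)]
        calc ((A : ℝ) * B) ^ 2 * (s ^ 2) ^ 2 = ((A : ℝ) * B) ^ 2 * s * s ^ 3 := by ring
          _ ≤ ((A : ℝ) * B) ^ 2 * s * ((A : ℝ) * B) := mul_le_mul_of_nonneg_left hX (by positivity)
          _ = ((A : ℝ) * B) ^ 3 * s := by ring
      have h2 : 0 ≤ s ^ 2 * (B : ℝ) ^ 2 := by positivity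
      linarith
  · exact ineq_aux s B B ((A : ℝ) * B) K hs hB0 le_rfl hK hBK (by positivity)
  · exact ineq_aux s A B ((A : ℝ) * B) K hs hA0 hAB1 hK hBK (by positivity)
  · have h1 : (A : ℝ) ^ 2 ≤ (B : ℝ) ^ 2 := pow_le_pow_left₀ hA0.le hAB1 2
    calc (A : ℝ) ^ 2 * B ≤ (B : ℝ) ^ 2 * (K * s ^ 2) :=
          mul_le_mul h1 hBK hB0.le (by positivity)
      _ = K * (s ^ 2 * (B : ℝ) ^ 2) := by ring

end Pool.Agent.Helper79.AL
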