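import Pool.Agent.Helper79.AL.Asm2

/-! # Project AL (MP_2b6189_al): dimension `R m`, `m` square-free with large primes, assembly -/

set_option autoImplicit false

namespace Pool.Agent.Helper79.AL

open Matrix ComplexConjugate Pool.Agent.Helper94.YG
open Pool.Agent.Helper94.YF hiding StORB
open Pool.Agent.Helper89.OS Pool.Agent.Helper89.OC

/-- averaging, product form -/
def StAVR : Prop := ∀ (P Q : Finset ℕ) (R : ℕ), 0 < R → Q ⊆ P → (∀ p ∈ P, 2 * R < p) →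
  ∀ G D : ℕ → Finset ℕ, (∀ p ∈ Q, G p ⊆ P) → (∀ p ∈ Q, D p ⊆ P) →
  (∀ p ∈ Q, ∀ t ∈ G p, t ∉ D p) → (∀ p ∈ Q, p ∈ G p) →
  (∀ p ∈ Q, ∀ t ∈ P, t ∉ Q → t ∉ G p ∧ t ∉ D p) →
  (∀ p ∈ Q, ∀ q ∈ Q, p ≠ q → q ∈ D p → p ∈ G q) → 2 ≤ Q.card →
  ∃ p ∈ Q, ∃ r ∈ Q, p ≠ r ∧
    2 * R * ∏ t ∈ D p ∩ D r, t < ∏ t ∈ (G p ∪ G r) \ (D p ∪ D r), t

/-- the pair lemma with a gcd -/
def StPR2 : Prop := ∀ (I : Type) [Fintype I] [DecidableEq I] (Z : CentreData I)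
  (i l : I) (T : Finset ℕ), (∀ t ∈ T, t.Prime) → (∀ t ∈ T, ¬ t ∣ Z.d i ∧ ¬ t ∣ Z.d l) →
  (∀ t ∈ T, ∃ β : ℂ, IsIntegral ℤ β ∧ Sf Z i l - (Z.d i : ℂ) * Z.d l = (t : ℂ) * β) →
  2 * Nat.gcd (Z.d i) (Z.d l) < ∏ t ∈ T, t → Sf Z i l = (Z.d i : ℂ) * Z.d l

/-- the case of one class -/
def StSGL : Prop := ∀ (I : Type) [Fintype I] [DecidableEq I] (Z : CentreData I) (p R : ℕ)
  [NeZero p] (b : ZMod Z.L) (X : PD I p 1) (Q : ℂ → Prop) (N : ℕ) (a w : I) (e : ℤ) (A : ℕ),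
  Gh Z b X Q N a w e A → 2 * R < p → (∀ k ∈ Ks X, X.d k ≤ R) →
  ∃ k ∈ Ks X, X.y k = -(gX X * (X.d k : ℤ))

/-- Dimension `R m`: there is a nontrivial Tannakian subcategory. -/
theorem sfR_main (hAVR : StAVR) (hPR2 : StPR2) (hSGL : StSGL) (hLKD : StLKD) (hTAN' : StTAN)
    (hGLA : StGLA) (hGLB : StGLB) (hGLC' : StGLC) (hLKN : StLKN)
    (hORB : Helper89.OC.StORB) (hTS2' : StTS2) (hGHO : StGHO)
    (hFCA : StFCA) (hFCB' : StFCB) (hDZ : StDZ) (hCG' : StCG) (hETA' : StETA) (hSRU' : StSRU)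
    (hGAZ : StGAZ) (hUNQ' : StUNQ) (hLU' : StLU) (hTF' : StTF) (hORT : StORT) (hVPF' : StVPF)
    (hVPT' : StVPT) (hNAJ' : StNAJ) (hNDW' : StNDW) (hADJ' : StADJ) (hTOU' : StTOU)
    (hCEF' : StCEF) (hDIM' : StDIM) (hSPL' : StSPL) (hYPR' : StYPR)
    (hZED' : StZED) (hCST' : StCST)
    (I : Type) [Fintype I] [DecidableEq I] (Z : CentreData I) (hodd : Odd Z.n) (R m : ℕ)
    (hn : Z.n = R * m) (hcop : Nat.Coprime R m) (hsf : Squarefree m) (hm1 : 1 < m)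
    (hbig : ∀ p : ℕ, p.Prime → p ∣ m → 2 * R < p) : ∃ D : I → Prop, TanSet Z D := by
  classical
  by_contra hT
  -- discharge the hypotheses of the modules
  have hFCB := hFCB' hFCA
  have hETA := hETA' hDZ hGLA hFCA
  have hSRU := hSRU' hFCA
  have hTS2 := hTS2' hORB
  have hCG := hCG' hTS2' hORB hGLA hLKN hFCA
  have hTF := hTF' hLU' hUNQ' hGAZ hSRU' hETA' hDZ hGLA hFCA hFCB' hORB
  have hNDW := hNDW' hDZ hTS2' hORB
  have hADJ := hADJ' hDZ hVPF' hVPT' hNAJ' hFCA hFCB' hGLA hLKN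
  have hTOU := hTOU' hFCA hFCB' hORB
  have hCEF := hCEF' hGLA hGLB hGLC'
  have hSPL := hSPL' hCEF' hDIM' hGLA hGLB hGLC'
  have hZED := hZED' hYPR' hTS2' hORB hGLA hLKN
  have hCST := hCST' hFCA
  have hA := hGLA I Z
  -- the primes
  have hm0 : m ≠ 0 := by omega
  have hR0 : 0 < R := by
    rcases Nat.eq_zero_or_pos R with h | h
    · exfalso
      rw [h, zero_mul] at hn
      exact Z.n_pos.ne' hn
    · exact h
  set P : Finset ℕ := m.primeFactors with hP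
  have hPp : ∀ p ∈ P, p.Prime := fun p hp => Nat.prime_of_mem_primeFactors hp
  have hNZ : ∀ p : P, NeZero (p : ℕ) := fun p => ⟨(hPp p p.2).ne_zero⟩
  have hgh : ∀ p : P, ∃ (b : ZMod Z.L) (X : PD I p 1) (Q : ℂ → Prop) (N : ℕ) (a w : I) (e : ℤ)
      (A : ℕ), Gh Z b X Q N a w e A := by
    intro p
    obtain ⟨m', hm'⟩ := Nat.dvd_of_mem_primeFactors p.2
    refine hGHO I Z p (R * m') hodd (hPp p p.2) (by rw [hn, hm']; ring) ?_ hT
    intro h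
    rcases (hPp p p.2).dvd_mul.1 h with h | h
    · have h1 : (p : ℕ) ∣ Nat.gcd R m := Nat.dvd_gcd h (Nat.dvd_of_mem_primeFactors p.2)
      rw [hcop] at h1
      exact (hPp p p.2).one_lt.ne' (Nat.dvd_one.1 h1)
    · obtain ⟨k, hk⟩ := h
      have h1 : (p : ℕ) * p ∣ m := ⟨k, by rw [hm', hk]; ring⟩
      exact (hPp p p.2).one_lt.ne' (Nat.isUnit_iff.1 (hsf p h1))
  choose b X Q N a w e A hG using hgh
  have hLk : ∀ p, Lk Z (b p) (X p) := fun p => (hG p).lq.lk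
  have hBlk : ∀ p, Blk (X p) (Q p) := fun p => (hG p).gam.blk
  have hp7 : ∀ p : P, 7 ≤ (p : ℕ) := fun p => (hG p).p7
  have hort : ∀ p q : P, p ≠ q → b p * b q = 0 ∧
      ∀ u : ZMod Z.L, (u - 1) * (1 - b q) = 0 → (u - 1) * b p = 0 := fun p q hpq =>
    hORT Z.L p q (b p) (b q) (hPp p p.2) (hPp q q.2) (fun h => hpq (Subtype.ext h)) (hLk p).idp
      (hLk q).idp
  have hWK : ∀ p : P, ∀ i ∈ Orb (X p) (w p), i ∈ Ks (X p) ∧ 2 ≤ (Orb (X p) i).card ∧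
      Z.d i = Z.d (w p) := fun p => (hG p).orbKs hORB
  have hWself : ∀ p : P, w p ∈ Orb (X p) (w p) := fun p => (hORB I p (X p)).self (w p)
  -- (5): the torus of q fixes W p
  have hfix : ∀ p q : P, p ≠ q → ∀ i ∈ Orb (X p) (w p), ∀ c, (X q).pi c i = i := by
    intro p q hpq i hi c
    obtain ⟨h1, h2, -⟩ := hWK p i hi
    obtain ⟨u, hu1, hu2⟩ := (hG q).lq.pi c
    have h3 := (hort p q hpq).2 _ hu1
    have h4 := hTF I Z p (b p) (X p) (Q p) (e p) (hG p).lq (hBlk p) (by have := hp7 p; omega)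
      (hG p).e2 (fun j hj1 hj2 => ((hG p).yd j hj1 hj2).1) u h3 i h1 h2
    rw [hu2 i i] at h4
    by_contra h5
    rw [if_neg (fun h => h5 h.symm)] at h4
    exact zero_ne_one h4
  -- everything in W p has twist one
  have hto : ∀ (p q : P) (i : I), i ∈ Ks (X p) → (X q).t i = 1 := by
    intro p q i hi
    obtain ⟨h1, h2, -⟩ := mem_Ks.1 hi
    have h3 := (X p).th_of i h1 h2
    rw [(hLk p).th] at h3
    rw [(hLk q).t]
    show Z.th i ^ (b q).val = 1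
    rw [h3, one_pow]
  -- centralising
  let cen : P → P → Prop := fun p q => ∀ i ∈ Orb (X p) (w p), ∀ l ∈ Orb (X q) (w q),
    Sf Z i l = (Z.d i : ℂ) * Z.d l
  have cen_symm : ∀ p q, cen p q → cen q p := by
    intro p q h i hi l hl
    rw [hA.Sf_symm, h l hl i hi, mul_comm]
  let adj : P → P → Prop := fun p q => ∃ l, (X p).t l ≠ 1 ∧ (X q).t l ≠ 1
  have adj_symm : ∀ p q, adj p q → adj q p := fun p q ⟨l, h1, h2⟩ => ⟨l, h2, h1⟩
  have hadj1 : ∀ p q : P, p ≠ q → (q : ℕ) ∣ A p → ¬ adj p q := by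
    rintro p q hpq h1 ⟨l, h2, h3⟩
    exact h3 ((hADJ I Z p q (b p) (b q) (X p) (X q) (A p) (hLk p) (hLk q) (hort p q hpq).1
      (by have := hp7 q; omega) fun j hj1 hj2 => ((hG p).yd j hj1 hj2).2).1 h1 l h2)
  have hadj2 : ∀ p q : P, p ≠ q → ¬ adj p q → (q : ℕ) ∣ A p ∧
      Fx Z (b q) (fun k => (vp (X p) k : ℂ)) := by
    intro p q hpq h1
    refine (hADJ I Z p q (b p) (b q) (X p) (X q) (A p) (hLk p) (hLk q) (hort p q hpq).1
      (by have := hp7 q; omega) fun j hj1 hj2 => ((hG p).yd j hj1 hj2).2).2 fun l hl => ?_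
    by_contra h2
    exact h1 ⟨l, hl, h2⟩
  have hndw : ∀ p q : P, p ≠ q → adj p q → ¬ (q : ℕ) ∣ Z.d (w p) := fun p q hpq h1 =>
    hNDW I Z p q (b p) (b q) (X p) (X q) (Q p) (hLk p) (hLk q) (hBlk p)
      (by have := hp7 q; omega) h1 (w p) (hG p).wKs
  have htou : ∀ p q : P, p ≠ q → ¬ adj p q → (∀ i ∈ Orb (X p) (w p), (X q).y i ≠ 0) ∨
      ∀ i ∈ Orb (X q) (w q), (X p).y i ≠ 0 := by
    intro p q hpq h1
    obtain ⟨h2, h3⟩ := hadj2 p q hpq h1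
    obtain ⟨h4, -⟩ := hadj2 q p hpq.symm fun h => h1 (adj_symm q p h)
    exact hTOU I Z p q (b p) (b q) (X p) (X q) (Q p) (Q q) (N p) (N q) (a p) (w p) (a q) (w q)
      (e p) (e q) (A p) (A q) (hG p) (hG q) (hort p q hpq).1 h2 h4 h3
  -- Muger
  have hmug : ∀ r : P, ∃ D1 D2 : I → Prop, (∀ i, D1 i → D2 i → i = Z.o) ∧
      (∀ i, D1 i ↔ ∀ l ∈ Orb (X r) (w r), Sf Z l i = (Z.d l : ℂ) * Z.d i) ∧
      (∀ i, D2 i ↔ ∀ l, D1 l → Sf Z l i = (Z.d l : ℂ) * Z.d i) ∧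
      ∀ q : P, (∀ k, (X q).y k ≠ 0 → D1 k) ∨ ∀ k, (X q).y k ≠ 0 → D2 k := by
    intro r
    let E : I → Prop := fun i => i ∈ Orb (X r) (w r)
    have hint : ∀ x, Ce Z E x → Ce Z (Ce Z E) x → x = Z.o :=
      (hCEF I Z (Ce Z E)).2 hodd hT (hCEF I Z E).1
    obtain ⟨m, hm⟩ := hSPL I Z (Ce Z E) (hCEF I Z E).1 hint
    refine ⟨Ce Z E, Ce Z (Ce Z E), hint, fun i => Iff.rfl, fun i => Iff.rfl, fun q => ?_⟩
    have hE : ∀ c i, E i → E ((X q).pi c i) := by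
      intro c i hi
      by_cases hqr : q = r
      · subst hqr
        have h1 := (hORB I q (X q)).eq (w q) i hi
        show (X q).pi c i ∈ Orb (X q) (w q)
        rw [← h1]
        simp [Orb]
      · show (X q).pi c i ∈ Orb (X r) (w r)
        rw [hfix r q (fun h => hqr h.symm) i hi c]
        exact hi
    have hE1 := hCST I Z q (b q) (X q) E (hG q).lq hE
    have hE2 := hCST I Z q (b q) (X q) (Ce Z E) (hG q).lq hE1
    exact hZED I Z q (b q) (X q) (Q q) (N q) (a q) (w q) (e q) (A q) (Ce Z E) (Ce Z (Ce Z E)) m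
      (hG q) hm hE1 hE2
  have hWy : ∀ (p : P), ∀ i ∈ Orb (X p) (w p), (X p).y i ≠ 0 := fun p i hi =>
    (mem_Ks.1 (hWK p i hi).1).1
  have hwo : ∀ p : P, w p ≠ Z.o := by
    intro p h
    have := (mem_Ks.1 (hG p).wKs).2.2
    rw [(hLk p).o] at this
    exact this h
  -- (12)
  have h12 : ∀ p q : P, p ≠ q → ¬ adj p q → ¬ cen p q := by
    intro p q hpq h1 h2
    obtain ⟨D1, D2, hint, hD1, hD2, hZ⟩ := hmug q
    have hp1 : D1 (w p) := (hD1 _).2 fun l hl => by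
      rw [hA.Sf_symm, h2 (w p) (hWself p) l hl, mul_comm]
    have hq2 : D2 (w q) := (hD2 _).2 fun l hl => by
      rw [hA.Sf_symm, (hD1 l).1 hl (w q) (hWself q), mul_comm]
    rcases htou p q hpq h1 with h3 | h3
    · rcases hZ q with h4 | h4
      · exact hwo q (hint _ (h4 _ (hWy q _ (hWself q))) hq2)
      · exact hwo p (hint _ hp1 (h4 _ (h3 _ (hWself p))))
    · rcases hZ p with h4 | h4
      · exact hwo q (hint _ (h4 _ (h3 _ (hWself q))) hq2)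
      · exact hwo p (hint _ hp1 (h4 _ (hWy p _ (hWself p))))
  -- (13)
  have h13 : ∀ p r q : P, cen p r → cen q r ∨ cen q p := by
    intro p r q h1
    obtain ⟨D1, D2, hint, hD1, hD2, hZ⟩ := hmug r
    rcases hZ q with h2 | h2
    · left
      intro i hi l hl
      rw [hA.Sf_symm, (hD1 i).1 (h2 i (hWy q i hi)) l hl, mul_comm]
    · right
      intro i hi l hl
      have h3 : D1 l := (hD1 l).2 fun l' hl' => by
        rw [hA.Sf_symm, h1 l hl l' hl', mul_comm]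
      rw [hA.Sf_symm, (hD2 i).1 (h2 i (hWy q i hi)) l h3, mul_comm]
  -- the class of a prime
  have hPne : P.Nonempty := by
    rw [hP, Nat.nonempty_primeFactors]
    exact hm1
  obtain ⟨p0', hp0'⟩ := hPne
  let p0 : P := ⟨p0', hp0'⟩
  let QS : Finset P := Finset.univ.filter fun q => q = p0 ∨ ¬ cen p0 q
  have hQmem : ∀ q : P, q ∈ QS ↔ q = p0 ∨ ¬ cen p0 q := fun q => by simp [QS]
  have hQout : ∀ p ∈ QS, ∀ t : P, t ∉ QS → cen p t := by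
    intro p hp t ht
    rw [hQmem] at hp ht
    push Not at ht
    obtain ⟨ht1, ht2⟩ := ht
    rcases hp with hp | hp
    · rw [hp]; exact ht2
    · rcases h13 p0 t p ht2 with h | h
      · exact h
      · exact absurd (cen_symm _ _ h) hp
  have hQin : ∀ p ∈ QS, ∀ r ∈ QS, p ≠ r → ¬ cen p r := by
    intro p hp r hr hpr h
    rw [hQmem] at hp hr
    rcases hp with hp | hp
    · rcases hr with hr | hr
      · exact hpr (hp.trans hr.symm)
      · rw [hp] at h; exact hr h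
    · rcases hr with hr | hr
      · rw [hr] at h; exact hp (cen_symm _ _ h)
      · rcases h13 p r p0 h with h' | h'
        · exact hr h'
        · exact hp h'
  have hQadj : ∀ p ∈ QS, ∀ t : P, t ∉ QS → adj p t := by
    intro p hp t ht
    by_contra h
    exact h12 p t (fun h' => ht (h' ▸ hp)) h (hQout p hp t ht)
  have hQcard : 2 ≤ QS.card := by
    have hqex : ∃ q ∈ P, q ∣ A p0 := by
      by_contra hno
      push Not at hno
      have hadjall : ∀ q : P, p0 ≠ q → adj p0 q := by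
        intro q hq
        by_contra h
        exact hno q q.2 (hadj2 p0 q hq h).1
      obtain ⟨k, hk, hky⟩ := hSGL I Z p0 R (b p0) (X p0) (Q p0) (N p0) (a p0) (w p0) (e p0) (A p0)
        (hG p0) (hbig p0 (hPp p0 p0.2) (Nat.dvd_of_mem_primeFactors p0.2)) (by
          intro k hk
          rw [(hLk p0).d]
          have h1 : Nat.Coprime (Z.d k) m := by
            rw [Nat.coprime_iff_gcd_eq_one]
            by_contra hg
            obtain ⟨t, ht, htg⟩ := Nat.exists_prime_and_dvd hg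
            have ht1 : t ∣ Z.d k := htg.trans (Nat.gcd_dvd_left _ _)
            have ht2 : t ∣ m := htg.trans (Nat.gcd_dvd_right _ _)
            have htP : t ∈ P := by
              rw [hP]
              exact Nat.mem_primeFactors.2 ⟨ht, ht2, hm0⟩
            by_cases h2 : p0 = ⟨t, htP⟩
            · have h3 : ((p0 : P) : ℕ) = t := congrArg Subtype.val h2
              apply (hBlk p0).d_nd k (mem_Ks.1 hk).1
              rw [(hLk p0).d, h3]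
              exact ht1
            · exact hNDW I Z p0 (⟨t, htP⟩ : P) (b p0) (b ⟨t, htP⟩) (X p0) (X ⟨t, htP⟩) (Q p0)
                (hLk p0) (hLk _) (hBlk p0) (by have := hp7 ⟨t, htP⟩; omega) (hadjall _ h2) k hk ht1
          have h2 : Z.d k ∣ R * m := by
            have h3 := (X p0).d_dvd k
            rw [(hLk p0).d, ← (hLk p0).n_eq, hn] at h3
            exact h3
          exact Nat.le_of_dvd hR0 (h1.dvd_of_dvd_mul_right h2))
      exact hT (hTAN' hLKD hGLA hGLB hGLC' hTS2' hORB I Z p0 (b p0) (X p0) (Q p0) (hLk p0) (hBlk p0)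
        k hk hky)
    obtain ⟨q, hqP, hqA⟩ := hqex
    have hne : p0 ≠ ⟨q, hqP⟩ := by
      intro h
      apply (hG p0).A_nd
      rw [congrArg Subtype.val h]
      exact hqA
    have h1 := hadj1 p0 ⟨q, hqP⟩ hne hqA
    have h2 := h12 _ _ hne h1
    have h3 : ({p0, ⟨q, hqP⟩} : Finset P) ⊆ QS := by
      intro x hx
      rw [Finset.mem_insert, Finset.mem_singleton] at hx
      rcases hx with hx | hx
      · rw [hQmem]; exact Or.inl hx
      · rw [hQmem, hx]; exact Or.inr h2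
    calc 2 = ({p0, ⟨q, hqP⟩} : Finset P).card := (Finset.card_pair hne).symm
      _ ≤ QS.card := Finset.card_le_card h3
  -- the sets G p, D p
  let GS : ℕ → Finset ℕ := fun p => P.filter fun t => ∃ (hp : p ∈ P) (ht : t ∈ P), t = p ∨
    (¬ adj ⟨p, hp⟩ ⟨t, ht⟩ ∧ ∀ i ∈ Orb (X ⟨p, hp⟩) (w ⟨p, hp⟩), (X ⟨t, ht⟩).y i ≠ 0)
  let DS : ℕ → Finset ℕ := fun p => P.filter fun t => ∃ (hp : p ∈ P), t ∣ Z.d (w ⟨p, hp⟩)
  let QN : Finset ℕ := QS.image Subtype.val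
  have hQN : ∀ q : ℕ, q ∈ QN ↔ ∃ hq : q ∈ P, (⟨q, hq⟩ : P) ∈ QS := by
    intro q
    simp only [QN, Finset.mem_image]
    constructor
    · rintro ⟨x, hx, rfl⟩
      exact ⟨x.2, hx⟩
    · rintro ⟨hq, h⟩
      exact ⟨⟨q, hq⟩, h, rfl⟩
  have hdvd : ∀ i, Z.d i ∣ Z.n := by
    intro i
    have h1 := (X p0).d_dvd i
    rw [(hLk p0).d, ← (hLk p0).n_eq] at h1
    exact h1
  have hq1 : QN ⊆ P := by
    intro q hq
    exact ((hQN q).1 hq).1
  have hq2 : ∀ p ∈ P, 2 * R < p := fun p hp => hbig p (hPp p hp) (Nat.dvd_of_mem_primeFactors hp)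
  have hq0 : ∀ p ∈ QN, GS p ⊆ P := fun p _ => Finset.filter_subset _ _
  have hq3 : ∀ p ∈ QN, DS p ⊆ P := by
    intro p _
    exact Finset.filter_subset _ _
  have hq4 : ∀ p ∈ QN, ∀ t ∈ GS p, t ∉ DS p := by
    intro p hpQ t ht ht'
    obtain ⟨hp, -⟩ := (hQN p).1 hpQ
    obtain ⟨_, _, htP, h⟩ := Finset.mem_filter.1 ht
    obtain ⟨_, _, hd⟩ := Finset.mem_filter.1 ht'
    have hd' : t ∣ (X ⟨t, htP⟩).d (w ⟨p, hp⟩) := by
      rw [(hLk _).d]; exact hd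
    rcases h with h | ⟨h1, h2⟩
    · subst h
      exact (hBlk ⟨t, hp⟩).d_nd _ (hWy ⟨t, hp⟩ _ (hWself _)) hd'
    · exact (hBlk ⟨t, htP⟩).d_nd _ (h2 _ (hWself _)) hd'
  have hq5 : ∀ p ∈ QN, p ∈ GS p := by
    intro p hpQ
    obtain ⟨hp, -⟩ := (hQN p).1 hpQ
    exact Finset.mem_filter.2 ⟨hp, hp, hp, Or.inl rfl⟩
  have hq6 : ∀ p ∈ QN, ∀ t ∈ P, t ∉ QN → t ∉ GS p ∧ t ∉ DS p := by
    intro p hpQ t htP htQ
    obtain ⟨hp, hpS⟩ := (hQN p).1 hpQ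
    have htS : (⟨t, htP⟩ : P) ∉ QS := fun h => htQ ((hQN t).2 ⟨htP, h⟩)
    have h1 := hQadj _ hpS _ htS
    have hne : (⟨p, hp⟩ : P) ≠ ⟨t, htP⟩ := fun h => htS (h ▸ hpS)
    constructor
    · intro h
      obtain ⟨_, _, _, hh⟩ := Finset.mem_filter.1 h
      rcases hh with hh | ⟨hh, -⟩
      · exact hne (Subtype.ext hh.symm)
      · exact hh h1
    · intro h
      obtain ⟨_, _, hh⟩ := Finset.mem_filter.1 h
      exact hndw _ _ hne h1 hh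
  have hq7 : ∀ p ∈ QN, ∀ q ∈ QN, p ≠ q → q ∈ DS p → p ∈ GS q := by
    intro p hpQ q hqQ hpq hqD
    obtain ⟨hp, hpS⟩ := (hQN p).1 hpQ
    obtain ⟨hq, hqS⟩ := (hQN q).1 hqQ
    obtain ⟨_, _, hd⟩ := Finset.mem_filter.1 hqD
    have hne : (⟨p, hp⟩ : P) ≠ ⟨q, hq⟩ := fun h => hpq (congrArg Subtype.val h)
    have h1 : ¬ adj ⟨p, hp⟩ ⟨q, hq⟩ := fun h => hndw _ _ hne h hd
    have h2 : ¬ ∀ i ∈ Orb (X ⟨p, hp⟩) (w ⟨p, hp⟩), (X ⟨q, hq⟩).y i ≠ 0 := by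
      intro h
      have hd' : q ∣ (X ⟨q, hq⟩).d (w ⟨p, hp⟩) := by
        rw [(hLk _).d]; exact hd
      exact (hBlk ⟨q, hq⟩).d_nd _ (h _ (hWself _)) hd'
    have h3 := (htou _ _ hne h1).resolve_left h2
    exact Finset.mem_filter.2 ⟨hp, hq, hp, Or.inr ⟨fun h => h1 (adj_symm _ _ h), h3⟩⟩
  have hq8 : 2 ≤ QN.card := by
    have : QN.card = QS.card := Finset.card_image_of_injective _ Subtype.val_injective
    rw [this]
    exact hQcard
  obtain ⟨p, hpQ, r, hrQ, hpr, hlt⟩ := hAVR P QN R hR0 hq1 hq2 GS DS hq0 hq3 hq4 hq5 hq6 hq7 hq8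
  -- the contradiction
  obtain ⟨hp, hpS⟩ := (hQN p).1 hpQ
  obtain ⟨hr, hrS⟩ := (hQN r).1 hrQ
  have hprne : (⟨p, hp⟩ : P) ≠ ⟨r, hr⟩ := fun h => hpr (congrArg Subtype.val h)
  apply hQin _ hpS _ hrS hprne
  intro i hi l hl
  have hdi := (hWK ⟨p, hp⟩ i hi).2.2
  have hdl := (hWK ⟨r, hr⟩ l hl).2.2
  have hDSp : ∀ t, t ∈ DS p ↔ t ∈ P ∧ t ∣ Z.d i := by
    intro t
    rw [hdi]
    simp only [DS, Finset.mem_filter]
    exact ⟨fun ⟨h1, _, h2⟩ => ⟨h1, h2⟩, fun ⟨h1, h2⟩ => ⟨h1, hp, h2⟩⟩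
  have hDSr : ∀ t, t ∈ DS r ↔ t ∈ P ∧ t ∣ Z.d l := by
    intro t
    rw [hdl]
    simp only [DS, Finset.mem_filter]
    exact ⟨fun ⟨h1, _, h2⟩ => ⟨h1, h2⟩, fun ⟨h1, h2⟩ => ⟨h1, hr, h2⟩⟩
  have hgcd : Nat.gcd (Z.d i) (Z.d l) ≤ R * ∏ t ∈ DS p ∩ DS r, t := by
    have h1 : Nat.gcd (Z.d i) (Z.d l) ∣ R * m := by
      rw [← hn]
      exact (Nat.gcd_dvd_left _ _).trans (hdvd i)
    have h2 : Nat.gcd (Nat.gcd (Z.d i) (Z.d l)) m = ∏ t ∈ DS p ∩ DS r, t := by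
      have h3 : DS p ∩ DS r = (Nat.gcd (Nat.gcd (Z.d i) (Z.d l)) m).primeFactors := by
        ext t
        rw [Finset.mem_inter, hDSp, hDSr]
        constructor
        · rintro ⟨⟨h1, h2⟩, -, h3⟩
          exact Nat.mem_primeFactors.2 ⟨hPp t h1,
            Nat.dvd_gcd (Nat.dvd_gcd h2 h3) (Nat.dvd_of_mem_primeFactors h1),
            Nat.gcd_ne_zero_right hm0⟩
        · intro h
          obtain ⟨h1, h2, -⟩ := Nat.mem_primeFactors.1 h
          have h4 : t ∈ P := by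
            rw [hP, Nat.mem_primeFactors]
            exact ⟨h1, h2.trans (Nat.gcd_dvd_right _ _), hm0⟩
          have h5 := h2.trans (Nat.gcd_dvd_left _ _)
          exact ⟨⟨h4, h5.trans (Nat.gcd_dvd_left _ _)⟩, h4, h5.trans (Nat.gcd_dvd_right _ _)⟩
      rw [h3]
      exact (Nat.prod_primeFactors_of_squarefree
        (hsf.squarefree_of_dvd (Nat.gcd_dvd_right _ _))).symm
    have h3 : Nat.gcd (Nat.gcd (Z.d i) (Z.d l)) (R * m) =
        Nat.gcd (Nat.gcd (Z.d i) (Z.d l)) R * Nat.gcd (Nat.gcd (Z.d i) (Z.d l)) m :=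
      Nat.Coprime.gcd_mul _ hcop
    rw [Nat.gcd_eq_left h1, h2] at h3
    rw [h3]
    exact Nat.mul_le_mul_right _ (Nat.le_of_dvd hR0 (Nat.gcd_dvd_right _ _))
  refine hPR2 I Z i l ((GS p ∪ GS r) \ (DS p ∪ DS r)) ?_ ?_ ?_ ?_
  · intro t ht
    rcases Finset.mem_union.1 (Finset.mem_sdiff.1 ht).1 with h | h
    · exact hPp t (Finset.mem_filter.1 h).1
    · exact hPp t (Finset.mem_filter.1 h).1
  · intro t ht
    obtain ⟨h1, h2⟩ := Finset.mem_sdiff.1 ht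
    have htP : t ∈ P := by
      rcases Finset.mem_union.1 h1 with h | h
      · exact (Finset.mem_filter.1 h).1
      · exact (Finset.mem_filter.1 h).1
    rw [Finset.mem_union, hDSp, hDSr] at h2
    push Not at h2
    exact ⟨h2.1 htP, h2.2 htP⟩
  · intro t ht
    obtain ⟨hcase, htD⟩ := Finset.mem_sdiff.1 ht
    have htP : t ∈ P := by
      rcases Finset.mem_union.1 hcase with h | h
      · exact (Finset.mem_filter.1 h).1
      · exact (Finset.mem_filter.1 h).1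
    rcases Finset.mem_union.1 hcase with h | h
    · obtain ⟨_, _, _, hh⟩ := Finset.mem_filter.1 h
      rcases hh with hh | ⟨h1, h2⟩
      · subst hh
        exact hCG I Z (⟨t, hp⟩ : P) (b ⟨t, hp⟩) (X ⟨t, hp⟩) (Q ⟨t, hp⟩) (hG ⟨t, hp⟩).lq (hBlk _) i
          (hWK ⟨t, hp⟩ i hi).1 l (Or.inr fun c => hfix ⟨r, hr⟩ ⟨t, hp⟩ hprne.symm l hl c)
      · by_cases htp : t = p
        · subst htp
          exact hCG I Z (⟨t, hp⟩ : P) (b ⟨t, hp⟩) (X ⟨t, hp⟩) (Q ⟨t, hp⟩) (hG ⟨t, hp⟩).lq (hBlk _) i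
            (hWK ⟨t, hp⟩ i hi).1 l (Or.inr fun c => hfix ⟨r, hr⟩ ⟨t, hp⟩ hprne.symm l hl c)
        · have hne : (⟨p, hp⟩ : P) ≠ ⟨t, htP⟩ := fun h => htp (congrArg Subtype.val h).symm
          refine hCG I Z (⟨t, htP⟩ : P) (b ⟨t, htP⟩) (X ⟨t, htP⟩) (Q ⟨t, htP⟩) (hG ⟨t, htP⟩).lq
            (hBlk _) i (mem_Ks.2 ⟨h2 i hi, hto ⟨p, hp⟩ _ i (hWK ⟨p, hp⟩ i hi).1, ?_⟩) l
            (Or.inl fun c => hfix ⟨p, hp⟩ ⟨t, htP⟩ hne i hi c)
          rw [(hLk ⟨t, htP⟩).o, ← (hLk ⟨p, hp⟩).o]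
          exact (mem_Ks.1 (hWK ⟨p, hp⟩ i hi).1).2.2
    · obtain ⟨_, _, _, hh⟩ := Finset.mem_filter.1 h
      have key : ∃ β : ℂ, IsIntegral ℤ β ∧ Sf Z l i - (Z.d l : ℂ) * Z.d i = (t : ℂ) * β := by
        rcases hh with hh | ⟨h1, h2⟩
        · subst hh
          exact hCG I Z (⟨t, hr⟩ : P) (b ⟨t, hr⟩) (X ⟨t, hr⟩) (Q ⟨t, hr⟩) (hG ⟨t, hr⟩).lq (hBlk _) l
            (hWK ⟨t, hr⟩ l hl).1 i (Or.inr fun c => hfix ⟨p, hp⟩ ⟨t, hr⟩ hprne i hi c)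
        · by_cases htp : t = r
          · subst htp
            exact hCG I Z (⟨t, hr⟩ : P) (b ⟨t, hr⟩) (X ⟨t, hr⟩) (Q ⟨t, hr⟩) (hG ⟨t, hr⟩).lq
              (hBlk _) l (hWK ⟨t, hr⟩ l hl).1 i
              (Or.inr fun c => hfix ⟨p, hp⟩ ⟨t, hr⟩ hprne i hi c)
          · have hne : (⟨r, hr⟩ : P) ≠ ⟨t, htP⟩ := fun h => htp (congrArg Subtype.val h).symm
            refine hCG I Z (⟨t, htP⟩ : P) (b ⟨t, htP⟩) (X ⟨t, htP⟩) (Q ⟨t, htP⟩) (hG ⟨t, htP⟩).lq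
              (hBlk _) l (mem_Ks.2 ⟨h2 l hl, hto ⟨r, hr⟩ _ l (hWK ⟨r, hr⟩ l hl).1, ?_⟩) i
              (Or.inl fun c => hfix ⟨r, hr⟩ ⟨t, htP⟩ hne l hl c)
            rw [(hLk ⟨t, htP⟩).o, ← (hLk ⟨r, hr⟩).o]
            exact (mem_Ks.1 (hWK ⟨r, hr⟩ l hl).1).2.2
      obtain ⟨β, hβ1, hβ2⟩ := key
      refine ⟨β, hβ1, ?_⟩
      rw [hA.Sf_symm, mul_comm (Z.d i : ℂ)]
      exact hβ2
  · calc 2 * Nat.gcd (Z.d i) (Z.d l) ≤ 2 * (R * ∏ t ∈ DS p ∩ DS r, t) :=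
          Nat.mul_le_mul_left 2 hgcd
      _ = 2 * R * ∏ t ∈ DS p ∩ DS r, t := by ring
      _ < _ := hlt

end Pool.Agent.Helper79.AL
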