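import Pool.Agent.Helper79.AL.St1
import Pool.Agent.Helper60.OC.M_RB

/-! # AL MODULE EQY (MP_2b6189_al): equality in the rank bound -/

set_option autoImplicit false

namespace Pool.Agent.Helper79.AL

open Matrix ComplexConjugate Pool.Agent.Helper94.YG
open Pool.Agent.Helper94.YF hiding StORB
open Pool.Agent.Helper89.OS Pool.Agent.Helper89.OC
open Pool.Agent.Helper60.OC

theorem hEQY' : StEQY := by
  classical
  intro hRBE hIB hTS2 hORB hE3 hE2 hE4 I _ _ p _ X Q N a w hG hw hwg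
  have hB := hG.blk
  have hM := Helper39.OS.hMZZ I p X
  have hO := hORB I p X
  obtain ⟨-, hD2, hD3, hD4⟩ := Helper79.OS.hDRE Helper47.OS.hSTL Helper8.OS.hHEC
    Helper39.OS.hMZZ I p X Q hB
  have hg2 : (2 : ℤ) ≤ gX X := hM.2.2.2.2.1
  have hgR : (2 : ℝ) ≤ (gX X : ℝ) := by exact_mod_cast hg2
  have hp2 : (2 : ℝ) ≤ (p : ℝ) := by exact_mod_cast X.prime.two_le
  have hKs : ∀ k ∈ Ks X, ∀ j ∈ Orb X k, j ∈ Ks X := by
    intro k hk j hj
    obtain ⟨h1, h2, h3⟩ := (mem_Ks X k).1 hk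
    refine (mem_Ks X j).2 ⟨?_, hO.t k j hj h2, ?_⟩
    · rw [hO.y k j hj]
      exact h1
    · rintro rfl
      exact h3 (hO.o k hj)
  have hwK : w ∈ Ks X ∧ w ∉ Orb X a := by
    simpa only [Kp, Finset.mem_filter] using hw
  have hdis : Disjoint (Orb X a) (Orb X w) := by
    rw [Finset.disjoint_left]
    intro j hj hj'
    apply hwK.2
    rw [← hO.eq a j hj, hO.eq w j hj']
    exact hO.self w
  -- the sum
  have hR : 2 * (gX X : ℝ) - 2 ≤ ∑ k ∈ Ks X, (1 - 1 / ((Orb X k).card : ℝ)) := by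
    have h1 : ∑ k ∈ Orb X a ∪ Orb X w, (1 - 1 / ((Orb X k).card : ℝ)) = 2 * (gX X : ℝ) - 2 := by
      have hca : ((Orb X a).card : ℝ) = gX X := by exact_mod_cast hG.aO
      have hcw : ((Orb X w).card : ℝ) = gX X := by exact_mod_cast hwg
      rw [Finset.sum_union hdis, Finset.sum_congr rfl (fun k hk => by rw [hO.eq a k hk]),
        Finset.sum_congr (s₁ := Orb X w) rfl (fun k hk => by rw [hO.eq w k hk]),
        Finset.sum_const, Finset.sum_const, nsmul_eq_mul, nsmul_eq_mul, hca, hcw]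
      have : (gX X : ℝ) ≠ 0 := by linarith
      field_simp
      ring
    rw [← h1]
    refine Finset.sum_le_sum_of_subset_of_nonneg ?_ ?_
    · intro j hj
      rcases Finset.mem_union.1 hj with hj | hj
      · exact hKs a hG.aK j hj
      · exact hKs w hwK.1 j hj
    · intro k hk _
      have h2 : (1 : ℝ) ≤ ((Orb X k).card : ℝ) := by
        have : 0 < (Orb X k).card := Finset.card_pos.2 ⟨k, hO.self k⟩
        exact_mod_cast this
      rw [sub_nonneg, div_le_one (by linarith)]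
      exact h2
  have hRB := hRBE hIB hTS2 hORB hE3 hE2 hE4 I p X Q hB
  set E : Finset I := Finset.univ.filter fun b => X.y b ≠ 0 ∧ X.t b ≠ 1 with hE
  have hEc : ((p : ℝ) - 1) * gX X ≤ (E.card : ℝ) := by
    have h1 : ((p : ℝ) - 1) * (p * (2 * (gX X : ℝ) - 2) + p + 1) ≤ ((p : ℝ) - 1) *
        (p * (∑ k ∈ Ks X, (1 - 1 / ((Orb X k).card : ℝ))) + p + 1) := by
      apply mul_le_mul_of_nonneg_left _ (by linarith)
      have := mul_le_mul_of_nonneg_left hR (by linarith : (0 : ℝ) ≤ p)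
      linarith
    have h2 : 2 * (p : ℝ) * (((p : ℝ) - 1) * gX X) ≤ 2 * (p : ℝ) * (E.card : ℝ) := by
      nlinarith [h1, hRB]
    exact le_of_mul_le_mul_left h2 (by linarith)
  have hEs : ∑ j ∈ E, (X.y j : ℝ) ^ 2 = ((p : ℝ) - 1) * (gX X : ℝ) := by
    rw [← sum_y_ne X, hE, Finset.sum_filter]
    refine Finset.sum_congr rfl fun j _ => ?_
    by_cases ht : X.t j = 1
    · rw [if_pos ht, if_neg (fun h => h.2 ht)]
    · rw [if_neg ht]
      by_cases hy : X.y j = 0
      · rw [if_neg (fun h => h.1 hy), hy]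
        simp
      · rw [if_pos ⟨hy, ht⟩]
  have hone : ∀ j ∈ E, (1 : ℝ) ≤ (X.y j : ℝ) ^ 2 := by
    intro j hj
    have h1 : X.y j ≠ 0 := ((Finset.mem_filter.1 hj).2).1
    have h2 : (1 : ℤ) ≤ X.y j ^ 2 := by
      have : 0 < X.y j ^ 2 := by positivity
      omega
    exact_mod_cast h2
  have hy2 : ∀ j ∈ E, X.y j ^ 2 = 1 := by
    have h1 : ∑ j ∈ E, ((X.y j : ℝ) ^ 2 - 1) = 0 := by
      apply le_antisymm
      · rw [Finset.sum_sub_distrib, hEs, Finset.sum_const, nsmul_eq_mul, mul_one]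
        linarith
      · exact Finset.sum_nonneg fun j hj => by linarith [hone j hj]
    have h2 := (Finset.sum_eq_zero_iff_of_nonneg fun j hj => by linarith [hone j hj]).1 h1
    intro j hj
    have h3 := h2 j hj
    have h4 : (X.y j : ℝ) ^ 2 = 1 := by linarith
    exact_mod_cast h4
  have hmE : ∀ j, X.y j ≠ 0 → X.t j ≠ 1 → j ∈ E := fun j h1 h2 =>
    Finset.mem_filter.2 ⟨Finset.mem_univ _, h1, h2⟩
  have hDE : ∀ j ∈ E, gX X * (X.d j : ℤ) = (p * X.z X.o - 1) * X.y j := by
    intro j hj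
    have h1 := (Finset.mem_filter.1 hj).2
    exact hD2 j h1.1 h1.2
  have hdpos : ∀ j, (0 : ℤ) < X.d j := fun j => by exact_mod_cast X.d_pos j
  obtain ⟨j0, hj0y, hj0t⟩ := hM.2.2.1
  have hj0 := hmE j0 hj0y hj0t
  set E0 : ℤ := p * X.z X.o - 1 with hE0
  have hpos : ∀ j ∈ E, 0 < E0 * X.y j := by
    intro j hj
    rw [← hDE j hj]
    have := hdpos j
    positivity
  have hall : ∀ j ∈ E, X.y j = X.y j0 := by
    intro j hj
    rcases sq_eq_sq_iff_eq_or_eq_neg.1 ((hy2 j hj).trans (hy2 j0 hj0).symm) with h | h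
    · exact h
    · exfalso
      have h1 := hpos j hj
      have h2 := hpos j0 hj0
      rw [h] at h1
      linarith
  have hgd : ∀ j ∈ E, X.d j = X.d j0 := by
    intro j hj
    have h1 : gX X * (X.d j : ℤ) = gX X * (X.d j0 : ℤ) := by
      rw [hDE j hj, hDE j0 hj0, hall j hj]
    have h2 := mul_left_cancel₀ (by omega : gX X ≠ 0) h1
    exact_mod_cast h2
  have he2 := hy2 j0 hj0
  have hE0A : E0 = gX X * (X.d j0 : ℤ) * X.y j0 := by
    have h1 := hDE j0 hj0
    linear_combination (-1) * X.y j0 * h1 - E0 * he2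
  -- `d a = A`
  have hsumK : ∑ k ∈ Ks X, X.y k * (X.d k : ℤ) = E0 + gX X := by
    have h1 : (∑ k, if X.t k = 1 then X.y k * (X.d k : ℤ) else 0) =
        ∑ k ∈ insert X.o (Ks X), X.y k * (X.d k : ℤ) := by
      rw [← Finset.sum_filter]
      symm
      refine Finset.sum_subset ?_ ?_
      · intro k hk
        rcases Finset.mem_insert.1 hk with rfl | hk
        · exact Finset.mem_filter.2 ⟨Finset.mem_univ _, X.t_o⟩
        · exact Finset.mem_filter.2 ⟨Finset.mem_univ _, ((mem_Ks X _).1 hk).2.1⟩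
      · intro k hk hk'
        have hy : X.y k = 0 := by
          by_contra hy
          apply hk'
          by_cases hko : k = X.o
          · rw [hko]
            exact Finset.mem_insert_self _ _
          · exact Finset.mem_insert_of_mem
              ((mem_Ks X _).2 ⟨hy, (Finset.mem_filter.1 hk).2, hko⟩)
        rw [hy, zero_mul]
    rw [Finset.sum_insert (fun h => ((mem_Ks X _).1 h).2.2 rfl), X.d_o] at h1
    have h2 : gX X = (p : ℤ) - X.y X.o := rfl
    push_cast at h1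
    linarith [hD3, h1]
  have hsplit : ∑ k ∈ Ks X, X.y k * (X.d k : ℤ) =
      gX X * (X.y a * X.d a) + ∑ k ∈ Kp X a, X.y k * (X.d k : ℤ) := by
    have h1 : (Ks X).filter (fun k => k ∈ Orb X a) = Orb X a := by
      ext k
      rw [Finset.mem_filter]
      exact ⟨fun h => h.2, fun h => ⟨hKs a hG.aK k h, h⟩⟩
    have h2 : ∑ k ∈ Orb X a, X.y k * (X.d k : ℤ) = gX X * (X.y a * X.d a) := by
      rw [Finset.sum_congr rfl (fun k hk => by rw [hO.y a k hk, hO.d a k hk]),
        Finset.sum_const, nsmul_eq_mul, hG.aO]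
    rw [← h2, ← Finset.sum_filter_add_sum_filter_not (Ks X) (fun k => k ∈ Orb X a), h1]
    rfl
  have hya : X.y a * (X.d a : ℤ) = X.d j0 * X.y j0 := by
    rw [hsplit, hG.dm] at hsumK
    have h1 : gX X * (X.y a * X.d a) = gX X * (X.d j0 * X.y j0) := by
      rw [← mul_assoc (gX X) (X.d j0 : ℤ) _, ← hE0A]
      linarith
    exact mul_left_cancel₀ (by omega : gX X ≠ 0) h1
  have hda : X.d a = X.d j0 := by
    have h1 : (X.d a : ℤ) ^ 2 = (X.d j0 : ℤ) ^ 2 := by
      have h2 := congrArg (fun z : ℤ => z ^ 2) hya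
      simp only [mul_pow, hG.ay, he2, one_mul, mul_one] at h2
      exact h2
    have h3 : (X.d a) ^ 2 = (X.d j0) ^ 2 := by exact_mod_cast h1
    exact Nat.pow_left_injective (by norm_num : (2 : ℕ) ≠ 0) h3
  have hay0 : X.y a ≠ 0 := by
    intro h
    have := hG.ay
    rw [h] at this
    norm_num at this
  refine ⟨X.y j0, X.d j0, he2, fun j h1 h2 => ⟨hall j (hmE j h1 h2), hgd j (hmE j h1 h2)⟩, hda,
    ?_, ?_⟩
  · by_contra hA
    have hA1 : X.d j0 = 1 := by
      have := X.d_pos j0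
      omega
    rw [hA1, Nat.cast_one, mul_one] at hE0A
    have hN3 : (3 : ℤ) ≤ N := by exact_mod_cast hG.N_ge
    have hpN := hG.pN
    have hpb : 3 * gX X + 1 ≤ (p : ℤ) := by nlinarith
    have h0 : (X.y j0 - 1) * (X.y j0 + 1) = 0 := by linear_combination he2
    have hE0' : (p : ℤ) * X.z X.o - 1 = gX X * X.y j0 := hE0A
    rcases mul_eq_zero.1 h0 with h | h
    · have h1 : X.y j0 = 1 := by linarith
      rw [h1, mul_one] at hE0'
      have h2 : (p : ℤ) ∣ gX X + 1 := ⟨X.z X.o, by linarith⟩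
      have h3 := Int.le_of_dvd (by linarith) h2
      linarith
    · have h1 : X.y j0 = -1 := by linarith
      rw [h1] at hE0'
      have h2 : (p : ℤ) ∣ gX X - 1 := ⟨-X.z X.o, by linarith⟩
      have h3 := Int.le_of_dvd (by linarith) h2
      linarith
  · rw [← hda]
    exact hB.d_nd a hay0

end Pool.Agent.Helper79.AL
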