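import Pool.Agent.Helper79.AL.St2

set_option autoImplicit false

namespace Pool.Agent.Helper79.AL

open Matrix ComplexConjugate Pool.Agent.Helper94.YG
open Pool.Agent.Helper94.YF hiding StORB
open Pool.Agent.Helper89.OS Pool.Agent.Helper89.OC

theorem hNDW' : StNDW := by
  intro hDZ hTS2' hORB I _ _ Z p q _ b b' X X' Q hL hL' hB hq5 hadj w hw hdvd
  obtain ⟨l, hl1, hl2⟩ := hadj
  have hO := hORB I p X
  have hTS := (hTS2' hORB I p X Q hB w hw).2 l hl1
  have hM := Helper39.OS.hMZZ I p X
  have hg2 : (2 : ℤ) ≤ gX X := hM.2.2.2.2.1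
  have hchi : ∀ i ∈ Orb X w, X.chi l i = 0 := by
    intro i hi
    have hdi : q ∣ X'.d i := by
      have h1 := hO.d w i hi
      rw [hL.d] at h1
      rw [hL'.d, h1]
      exact hdvd
    obtain ⟨ht, hs⟩ := hDZ I q X' hq5 i hdi
    have h2 := X'.tor (ev i) (by
      intro j
      have h3 : ∑ k, X'.s j k * ev i k = X'.s j i := by
        simp [ev]
      rw [h3, X'.s_symm, hs j]
      simp only [ev]
      split_ifs <;> simp) (by
      intro k hk
      have : k = i := by
        by_contra h
        exact hk (by simp [ev, h])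
      rw [this]; exact ht) l hl2
    have h4 : ∑ k, ev i k * X'.chi l k = X'.chi l i := by
      simp [ev]
    rw [h4, hL'.chi] at h2
    rw [hL.chi]
    exact h2
  rw [Finset.sum_eq_zero hchi, mul_zero] at hTS
  have hw' : X.y w ≠ 0 := by
    simp only [Ks, Finset.mem_filter, Finset.mem_univ, true_and] at hw
    exact hw.1
  have hc : (Orb X w).card ≠ 0 := by
    rw [Finset.card_ne_zero]
    exact ⟨w, hO.self w⟩
  have h5 : (((Orb X w).card : ℂ) * X.y w) ≠ 0 := by
    apply mul_ne_zero
    · exact_mod_cast hc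
    · exact_mod_cast hw'
  exact h5 (neg_eq_zero.1 hTS.symm)

end Pool.Agent.Helper79.AL
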