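import Pool.Agent.Helper79.AL.Asm2
import Pool.Agent.Helper89.OC.Asm
import Pool.Agent.Helper36.OC.M_GLA
import Pool.Agent.Helper1.OC.M_GLB
import Pool.Agent.Helper38.OC.M_GLC
import Pool.Agent.Helper32.OC.M_LKN
import Pool.Agent.Helper48.OC.M_LKD
import Pool.Agent.Helper10.OC.M_GA2
import Pool.Agent.Helper78.OC.M_ORB
import Pool.Agent.Helper95.OC.M_TS2
import Pool.Agent.Helper61.OC.M_E2
import Pool.Agent.Helper24.OC.M_E4
import Pool.Agent.Helper9.OC.M_E3
import Pool.Agent.Helper55.OC.M_IB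
import Pool.Agent.Helper60.OC.M_RB
import Pool.Agent.Helper3.OC.M_PRV
import Pool.Agent.Helper8.OC.M_MXX
import Pool.Agent.Helper33.OC.M_CMM
import Pool.Agent.Helper70.OC.M_GPZ
import Pool.Agent.Helper28.OC.M_GPP
import Pool.Agent.Helper7.OC.M_KSS
import Pool.Agent.Helper39.OC.M_DIC
import Pool.Agent.Helper62.OC.M_TAN
import Pool.Agent.Helper2.OC.M_KRO
import Pool.Agent.Helper75.OC.M_N33
import Pool.Agent.Helper53.OC.M_CEN
import Pool.Agent.Helper97.OC.M_FIN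
import Pool.Agent.Helper6.OC.M_CIX
import Pool.Agent.Helper45.AL.M_FCA
import Pool.Agent.Helper16.AL.M_FCB
import Pool.Agent.Helper36.AL.M_DZ
import Pool.Agent.Helper98.AL.M_CG
import Pool.Agent.Helper78.AL.M_RBE
import Pool.Agent.Helper79.AL.M_EQY
import Pool.Agent.Helper6.AL.M_ETA
import Pool.Agent.Helper13.AL.M_SRU
import Pool.Agent.Helper61.AL.M_GAZ
import Pool.Agent.Helper86.AL.M_UNQ
import Pool.Agent.Helper25.AL.M_LU
import Pool.Agent.Helper55.AL.M_TF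
import Pool.Agent.Helper70.AL.M_G2T
import Pool.Agent.Helper10.AL.M_ORT
import Pool.Agent.Helper42.AL.M_VPF
import Pool.Agent.Helper33.AL.M_VPT
import Pool.Agent.Helper7.AL.M_NAJ
import Pool.Agent.Helper79.AL.M_NDW
import Pool.Agent.Helper81.AL.M_ADJ
import Pool.Agent.Helper1.AL.M_TOU
import Pool.Agent.Helper2.AL.M_PR
import Pool.Agent.Helper18.AL.M_CEF
import Pool.Agent.Helper2.AL.M_DIM
import Pool.Agent.Helper71.AL.M_SPL
import Pool.Agent.Helper79.AL.M_YPR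
import Pool.Agent.Helper88.AL.M_ZED
import Pool.Agent.Helper95.AL.M_CST
import Pool.Agent.Helper79.AL.Asm3
import Pool.Agent.Helper52.SQ.M_AV
import Pool.Agent.Helper52.SQ.M_PR2
import Pool.Agent.Helper52.SQ.M_SGL

/-! # Project AL (MP_2b6189_al): all modules -/

set_option autoImplicit false

namespace Pool.Agent.Helper79.AL

open Matrix ComplexConjugate Pool.Agent.Helper94.YG
open Pool.Agent.Helper94.YF hiding StORB
open Pool.Agent.Helper89.OS Pool.Agent.Helper89.OC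

theorem allGHO : StGHO :=
  ghost Helper36.OC.hGLA Helper1.OC.hGLB Helper38.OC.hGLC Helper32.OC.hLKN Helper48.OC.hLKD
    Helper10.OC.hGA2 Helper78.OC.hORB Helper95.OC.hTS2 Helper61.OC.hE2 Helper24.OC.hE4
    Helper9.OC.hE3 Helper55.OC.hIB Helper60.OC.hRB Helper3.OC.hPRV Helper8.OC.hMXX
    Helper33.OC.hCMM Helper70.OC.hGPZ Helper28.OC.hGPP Helper7.OC.hKSS Helper39.OC.hDIC
    Helper62.OC.hTAN Helper70.AL.hG2T Helper78.AL.hRBE Helper79.AL.hEQY'

theorem hAVR : StAVR := fun P Q R hR hQP h7 G D hGP hDP hGD hself hout htour h2 =>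
  Helper52.SQ.avg_prod2 P Q R hR hQP h7 G D hDP hGP hGD hself (fun p hp t ht htQ =>
    (hout p hp t ht htQ).2) htour h2

theorem hPR2 : StPR2 := fun _ _ _ Z i l T hT hd hb h =>
  Helper52.SQ.pr2 Helper2.OC.hKRO Z (Helper36.OC.hGLA _ Z) i l T hT hd hb h

theorem hSGL : StSGL := fun _ _ _ Z _ R _ b X Q N a w e A hG hR hd =>
  Helper52.SQ.SGL Z b X Q N a w e A hG R hR hd

/-- Odd dimension `R m`, `m` square-free with large prime divisors. -/
theorem oddRm (I : Type) [Fintype I] [DecidableEq I] (Z : CentreData I) (hodd : Odd Z.n)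
    (R m : ℕ) (hn : Z.n = R * m) (hcop : Nat.Coprime R m) (hsf : Squarefree m) (hm1 : 1 < m)
    (hbig : ∀ p : ℕ, p.Prime → p ∣ m → 2 * R < p) : ∃ D : I → Prop, TanSet Z D :=
  sfR_main hAVR hPR2 hSGL Helper48.OC.hLKD Helper62.OC.hTAN Helper36.OC.hGLA Helper1.OC.hGLB
    Helper38.OC.hGLC Helper32.OC.hLKN Helper78.OC.hORB Helper95.OC.hTS2 allGHO Helper45.AL.hFCA
    Helper16.AL.hFCB Helper36.AL.hDZ Helper98.AL.hCG Helper6.AL.hETA Helper13.AL.hSRU
    Helper61.AL.hGAZ Helper86.AL.hUNQ Helper25.AL.hLU Helper55.AL.hTF Helper10.AL.hORT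
    Helper42.AL.hVPF Helper33.AL.hVPT Helper7.AL.hNAJ Helper79.AL.hNDW' Helper81.AL.hADJ
    Helper1.AL.hTOU Helper18.AL.hCEF Helper2.AL.hDIM Helper71.AL.hSPL Helper79.AL.hYPR'
    Helper88.AL.hZED Helper95.AL.hCST I Z hodd R m hn hcop hsf hm1 hbig

/-- The alternative of project OC for one prime. -/
theorem allPer : Per :=
  perPrime Helper36.OC.hGLA Helper1.OC.hGLB Helper38.OC.hGLC Helper32.OC.hLKN Helper48.OC.hLKD
    Helper10.OC.hGA2 Helper78.OC.hORB Helper95.OC.hTS2 Helper61.OC.hE2 Helper24.OC.hE4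
    Helper9.OC.hE3 Helper55.OC.hIB Helper60.OC.hRB Helper3.OC.hPRV Helper8.OC.hMXX
    Helper33.OC.hCMM Helper70.OC.hGPZ Helper28.OC.hGPP Helper7.OC.hKSS Helper75.OC.hN33
    Helper2.OC.hKRO Helper53.OC.hCEN Helper97.OC.hFIN Helper39.OC.hDIC Helper62.OC.hTAN
    Helper6.OC.hCIX

/-- Odd dimension, divisible exactly once by a suitable prime. -/
theorem oddLocal (I : Type) [Fintype I] [DecidableEq I] (Z : CentreData I) (hodd : Odd Z.n)
    (p m e : ℕ) (hp : p.Prime) (hn : Z.n = p * m) (hpm : ¬ p ∣ m)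
    (h : p = 2 ^ e + 1 ∨ p = 3 * 2 ^ e + 1 ∨ p ^ 2 ∣ Z.L) : ∃ D : I → Prop, TanSet Z D := by
  have h1 : Goal3 Z := by
    refine local_thm allPer I Z p m hodd hp hn hpm ?_
    rcases h with h | h | h
    · exact Or.inl ⟨e, h⟩
    · exact Or.inr (Or.inl ⟨e, h⟩)
    · exact Or.inr (Or.inr h)
  rcases h1 with h1 | h1
  · exact Helper70.AL.hG2T Helper36.OC.hGLA Helper1.OC.hGLB Helper38.OC.hGLC I Z hodd h1
  · exact h1

end Pool.Agent.Helper79.AL
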