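import Pool.Agent.Helper79.AL.St3
import Pool.Agent.Helper79.AL.ToPD

/-! # Project AL (MP_2b6189_al): the data of one prime -/

set_option autoImplicit false

namespace Pool.Agent.Helper79.AL

open Matrix ComplexConjugate Pool.Agent.Helper94.YG
open Pool.Agent.Helper94.YF hiding StORB
open Pool.Agent.Helper89.OS Pool.Agent.Helper89.OC

/-- the data of one prime -/
def StGHO : Prop := ∀ (I : Type) [Fintype I] [DecidableEq I] (Z : CentreData I) (p m : ℕ)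
  [NeZero p], Odd Z.n → p.Prime → Z.n = p * m → ¬ p ∣ m → (¬ ∃ D : I → Prop, TanSet Z D) →
  ∃ (b : ZMod Z.L) (X : PD I p 1) (Q : ℂ → Prop) (N : ℕ) (a w : I) (e : ℤ) (A : ℕ),
    Gh Z b X Q N a w e A

theorem ghost (hGLA : StGLA) (hGLB : StGLB) (hGLC' : StGLC) (hLKN : StLKN) (hLKD : StLKD)
    (hGA2 : StGA2) (hORB : Helper89.OC.StORB) (hTS2' : StTS2) (hE2 : StE2) (hE4' : StE4)
    (hE3' : StE3) (hIB' : StIB) (hRB' : StRB) (hPRV : StPRV) (hMXX : StMXX) (hCMM : StCMM)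
    (hGPZ' : StGPZ) (hGPP' : StGPP) (hKSS' : StKSS) (hDIC : StDIC) (hTAN' : StTAN)
    (hG2T : StG2T) (hRBE : StRBE) (hEQY : StEQY) : StGHO := by
  intro I _ _ Z p m _ hodd hp hn hpm hT
  have hG2 : ¬ Goal2 Z := fun h => hT (hG2T hGLA hGLB hGLC' I Z hodd h)
  obtain ⟨a, b, X, hI, h2, ho, hst, hd, hm, hkap, hth, ht, hs, hchi, hN, hz, hpi⟩ :=
    toPD2 I Z p m hp hn hpm hodd
  by_cases ha : 2 ≤ a
  · exfalso
    apply hG2
    obtain ⟨k, hk1, hk2, hk3⟩ := Helper29.OS.hTWB Helper16.OS.hTWA Helper34.OS.hBLK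
      Helper91.OS.hAMG hRAT' Helper81.OS.hCGR Helper76.OS.hISO Helper66.OS.hPID I p a X ha
    rw [ho] at hk1
    rw [hd] at hk2
    rw [hth] at hk3
    exact ⟨k, hk1, hk2, hk3⟩
  have h1 : a = 1 := by
    have := X.a_pos
    omega
  subst h1
  obtain ⟨Q, hQ⟩ := Helper66.OS.hPID hRAT' p hp
  have hM := Helper39.OS.hMZZ I p X
  have hB : Blk X Q := Helper34.OS.hBLK hRAT' Helper81.OS.hCGR Helper76.OS.hISO I p 1 X Q hQ
    hM.2.2.2.2.2.2
  have hL : Lk Z b X := ⟨hodd, by rw [hn, hm], hI, ho, hst, hd, hth, ht, hs, hchi, hN, fun i => by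
    rw [hm]; exact hz i⟩
  have hLq : Lq Z b X := ⟨hL, hpi⟩
  rcases hDIC I p X Q hB with ⟨k, hk, hkd⟩ | ⟨k, hk, hky⟩ | ⟨N, a, hG⟩
  · exfalso
    apply hG2
    simp only [Ks, Finset.mem_filter, Finset.mem_univ, true_and] at hk
    have h3 := X.th_of k hk.1 hk.2.1
    rw [ho] at hk
    rw [hd] at hkd
    rw [hth] at h3
    exact ⟨k, hk.2.2, hkd, h3⟩
  · exfalso
    exact hT (hTAN' hLKD hGLA hGLB hGLC' hTS2' hORB I Z p b X Q hL hB k hk hky)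
  · obtain ⟨hnf, hsst, hfull⟩ := hLKN I Z p b X hL
    have hGA : GA X := hGA2 I p X hsst
    obtain ⟨w, hwK, hwO⟩ := hGPP' hGPZ' hMXX hPRV hCMM hTS2' hORB hE4' hE2 I p X Q N a hG hGA hnf
    have hsng := hKSS' hRB' hIB' hTS2' hORB hE3' hE2 hE4' I p X Q N a hG w hwK hwO
    obtain ⟨e, A, he, hyd, hdA, hA1, hAnd⟩ := hEQY hRBE hIB' hTS2' hORB hE3' hE2 hE4' I p X Q N a w
      hG hwK hwO
    refine ⟨b, X, Q, N, a, w, e, A, hLq, hG, hwK, hwO, hsng, he, hyd, hdA, hA1, ?_, hAnd⟩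
    have h5 := X.d_dvd a
    rw [hdA, hm, ← hn] at h5
    exact h5

end Pool.Agent.Helper79.AL
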