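import Pool.Agent.Helper79.AL.Asm1
import Pool.Agent.Helper4.SQ.M_AVG

/-! # Project AL (MP_2b6189_al): the square-free theorem, assembly -/

set_option autoImplicit false

namespace Pool.Agent.Helper79.AL

open Matrix ComplexConjugate Pool.Agent.Helper94.YG
open Pool.Agent.Helper94.YF hiding StORB
open Pool.Agent.Helper89.OS Pool.Agent.Helper89.OC

section

variable {I : Type} [Fintype I] [DecidableEq I]

theorem Gh.wKs {Z : CentreData I} {p : ℕ} [NeZero p] {b : ZMod Z.L} {X : PD I p 1}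
    {Q : ℂ → Prop} {N : ℕ} {a w : I} {e : ℤ} {A : ℕ} (h : Gh Z b X Q N a w e A) : w ∈ Ks X := by
  have := h.wK
  simp only [Kp, Finset.mem_filter] at this
  exact this.1

theorem mem_Ks {p : ℕ} {X : PD I p 1} {k : I} : k ∈ Ks X ↔ X.y k ≠ 0 ∧ X.t k = 1 ∧ k ≠ X.o := by
  simp [Ks]

theorem Gh.orbKs (hORB : Helper89.OC.StORB) {Z : CentreData I} {p : ℕ} [NeZero p] {b : ZMod Z.L}
    {X : PD I p 1} {Q : ℂ → Prop} {N : ℕ} {a w : I} {e : ℤ} {A : ℕ} (h : Gh Z b X Q N a w e A) :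
    ∀ i ∈ Orb X w, i ∈ Ks X ∧ 2 ≤ (Orb X i).card ∧ Z.d i = Z.d w := by
  intro i hi
  have hO := hORB I p X
  obtain ⟨h1, h2, h3⟩ := mem_Ks.1 h.wKs
  have h4 : Orb X i = Orb X w := hO.eq w i hi
  refine ⟨mem_Ks.2 ⟨by rw [hO.y w i hi]; exact h1, hO.t w i hi h2, ?_⟩, ?_, ?_⟩
  · intro h5
    rw [h5] at hi
    exact h3 (hO.o w hi)
  · have h5 := h.wO
    have h6 := (Helper39.OS.hMZZ I p X).2.2.2.2.1
    rw [h4]
    have h7 : (2 : ℤ) ≤ (Orb X w).card := by rw [h5]; exact h6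
    exact_mod_cast h7
  · have h5 := hO.d w i hi
    rw [h.lq.lk.d] at h5
    exact h5

theorem Gh.p7 {Z : CentreData I} {p : ℕ} [NeZero p] {b : ZMod Z.L} {X : PD I p 1}
    {Q : ℂ → Prop} {N : ℕ} {a w : I} {e : ℤ} {A : ℕ} (h : Gh Z b X Q N a w e A) : 7 ≤ p := by
  have h1 := h.gam.pN
  have h2 := h.gam.N_ge
  have h3 : (2 : ℤ) ≤ gX X := (Helper39.OS.hMZZ I p X).2.2.2.2.1
  have h4 : (3 : ℤ) ≤ N := by exact_mod_cast h2
  have h5 : (7 : ℤ) ≤ p := by nlinarith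
  exact_mod_cast h5

end

/-- Square-free odd dimension: there is a nontrivial Tannakian subcategory. -/
theorem sf_main (hKRO : StKRO) (hGLA : StGLA) (hGLB : StGLB) (hGLC' : StGLC) (hLKN : StLKN)
    (hORB : Helper89.OC.StORB) (hTS2' : StTS2) (hGHO : StGHO)
    (hFCA : StFCA) (hFCB' : StFCB) (hDZ : StDZ) (hCG' : StCG) (hETA' : StETA) (hSRU' : StSRU)
    (hGAZ : StGAZ) (hUNQ' : StUNQ) (hLU' : StLU) (hTF' : StTF) (hORT : StORT) (hVPF' : StVPF)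
    (hVPT' : StVPT) (hNAJ' : StNAJ) (hNDW' : StNDW) (hADJ' : StADJ) (hTOU' : StTOU)
    (hPR' : StPR) (hCEF' : StCEF) (hDIM' : StDIM) (hSPL' : StSPL) (hYPR' : StYPR)
    (hZED' : StZED) (hCST' : StCST)
    (I : Type) [Fintype I] [DecidableEq I] (Z : CentreData I) (hodd : Odd Z.n)
    (hsf : Squarefree Z.n) (hn1 : 1 < Z.n) : ∃ D : I → Prop, TanSet Z D := by
  classical
  by_contra hT
  -- discharge the hypotheses of the modules
  have hFCB := hFCB' hFCA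
  have hETA := hETA' hDZ hGLA hFCA
  have hSRU := hSRU' hFCA
  have hTS2 := hTS2' hORB
  have hCG := hCG' hTS2' hORB hGLA hLKN hFCA
  have hTF := hTF' hLU' hUNQ' hGAZ hSRU' hETA' hDZ hGLA hFCA hFCB' hORB
  have hNDW := hNDW' hDZ hTS2' hORB
  have hADJ := hADJ' hDZ hVPF' hVPT' hNAJ' hFCA hFCB' hGLA hLKN
  have hTOU := hTOU' hFCA hFCB' hORB
  have hPR := hPR' hKRO hGLA
  have hCEF := hCEF' hGLA hGLB hGLC'
  have hSPL := hSPL' hCEF' hDIM' hGLA hGLB hGLC'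
  have hZED := hZED' hYPR' hTS2' hORB hGLA hLKN
  have hCST := hCST' hFCA
  have hA := hGLA I Z
  -- the primes
  set P : Finset ℕ := Z.n.primeFactors with hP
  have hPp : ∀ p ∈ P, p.Prime := fun p hp => Nat.prime_of_mem_primeFactors hp
  have hNZ : ∀ p : P, NeZero (p : ℕ) := fun p => ⟨(hPp p p.2).ne_zero⟩
  have hgh : ∀ p : P, ∃ (b : ZMod Z.L) (X : PD I p 1) (Q : ℂ → Prop) (N : ℕ) (a w : I) (e : ℤ)
      (A : ℕ), Gh Z b X Q N a w e A := by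
    intro p
    obtain ⟨m, hm⟩ := Nat.dvd_of_mem_primeFactors p.2
    refine hGHO I Z p m hodd (hPp p p.2) hm ?_ hT
    rintro ⟨k, hk⟩
    have h1 : (p : ℕ) * p ∣ Z.n := ⟨k, by rw [hm, hk]; ring⟩
    exact (hPp p p.2).one_lt.ne' (Nat.isUnit_iff.1 (hsf p h1))
  choose b X Q N a w e A hG using hgh
  have hLk : ∀ p, Lk Z (b p) (X p) := fun p => (hG p).lq.lk
  have hBlk : ∀ p, Blk (X p) (Q p) := fun p => (hG p).gam.blk
  have hp7 : ∀ p : P, 7 ≤ (p : ℕ) := fun p => (hG p).p7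
  have hort : ∀ p q : P, p ≠ q → b p * b q = 0 ∧
      ∀ u : ZMod Z.L, (u - 1) * (1 - b q) = 0 → (u - 1) * b p = 0 := fun p q hpq =>
    hORT Z.L p q (b p) (b q) (hPp p p.2) (hPp q q.2) (fun h => hpq (Subtype.ext h)) (hLk p).idp
      (hLk q).idp
  have hWK : ∀ p : P, ∀ i ∈ Orb (X p) (w p), i ∈ Ks (X p) ∧ 2 ≤ (Orb (X p) i).card ∧
      Z.d i = Z.d (w p) := fun p => (hG p).orbKs hORB
  have hWself : ∀ p : P, w p ∈ Orb (X p) (w p) := fun p => (hORB I p (X p)).self (w p)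
  -- (5): the torus of q fixes W p
  have hfix : ∀ p q : P, p ≠ q → ∀ i ∈ Orb (X p) (w p), ∀ c, (X q).pi c i = i := by
    intro p q hpq i hi c
    obtain ⟨h1, h2, -⟩ := hWK p i hi
    obtain ⟨u, hu1, hu2⟩ := (hG q).lq.pi c
    have h3 := (hort p q hpq).2 _ hu1
    have h4 := hTF I Z p (b p) (X p) (Q p) (e p) (hG p).lq (hBlk p) (by have := hp7 p; omega)
      (hG p).e2 (fun j hj1 hj2 => ((hG p).yd j hj1 hj2).1) u h3 i h1 h2
    rw [hu2 i i] at h4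
    by_contra h5
    rw [if_neg (fun h => h5 h.symm)] at h4
    exact zero_ne_one h4
  -- everything in W p has twist one
  have hto : ∀ (p q : P) (i : I), i ∈ Ks (X p) → (X q).t i = 1 := by
    intro p q i hi
    obtain ⟨h1, h2, -⟩ := mem_Ks.1 hi
    have h3 := (X p).th_of i h1 h2
    rw [(hLk p).th] at h3
    rw [(hLk q).t]
    show Z.th i ^ (b q).val = 1
    rw [h3, one_pow]
  -- centralising
  let cen : P → P → Prop := fun p q => ∀ i ∈ Orb (X p) (w p), ∀ l ∈ Orb (X q) (w q),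
    Sf Z i l = (Z.d i : ℂ) * Z.d l
  have cen_symm : ∀ p q, cen p q → cen q p := by
    intro p q h i hi l hl
    rw [hA.Sf_symm, h l hl i hi, mul_comm]
  let adj : P → P → Prop := fun p q => ∃ l, (X p).t l ≠ 1 ∧ (X q).t l ≠ 1
  have adj_symm : ∀ p q, adj p q → adj q p := fun p q ⟨l, h1, h2⟩ => ⟨l, h2, h1⟩
  have hadj1 : ∀ p q : P, p ≠ q → (q : ℕ) ∣ A p → ¬ adj p q := by
    rintro p q hpq h1 ⟨l, h2, h3⟩
    exact h3 ((hADJ I Z p q (b p) (b q) (X p) (X q) (A p) (hLk p) (hLk q) (hort p q hpq).1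
      (by have := hp7 q; omega) fun j hj1 hj2 => ((hG p).yd j hj1 hj2).2).1 h1 l h2)
  have hadj2 : ∀ p q : P, p ≠ q → ¬ adj p q → (q : ℕ) ∣ A p ∧
      Fx Z (b q) (fun k => (vp (X p) k : ℂ)) := by
    intro p q hpq h1
    refine (hADJ I Z p q (b p) (b q) (X p) (X q) (A p) (hLk p) (hLk q) (hort p q hpq).1
      (by have := hp7 q; omega) fun j hj1 hj2 => ((hG p).yd j hj1 hj2).2).2 fun l hl => ?_
    by_contra h2
    exact h1 ⟨l, hl, h2⟩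
  have hndw : ∀ p q : P, p ≠ q → adj p q → ¬ (q : ℕ) ∣ Z.d (w p) := fun p q hpq h1 =>
    hNDW I Z p q (b p) (b q) (X p) (X q) (Q p) (hLk p) (hLk q) (hBlk p)
      (by have := hp7 q; omega) h1 (w p) (hG p).wKs
  have htou : ∀ p q : P, p ≠ q → ¬ adj p q → (∀ i ∈ Orb (X p) (w p), (X q).y i ≠ 0) ∨
      ∀ i ∈ Orb (X q) (w q), (X p).y i ≠ 0 := by
    intro p q hpq h1
    obtain ⟨h2, h3⟩ := hadj2 p q hpq h1
    obtain ⟨h4, -⟩ := hadj2 q p hpq.symm fun h => h1 (adj_symm q p h)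
    exact hTOU I Z p q (b p) (b q) (X p) (X q) (Q p) (Q q) (N p) (N q) (a p) (w p) (a q) (w q)
      (e p) (e q) (A p) (A q) (hG p) (hG q) (hort p q hpq).1 h2 h4 h3
  -- Muger
  have hmug : ∀ r : P, ∃ D1 D2 : I → Prop, (∀ i, D1 i → D2 i → i = Z.o) ∧
      (∀ i, D1 i ↔ ∀ l ∈ Orb (X r) (w r), Sf Z l i = (Z.d l : ℂ) * Z.d i) ∧
      (∀ i, D2 i ↔ ∀ l, D1 l → Sf Z l i = (Z.d l : ℂ) * Z.d i) ∧
      ∀ q : P, (∀ k, (X q).y k ≠ 0 → D1 k) ∨ ∀ k, (X q).y k ≠ 0 → D2 k := by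
    intro r
    let E : I → Prop := fun i => i ∈ Orb (X r) (w r)
    have hint : ∀ x, Ce Z E x → Ce Z (Ce Z E) x → x = Z.o :=
      (hCEF I Z (Ce Z E)).2 hodd hT (hCEF I Z E).1
    obtain ⟨m, hm⟩ := hSPL I Z (Ce Z E) (hCEF I Z E).1 hint
    refine ⟨Ce Z E, Ce Z (Ce Z E), hint, fun i => Iff.rfl, fun i => Iff.rfl, fun q => ?_⟩
    have hE : ∀ c i, E i → E ((X q).pi c i) := by
      intro c i hi
      by_cases hqr : q = r
      · subst hqr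
        have h1 := (hORB I q (X q)).eq (w q) i hi
        show (X q).pi c i ∈ Orb (X q) (w q)
        rw [← h1]
        simp [Orb]
      · show (X q).pi c i ∈ Orb (X r) (w r)
        rw [hfix r q (fun h => hqr h.symm) i hi c]
        exact hi
    have hE1 := hCST I Z q (b q) (X q) E (hG q).lq hE
    have hE2 := hCST I Z q (b q) (X q) (Ce Z E) (hG q).lq hE1
    exact hZED I Z q (b q) (X q) (Q q) (N q) (a q) (w q) (e q) (A q) (Ce Z E) (Ce Z (Ce Z E)) m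
      (hG q) hm hE1 hE2
  have hWy : ∀ (p : P), ∀ i ∈ Orb (X p) (w p), (X p).y i ≠ 0 := fun p i hi =>
    (mem_Ks.1 (hWK p i hi).1).1
  have hwo : ∀ p : P, w p ≠ Z.o := by
    intro p h
    have := (mem_Ks.1 (hG p).wKs).2.2
    rw [(hLk p).o] at this
    exact this h
  -- (12)
  have h12 : ∀ p q : P, p ≠ q → ¬ adj p q → ¬ cen p q := by
    intro p q hpq h1 h2
    obtain ⟨D1, D2, hint, hD1, hD2, hZ⟩ := hmug q
    have hp1 : D1 (w p) := (hD1 _).2 fun l hl => by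
      rw [hA.Sf_symm, h2 (w p) (hWself p) l hl, mul_comm]
    have hq2 : D2 (w q) := (hD2 _).2 fun l hl => by
      rw [hA.Sf_symm, (hD1 l).1 hl (w q) (hWself q), mul_comm]
    rcases htou p q hpq h1 with h3 | h3
    · rcases hZ q with h4 | h4
      · exact hwo q (hint _ (h4 _ (hWy q _ (hWself q))) hq2)
      · exact hwo p (hint _ hp1 (h4 _ (h3 _ (hWself p))))
    · rcases hZ p with h4 | h4
      · exact hwo q (hint _ (h4 _ (h3 _ (hWself q))) hq2)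
      · exact hwo p (hint _ hp1 (h4 _ (hWy p _ (hWself p))))
  -- (13)
  have h13 : ∀ p r q : P, cen p r → cen q r ∨ cen q p := by
    intro p r q h1
    obtain ⟨D1, D2, hint, hD1, hD2, hZ⟩ := hmug r
    rcases hZ q with h2 | h2
    · left
      intro i hi l hl
      rw [hA.Sf_symm, (hD1 i).1 (h2 i (hWy q i hi)) l hl, mul_comm]
    · right
      intro i hi l hl
      have h3 : D1 l := (hD1 l).2 fun l' hl' => by
        rw [hA.Sf_symm, h1 l hl l' hl', mul_comm]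
      rw [hA.Sf_symm, (hD2 i).1 (h2 i (hWy q i hi)) l h3, mul_comm]
  -- the class of a prime
  have hPne : P.Nonempty := by
    rw [hP, Nat.nonempty_primeFactors]
    exact hn1
  obtain ⟨p0', hp0'⟩ := hPne
  let p0 : P := ⟨p0', hp0'⟩
  let QS : Finset P := Finset.univ.filter fun q => q = p0 ∨ ¬ cen p0 q
  have hQmem : ∀ q : P, q ∈ QS ↔ q = p0 ∨ ¬ cen p0 q := fun q => by simp [QS]
  have hQout : ∀ p ∈ QS, ∀ t : P, t ∉ QS → cen p t := by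
    intro p hp t ht
    rw [hQmem] at hp ht
    push Not at ht
    obtain ⟨ht1, ht2⟩ := ht
    rcases hp with hp | hp
    · rw [hp]; exact ht2
    · rcases h13 p0 t p ht2 with h | h
      · exact h
      · exact absurd (cen_symm _ _ h) hp
  have hQin : ∀ p ∈ QS, ∀ r ∈ QS, p ≠ r → ¬ cen p r := by
    intro p hp r hr hpr h
    rw [hQmem] at hp hr
    rcases hp with hp | hp
    · rcases hr with hr | hr
      · exact hpr (hp.trans hr.symm)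
      · rw [hp] at h; exact hr h
    · rcases hr with hr | hr
      · rw [hr] at h; exact hp (cen_symm _ _ h)
      · rcases h13 p r p0 h with h' | h'
        · exact hr h'
        · exact hp h'
  have hQadj : ∀ p ∈ QS, ∀ t : P, t ∉ QS → adj p t := by
    intro p hp t ht
    by_contra h
    exact h12 p t (fun h' => ht (h' ▸ hp)) h (hQout p hp t ht)
  have hQcard : 2 ≤ QS.card := by
    obtain ⟨q, hq, hqA⟩ := Nat.exists_prime_and_dvd (hG p0).A1.ne'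
    have hqn : q ∣ Z.n := hqA.trans (hG p0).A_dvd
    have hqP : q ∈ P := by
      rw [hP]
      exact Nat.mem_primeFactors.2 ⟨hq, hqn, Z.n_pos.ne'⟩
    have hne : p0 ≠ ⟨q, hqP⟩ := by
      intro h
      apply (hG p0).A_nd
      rw [congrArg Subtype.val h]
      exact hqA
    have h1 := hadj1 p0 ⟨q, hqP⟩ hne hqA
    have h2 := h12 _ _ hne h1
    have h3 : ({p0, ⟨q, hqP⟩} : Finset P) ⊆ QS := by
      intro x hx
      rw [Finset.mem_insert, Finset.mem_singleton] at hx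
      rcases hx with hx | hx
      · rw [hQmem]; exact Or.inl hx
      · rw [hQmem, hx]; exact Or.inr h2
    calc 2 = ({p0, ⟨q, hqP⟩} : Finset P).card := (Finset.card_pair hne).symm
      _ ≤ QS.card := Finset.card_le_card h3
  -- the sets G p, D p
  let GS : ℕ → Finset ℕ := fun p => P.filter fun t => ∃ (hp : p ∈ P) (ht : t ∈ P), t = p ∨
    (¬ adj ⟨p, hp⟩ ⟨t, ht⟩ ∧ ∀ i ∈ Orb (X ⟨p, hp⟩) (w ⟨p, hp⟩), (X ⟨t, ht⟩).y i ≠ 0)
  let DS : ℕ → Finset ℕ := fun p => P.filter fun t => ∃ (hp : p ∈ P), t ∣ Z.d (w ⟨p, hp⟩)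
  let QN : Finset ℕ := QS.image Subtype.val
  have hQN : ∀ q : ℕ, q ∈ QN ↔ ∃ hq : q ∈ P, (⟨q, hq⟩ : P) ∈ QS := by
    intro q
    simp only [QN, Finset.mem_image]
    constructor
    · rintro ⟨x, hx, rfl⟩
      exact ⟨x.2, hx⟩
    · rintro ⟨hq, h⟩
      exact ⟨⟨q, hq⟩, h, rfl⟩
  have hdvd : ∀ i, Z.d i ∣ Z.n := by
    intro i
    have h1 := (X p0).d_dvd i
    rw [(hLk p0).d, ← (hLk p0).n_eq] at h1
    exact h1
  have hDprod : ∀ p (hp : p ∈ P), ∏ t ∈ DS p, t = Z.d (w ⟨p, hp⟩) := by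
    intro p hp
    have h1 : DS p = (Z.d (w ⟨p, hp⟩)).primeFactors := by
      ext t
      simp only [DS, Finset.mem_filter, Nat.mem_primeFactors]
      constructor
      · rintro ⟨h1, _, h2⟩
        exact ⟨hPp t h1, h2, (Z.d_pos _).ne'⟩
      · rintro ⟨h1, h2, -⟩
        refine ⟨?_, hp, h2⟩
        rw [hP, Nat.mem_primeFactors]
        exact ⟨h1, h2.trans (hdvd _), Z.n_pos.ne'⟩
    rw [h1]
    exact Nat.prod_primeFactors_of_squarefree (hsf.squarefree_of_dvd (hdvd _))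
  have hq1 : QN ⊆ P := by
    intro q hq
    exact ((hQN q).1 hq).1
  have hq2 : ∀ p ∈ P, 7 ≤ p := by
    intro p hp
    exact hp7 ⟨p, hp⟩
  have hq3 : ∀ p ∈ QN, DS p ⊆ P := by
    intro p _
    exact Finset.filter_subset _ _
  have hq4 : ∀ p ∈ QN, ∀ t ∈ GS p, t ∉ DS p := by
    intro p hpQ t ht ht'
    obtain ⟨hp, -⟩ := (hQN p).1 hpQ
    obtain ⟨_, _, htP, h⟩ := Finset.mem_filter.1 ht
    obtain ⟨_, _, hd⟩ := Finset.mem_filter.1 ht'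
    have hd' : t ∣ (X ⟨t, htP⟩).d (w ⟨p, hp⟩) := by
      rw [(hLk _).d]; exact hd
    rcases h with h | ⟨h1, h2⟩
    · subst h
      exact (hBlk ⟨t, hp⟩).d_nd _ (hWy ⟨t, hp⟩ _ (hWself _)) hd'
    · exact (hBlk ⟨t, htP⟩).d_nd _ (h2 _ (hWself _)) hd'
  have hq5 : ∀ p ∈ QN, p ∈ GS p := by
    intro p hpQ
    obtain ⟨hp, -⟩ := (hQN p).1 hpQ
    exact Finset.mem_filter.2 ⟨hp, hp, hp, Or.inl rfl⟩
  have hq6 : ∀ p ∈ QN, ∀ t ∈ P, t ∉ QN → t ∉ GS p ∧ t ∉ DS p := by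
    intro p hpQ t htP htQ
    obtain ⟨hp, hpS⟩ := (hQN p).1 hpQ
    have htS : (⟨t, htP⟩ : P) ∉ QS := fun h => htQ ((hQN t).2 ⟨htP, h⟩)
    have h1 := hQadj _ hpS _ htS
    have hne : (⟨p, hp⟩ : P) ≠ ⟨t, htP⟩ := fun h => htS (h ▸ hpS)
    constructor
    · intro h
      obtain ⟨_, _, _, hh⟩ := Finset.mem_filter.1 h
      rcases hh with hh | ⟨hh, -⟩
      · exact hne (Subtype.ext hh.symm)
      · exact hh h1
    · intro h
      obtain ⟨_, _, hh⟩ := Finset.mem_filter.1 h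
      exact hndw _ _ hne h1 hh
  have hq7 : ∀ p ∈ QN, ∀ q ∈ QN, p ≠ q → q ∈ DS p → p ∈ GS q := by
    intro p hpQ q hqQ hpq hqD
    obtain ⟨hp, hpS⟩ := (hQN p).1 hpQ
    obtain ⟨hq, hqS⟩ := (hQN q).1 hqQ
    obtain ⟨_, _, hd⟩ := Finset.mem_filter.1 hqD
    have hne : (⟨p, hp⟩ : P) ≠ ⟨q, hq⟩ := fun h => hpq (congrArg Subtype.val h)
    have h1 : ¬ adj ⟨p, hp⟩ ⟨q, hq⟩ := fun h => hndw _ _ hne h hd
    have h2 : ¬ ∀ i ∈ Orb (X ⟨p, hp⟩) (w ⟨p, hp⟩), (X ⟨q, hq⟩).y i ≠ 0 := by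
      intro h
      have hd' : q ∣ (X ⟨q, hq⟩).d (w ⟨p, hp⟩) := by
        rw [(hLk _).d]; exact hd
      exact (hBlk ⟨q, hq⟩).d_nd _ (h _ (hWself _)) hd'
    have h3 := (htou _ _ hne h1).resolve_left h2
    exact Finset.mem_filter.2 ⟨hp, hq, hp, Or.inr ⟨fun h => h1 (adj_symm _ _ h), h3⟩⟩
  have hq8 : 2 ≤ QN.card := by
    have : QN.card = QS.card := Finset.card_image_of_injective _ Subtype.val_injective
    rw [this]
    exact hQcard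
  obtain ⟨p, hpQ, r, hrQ, hpr, hlt⟩ := Helper4.SQ.avg_prod P QN hq1 hq2 GS DS hq3 hq4 hq5 hq6 hq7
    hq8
  -- the contradiction
  obtain ⟨hp, hpS⟩ := (hQN p).1 hpQ
  obtain ⟨hr, hrS⟩ := (hQN r).1 hrQ
  have hprne : (⟨p, hp⟩ : P) ≠ ⟨r, hr⟩ := fun h => hpr (congrArg Subtype.val h)
  apply hQin _ hpS _ hrS hprne
  intro i hi l hl
  have hdi := (hWK ⟨p, hp⟩ i hi).2.2
  have hdl := (hWK ⟨r, hr⟩ l hl).2.2
  rw [hDprod p hp, hDprod r hr, ← hdi, ← hdl] at hlt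
  set De : Finset ℕ := P.filter fun t => t ∉ GS p ∧ t ∉ DS p ∧ t ∉ GS r ∧ t ∉ DS r with hDe
  have hsplit : (∏ t ∈ P \ De, t) * ∏ t ∈ De, t = ∏ t ∈ P, t :=
    Finset.prod_sdiff (Finset.filter_subset _ _)
  have hDpos : 0 < ∏ t ∈ De, t :=
    Finset.prod_pos fun t ht => (hPp t (Finset.mem_filter.1 ht).1).pos
  have hlt2 : 2 * Z.d i * Z.d l < ∏ t ∈ P \ De, t := by
    rw [← hsplit] at hlt
    have : (2 * Z.d i * Z.d l) * ∏ t ∈ De, t < (∏ t ∈ P \ De, t) * ∏ t ∈ De, t := by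
      calc (2 * Z.d i * Z.d l) * ∏ t ∈ De, t = 2 * (∏ t ∈ De, t) * Z.d i * Z.d l := by ring
        _ < _ := hlt
    exact lt_of_mul_lt_mul_right this (Nat.zero_le _)
  refine hPR I Z i l (P \ De) (fun t ht => hPp t (Finset.mem_sdiff.1 ht).1) ?_ (by
    exact_mod_cast hlt2)
  intro t ht
  obtain ⟨htP, htD⟩ := Finset.mem_sdiff.1 ht
  have hcase : t ∈ GS p ∨ t ∈ DS p ∨ t ∈ GS r ∨ t ∈ DS r := by
    by_contra h
    push Not at h
    exact htD (Finset.mem_filter.2 ⟨htP, h⟩)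
  rcases hcase with h | h | h | h
  · obtain ⟨_, _, _, hh⟩ := Finset.mem_filter.1 h
    rcases hh with hh | ⟨h1, h2⟩
    · subst hh
      exact hCG I Z (⟨t, hp⟩ : P) (b ⟨t, hp⟩) (X ⟨t, hp⟩) (Q ⟨t, hp⟩) (hG ⟨t, hp⟩).lq (hBlk _) i
        (hWK ⟨t, hp⟩ i hi).1 l (Or.inr fun c => hfix ⟨r, hr⟩ ⟨t, hp⟩ hprne.symm l hl c)
    · by_cases htp : t = p
      · subst htp
        exact hCG I Z (⟨t, hp⟩ : P) (b ⟨t, hp⟩) (X ⟨t, hp⟩) (Q ⟨t, hp⟩) (hG ⟨t, hp⟩).lq (hBlk _) i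
          (hWK ⟨t, hp⟩ i hi).1 l (Or.inr fun c => hfix ⟨r, hr⟩ ⟨t, hp⟩ hprne.symm l hl c)
      · have hne : (⟨p, hp⟩ : P) ≠ ⟨t, htP⟩ := fun h => htp (congrArg Subtype.val h).symm
        refine hCG I Z (⟨t, htP⟩ : P) (b ⟨t, htP⟩) (X ⟨t, htP⟩) (Q ⟨t, htP⟩) (hG ⟨t, htP⟩).lq (hBlk _) i
          (mem_Ks.2 ⟨h2 i hi, hto ⟨p, hp⟩ _ i (hWK ⟨p, hp⟩ i hi).1, ?_⟩) l
          (Or.inl fun c => hfix ⟨p, hp⟩ ⟨t, htP⟩ hne i hi c)
        rw [(hLk ⟨t, htP⟩).o, ← (hLk ⟨p, hp⟩).o]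
        exact (mem_Ks.1 (hWK ⟨p, hp⟩ i hi).1).2.2
  · obtain ⟨_, _, hh⟩ := Finset.mem_filter.1 h
    rw [← hdi] at hh
    obtain ⟨k, hk⟩ := hh
    refine ⟨(k : ℂ) * (Cchi Z i l - Z.d l), ?_, ?_⟩
    · exact (isIntegral_algebraMap (R := ℤ) (A := ℂ) (x := (k : ℤ))).mul
        ((hA.chi_int i l).sub (by exact_mod_cast (isIntegral_algebraMap (R := ℤ) (A := ℂ)
          (x := (Z.d l : ℤ))))) |> fun h => by simpa using h
    · rw [hA.Sf_chi, hk]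
      push_cast
      ring
  · obtain ⟨_, _, _, hh⟩ := Finset.mem_filter.1 h
    have key : ∃ β : ℂ, IsIntegral ℤ β ∧ Sf Z l i - (Z.d l : ℂ) * Z.d i = (t : ℂ) * β := by
      rcases hh with hh | ⟨h1, h2⟩
      · subst hh
        exact hCG I Z (⟨t, hr⟩ : P) (b ⟨t, hr⟩) (X ⟨t, hr⟩) (Q ⟨t, hr⟩) (hG ⟨t, hr⟩).lq (hBlk _) l
          (hWK ⟨t, hr⟩ l hl).1 i (Or.inr fun c => hfix ⟨p, hp⟩ ⟨t, hr⟩ hprne i hi c)
      · by_cases htp : t = r
        · subst htp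
          exact hCG I Z (⟨t, hr⟩ : P) (b ⟨t, hr⟩) (X ⟨t, hr⟩) (Q ⟨t, hr⟩) (hG ⟨t, hr⟩).lq (hBlk _) l
            (hWK ⟨t, hr⟩ l hl).1 i (Or.inr fun c => hfix ⟨p, hp⟩ ⟨t, hr⟩ hprne i hi c)
        · have hne : (⟨r, hr⟩ : P) ≠ ⟨t, htP⟩ := fun h => htp (congrArg Subtype.val h).symm
          refine hCG I Z (⟨t, htP⟩ : P) (b ⟨t, htP⟩) (X ⟨t, htP⟩) (Q ⟨t, htP⟩) (hG ⟨t, htP⟩).lq (hBlk _) l
            (mem_Ks.2 ⟨h2 l hl, hto ⟨r, hr⟩ _ l (hWK ⟨r, hr⟩ l hl).1, ?_⟩) i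
            (Or.inl fun c => hfix ⟨r, hr⟩ ⟨t, htP⟩ hne l hl c)
          rw [(hLk ⟨t, htP⟩).o, ← (hLk ⟨r, hr⟩).o]
          exact (mem_Ks.1 (hWK ⟨r, hr⟩ l hl).1).2.2
    obtain ⟨β, hβ1, hβ2⟩ := key
    refine ⟨β, hβ1, ?_⟩
    rw [hA.Sf_symm, mul_comm (Z.d i : ℂ)]
    exact hβ2
  · obtain ⟨_, _, hh⟩ := Finset.mem_filter.1 h
    rw [← hdl] at hh
    obtain ⟨k, hk⟩ := hh
    refine ⟨(k : ℂ) * (Cchi Z l i - Z.d i), ?_, ?_⟩
    · exact (isIntegral_algebraMap (R := ℤ) (A := ℂ) (x := (k : ℤ))).mul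
        ((hA.chi_int l i).sub (by exact_mod_cast (isIntegral_algebraMap (R := ℤ) (A := ℂ)
          (x := (Z.d i : ℤ))))) |> fun h => by simpa using h
    · rw [hA.Sf_symm, hA.Sf_chi, hk]
      push_cast
      ring

end Pool.Agent.Helper79.AL
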