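import Pool.Agent.Helper89.OC.St3

/-!
# Project AL (MP_2b6189_al): Tannakian subcategories for ALL odd square-free dimensions.  Definitions

Everything of project OS is proved (see the header of `Pool/Agent/Helper89/OC/Defs.lean`), project OC (statements `StGLA`, `StORB`,
`StTS2`, ... in `Pool/Agent/Helper89/OC/St1, St2, St3`) is (almost) proved and its statements may be used as hypotheses.
Paper proof: `/team-store/MP_2b6189-helper79-ALL.md`.
-/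

set_option autoImplicit false

namespace Pool.Agent.Helper79.AL

open Matrix ComplexConjugate Pool.Agent.Helper94.YG
open Pool.Agent.Helper94.YF hiding StORB
open Pool.Agent.Helper89.OS Pool.Agent.Helper89.OC

/-- `v` is fixed by the subgroup `SL(2)` which belongs to the idempotent `c`. -/
def Fx {I : Type} [Fintype I] [DecidableEq I] (Z : CentreData I) (c : ZMod Z.L) (v : I → ℂ) :
    Prop :=
  Z.rho (s2 c) *ᵥ v = v ∧ ∀ k, v k ≠ 0 → Z.tw c k = 1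

/-- the basis vector `e_j` -/
def ev {I : Type} [DecidableEq I] (j : I) : I → ℂ := fun k => if k = j then 1 else 0

/-- Matrix facts (module FCA).  `c`, `c'` are orthogonal idempotents. -/
structure FCA {I : Type} [Fintype I] [DecidableEq I] (Z : CentreData I) : Prop where
  sym : ∀ (c : ZMod Z.L) (i k : I), Z.rho (s2 c) i k = Z.rho (s2 c) k i
  uni : ∀ (g : SL Z.L) (v : I → ℂ), ∑ i, ‖(Z.rho g *ᵥ v) i‖ ^ 2 = ∑ i, ‖v i‖ ^ 2
  Sm_eq : ∀ c : ZMod Z.L, c * c = c → Z.rho Sm = Z.rho (s2 (1 - c)) * Z.rho (s2 c)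
  com : ∀ c c' : ZMod Z.L, c * c = c → c' * c' = c' → c * c' = 0 →
    Z.rho (s2 c) * Z.rho (s2 c') = Z.rho (s2 c') * Z.rho (s2 c)
  supp : ∀ c c' : ZMod Z.L, c * c = c → c' * c' = c' → c * c' = 0 → ∀ i k,
    Z.rho (s2 c') i k ≠ 0 → Z.tw c i = Z.tw c k
  perm : ∀ x : (ZMod Z.L)ˣ, ∃ π : I → I, Function.Bijective π ∧
    (∀ i k, Z.rho (Dg x) i k = if k = π i then 1 else 0) ∧
    (∀ i, π i = Z.o ↔ i = Z.o) ∧ (∀ i, Z.d (π i) = Z.d i) ∧
    (∀ i k, Z.rho Sm (π i) k = Z.rho Sm i (π k)) ∧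
    (∀ c : ZMod Z.L, ((x : ZMod Z.L) - 1) * c = 0 → ∀ i, Z.tw c (π i) = Z.tw c i) ∧
    (∀ c : ZMod Z.L, c * c = c → ((x : ZMod Z.L) - 1) * c = 0 → ∀ i k,
      Z.rho (s2 c) (π i) (π k) = Z.rho (s2 c) i k) ∧
    ∀ c : ZMod Z.L, c * c = c → ((x : ZMod Z.L) - 1) * (1 - c) = 0 → ∀ i k,
      Z.rho (s2 c) (π i) k = Z.rho (s2 c) i (π k)

/-- The calculus of fixed vectors (module FCB). -/
structure FCB {I : Type} [Fintype I] [DecidableEq I] (Z : CentreData I) : Prop where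
  of : ∀ (c : ZMod Z.L) (v : I → ℂ), c * c = c → (∀ k, v k ≠ 0 → Z.tw c k = 1) →
    (∀ k, (Z.rho (s2 c) *ᵥ v) k ≠ 0 → Z.tw c k = 1) → Fx Z c v
  add : ∀ (c : ZMod Z.L) (v w : I → ℂ), Fx Z c v → Fx Z c w → Fx Z c (fun k => v k + w k)
  smul : ∀ (c : ZMod Z.L) (a : ℂ) (v : I → ℂ), Fx Z c v → Fx Z c (fun k => a * v k)
  sum : ∀ (c : ZMod Z.L) (f : I → ℂ), (∀ j, f j ≠ 0 → Fx Z c (ev j)) → Fx Z c f
  s2 : ∀ (c c' : ZMod Z.L) (v : I → ℂ), c * c = c → c' * c' = c' → c * c' = 0 → Fx Z c v →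
    Fx Z c (Z.rho (s2 c') *ᵥ v)
  proj : ∀ (c c' : ZMod Z.L) (φ : ℂ → ℂ) (v : I → ℂ), c * c = c → c' * c' = c' → c * c' = 0 →
    Fx Z c v → Fx Z c (fun k => φ (Z.tw c' k) * v k)
  Sm : ∀ (c : ZMod Z.L) (v : I → ℂ), c * c = c → Fx Z c v → Fx Z c (Z.rho Sm *ᵥ v)

/-- The link between the centre and the `p`-local data, with the torus (this is what `toPD2` gives). -/
structure Lq {I : Type} [Fintype I] [DecidableEq I] (Z : CentreData I) {p : ℕ} (b : ZMod Z.L)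
    (X : PD I p 1) : Prop where
  lk : Lk Z b X
  pi : ∀ w : (ZMod (p ^ 1))ˣ, ∃ u : (ZMod Z.L)ˣ, ((u : ZMod Z.L) - 1) * (1 - b) = 0 ∧
    ∀ i k, Z.rho (Dg u) i k = if k = X.pi w i then 1 else 0

open Classical in
/-- The vector `v_p = p e_o - (the part t = 1 of y)`. -/
noncomputable def vp {I : Type} [Fintype I] [DecidableEq I] {p : ℕ} (X : PD I p 1) (k : I) : ℤ :=
  (if k = X.o then (p : ℤ) else 0) - (if X.t k = 1 then X.y k else 0)

/-- the unit `x` of `ZMod L` has trivial `p`-component (`b` is the idempotent of `p`) -/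
def Tr {I : Type} [Fintype I] [DecidableEq I] (Z : CentreData I) (b : ZMod Z.L)
    (x : (ZMod Z.L)ˣ) : Prop := ((x : ZMod Z.L) - 1) * b = 0

/-- The data of a prime `p` in the remaining case. -/
structure Gh {I : Type} [Fintype I] [DecidableEq I] (Z : CentreData I) {p : ℕ} [NeZero p]
    (b : ZMod Z.L) (X : PD I p 1) (Q : ℂ → Prop) (N : ℕ) (a w : I) (e : ℤ) (A : ℕ) : Prop where
  lq : Lq Z b X
  gam : Gam X Q N a
  wK : w ∈ Kp X a
  wO : ((Orb X w).card : ℤ) = gX X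
  sng : ∀ k ∈ Kp X a, k ∉ Orb X w → (Orb X k).card = 1
  e2 : e ^ 2 = 1
  yd : ∀ j, X.y j ≠ 0 → X.t j ≠ 1 → X.y j = e ∧ X.d j = A
  dA : X.d a = A
  A1 : 1 < A
  A_dvd : A ∣ Z.n
  A_nd : ¬ p ∣ A

/-- the matrix `m rho(s2 (1 - b))`, integral -/
noncomputable def zz {I : Type} [Fintype I] [DecidableEq I] (Z : CentreData I) {p : ℕ}
    (b : ZMod Z.L) (X : PD I p 1) (i k : I) : ℂ := (X.m : ℂ) * Z.rho (s2 (1 - b)) i k

/-- a fusion subset -/
structure FS {I : Type} [Fintype I] [DecidableEq I] (Z : CentreData I) (D : I → Prop) :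
    Prop where
  o : D Z.o
  st : ∀ i, D i → D (Z.st i)
  fus : ∀ i j k, D i → D j → Z.N i j k ≠ 0 → D k

/-- the centraliser of a set of objects -/
def Ce {I : Type} [Fintype I] [DecidableEq I] (Z : CentreData I) (E : I → Prop) : I → Prop :=
  fun j => ∀ i, E i → Sf Z i j = (Z.d i : ℂ) * Z.d j

/-- A decomposition `Z = D1 ⊠ D2` of the centre, `m i j` the simple object `i ⊗ j`. -/
structure Spl {I : Type} [Fintype I] [DecidableEq I] (Z : CentreData I) (D1 D2 : I → Prop)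
    (m : I → I → I) : Prop where
  fs1 : FS Z D1
  fs2 : FS Z D2
  cen : ∀ i j, D1 i → D2 j → Sf Z i j = (Z.d i : ℂ) * Z.d j
  int : ∀ i, D1 i → D2 i → i = Z.o
  N : ∀ i j l, D1 i → D2 j → Z.N i j l = if l = m i j then 1 else 0
  mo : ∀ i, D1 i → m i Z.o = i
  om : ∀ j, D2 j → m Z.o j = j
  d : ∀ i j, D1 i → D2 j → Z.d (m i j) = Z.d i * Z.d j
  tw : ∀ (z : ZMod Z.L) (i j : I), D1 i → D2 j → Z.tw z (m i j) = Z.tw z i * Z.tw z j
  sur : ∀ V, ∃ i j, D1 i ∧ D2 j ∧ m i j = V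
  inj : ∀ i j i' j', D1 i → D2 j → D1 i' → D2 j' → m i j = m i' j' → i = i' ∧ j = j'
  chi : ∀ i j k l, D1 i → D2 j → D1 k → D2 l →
    Cchi Z (m k l) (m i j) = Cchi Z k i * Cchi Z l j

end Pool.Agent.Helper79.AL
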