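import Pool.Agent.Helper79.AL.Three
import Pool.Agent.Helper52.PN.Num

/-! # Project AL / PQ0 (MP_2b6189_al): the numbers of a ghost prime, odd dimension -/

set_option autoImplicit false

namespace Pool.Agent.Helper79.AL

open Matrix ComplexConjugate Pool.Agent.Helper94.YG
open Pool.Agent.Helper94.YF hiding StORB
open Pool.Agent.Helper89.OS Pool.Agent.Helper89.OC

variable {I : Type} [Fintype I] [DecidableEq I]

open Classical in
/-- The torus-fixed elements of `Kp` and the orbit of `w` give the data `Gm2`. -/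
theorem Gh.gm2 {Z : CentreData I} (hodd : Odd Z.n) (hT : ¬ ∃ D : I → Prop, TanSet Z D) {p m : ℕ}
    [NeZero p] {b : ZMod Z.L} {X : PD I p 1} {Q : ℂ → Prop} {N : ℕ} {a w : I} {e : ℤ} {A : ℕ}
    (h : Gh Z b X Q N a w e A) (hn : Z.n = p * m) :
    ∃ (g : ℕ) (S : Finset I) (W : I → ℤ),
      Pool.Agent.Helper52.PN.Gm2 p m N g (e * A) S W Z.d (X.y w) (Z.d w) := by
  have hGLA := Helper36.OC.hGLA I Z
  have hM := Helper39.OS.hMZZ I p X
  have hO := Helper78.OC.hORB I p X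
  have hB := h.gam.blk
  obtain ⟨hD1, hD2, hD3, hD4⟩ := Helper79.OS.hDRE Helper47.OS.hSTL Helper8.OS.hHEC
    Helper39.OS.hMZZ I p X Q hB
  have hTSU := Helper45.OS.hTSU Helper47.OS.hSTL Helper8.OS.hHEC Helper39.OS.hMZZ hRAT' I p X Q hB
  have hXd : X.d = Z.d := h.lq.lk.d
  have hg2 : (2 : ℤ) ≤ gX X := hM.2.2.2.2.1
  have hgdef : (p : ℤ) - X.y X.o = gX X := rfl
  rw [hgdef] at hD1 hD2
  have hpN := h.gam.pN
  have hN3 : (3 : ℤ) ≤ N := by exact_mod_cast h.gam.N_ge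
  have h2N : 2 * (N : ℤ) < p := by nlinarith
  have hp7 : 7 ≤ p := h.p7
  have hp := X.prime
  have hpp : Prime (p : ℤ) := Nat.prime_iff_prime_int.1 hp
  have hg0 : gX X ≠ 0 := by omega
  have hgp : ¬ (p : ℤ) ∣ gX X := by
    intro h1
    have := Int.le_of_dvd (by omega) h1
    nlinarith
  have hm0 : 0 < m := by
    rcases Nat.eq_zero_or_pos m with h4 | h4
    · rw [h4, mul_zero] at hn
      exact absurd hn Z.n_pos.ne'
    · exact h4
  -- the constant D
  obtain ⟨b0, hb1, hb2⟩ := hM.2.2.1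
  obtain ⟨hbe, hbA⟩ := h.yd b0 hb1 hb2
  set D : ℤ := e * A with hDdef
  have he2 := h.e2
  have hgD : gX X * D = p * X.z X.o - 1 := by
    have h1 := hD2 b0 hb1 hb2
    rw [hbe, hbA] at h1
    calc gX X * D = e * (gX X * A) := by rw [hDdef]; ring
      _ = e * ((p * X.z X.o - 1) * e) := by rw [h1]
      _ = e ^ 2 * (p * X.z X.o - 1) := by ring
      _ = p * X.z X.o - 1 := by rw [he2, one_mul]
  have hpm_dvd : ∀ k ∈ Ks X, Z.d k ∣ m := by
    intro k hk
    have h1 : Z.d k ∣ p * m := by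
      have h2 := X.d_dvd k
      rw [h.lq.lk.d, ← h.lq.lk.n_eq, hn] at h2
      exact h2
    have h3 : ¬ p ∣ Z.d k := by
      intro hd
      apply hB.d_nd k (mem_Ks.1 hk).1
      rw [hXd]
      exact hd
    exact ((Nat.Prime.coprime_iff_not_dvd hp).2 h3).symm.dvd_of_dvd_mul_left h1
  have hAm : A ∣ m := by
    have h1 : A ∣ p * m := by
      rw [← hn]
      exact h.A_dvd
    exact ((Nat.Prime.coprime_iff_not_dvd hp).2 h.A_nd).symm.dvd_of_dvd_mul_left h1
  -- the orbit of `w`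
  have hWK := h.orbKs Helper78.OC.hORB
  have hwKs : w ∈ Ks X := h.wKs
  have hOw := h.oK
  obtain ⟨NE, hNE⟩ : ∃ NE : Finset I, NE = (Kp X a).filter fun k => k ∉ Orb X w := ⟨_, rfl⟩
  have hNEm : ∀ v ∈ NE, v ∈ Ks X ∧ v ∉ Orb X a ∧ v ∉ Orb X w := by
    intro v hv
    simp only [hNE, Kp, Finset.mem_filter] at hv
    exact ⟨hv.1.1, hv.1.2, hv.2⟩
  have hNEc : ∀ v ∈ NE, (Orb X v).card = 1 := by
    intro v hv
    simp only [hNE, Finset.mem_filter] at hv
    exact h.sng v hv.1 hv.2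
  have hNEpi : ∀ v ∈ NE, ∀ c, X.pi c v = v := by
    intro v hv c
    obtain ⟨x, hx⟩ := Finset.card_eq_one.1 (hNEc v hv)
    have h1 : X.pi c v ∈ Orb X v := by simp [Orb]
    have h2 := hO.self v
    rw [hx, Finset.mem_singleton] at h1 h2
    rw [h1, h2]
  have hNEo : ∀ v ∈ NE, Orb X v = {v} := by
    intro v hv
    obtain ⟨x, hx⟩ := Finset.card_eq_one.1 (hNEc v hv)
    have h2 := hO.self v
    rw [hx, Finset.mem_singleton] at h2
    rw [hx, h2]
  -- the weights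
  obtain ⟨W, hWdef⟩ : ∃ W : I → ℤ, W = fun v => X.y v / gX X := ⟨_, rfl⟩
  have hW : ∀ v ∈ NE, X.y v = gX X * W v := by
    intro v hv
    obtain ⟨h1, h2, h3⟩ := mem_Ks.1 (hNEm v hv).1
    have h4 := (hTSU v h1 h2 h3).2
    rw [hNEc v hv, Nat.cast_one, one_mul, hgdef] at h4
    rw [hWdef]
    exact (Int.mul_ediv_cancel' h4).symm
  have hW0 : ∀ v ∈ NE, W v ≠ 0 := by
    intro v hv h1
    have h2 := hW v hv
    rw [h1, mul_zero] at h2
    exact (mem_Ks.1 (hNEm v hv).1).1 h2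
  -- sums over `Kp`
  have hsplit : ∀ f : I → ℤ, (∀ i ∈ Orb X w, f i = f w) →
      ∑ k ∈ Kp X a, f k = gX X * f w + ∑ k ∈ NE, f k := by
    intro f hf
    rw [← Finset.sum_filter_add_sum_filter_not (Kp X a) (fun k => k ∈ Orb X w), hNE]
    congr 1
    have h1 : (Kp X a).filter (fun k => k ∈ Orb X w) = Orb X w := by
      ext i
      simp only [Finset.mem_filter]
      exact ⟨fun h => h.2, fun h => ⟨hOw h, h⟩⟩
    rw [h1, Finset.sum_congr rfl hf, Finset.sum_const, nsmul_eq_mul, h.wO]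
  have hsq : X.y w ^ 2 + gX X * ∑ v ∈ NE, W v ^ 2 = p - gX X := by
    have h1 := h.gam.sq
    rw [hsplit (fun k => X.y k ^ 2) (fun i hi => by simp only [hO.y w i hi])] at h1
    have h2 : ∑ k ∈ NE, X.y k ^ 2 = gX X * (gX X * ∑ v ∈ NE, W v ^ 2) := by
      rw [Finset.mul_sum, Finset.mul_sum]
      refine Finset.sum_congr rfl fun v hv => ?_
      rw [hW v hv]
      ring
    rw [h2] at h1
    have h3 : gX X * (X.y w ^ 2 + gX X * ∑ v ∈ NE, W v ^ 2) = gX X * (p - gX X) := by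
      rw [mul_add]
      exact h1
    exact mul_left_cancel₀ hg0 h3
  have hdm : X.y w * (Z.d w : ℤ) + ∑ v ∈ NE, W v * (Z.d v : ℤ) = 1 := by
    have h1 := h.gam.dm
    rw [hXd] at h1
    rw [hsplit (fun k => X.y k * (Z.d k : ℤ)) (fun i hi => by
      simp only [hO.y w i hi, (hWK i hi).2.2])] at h1
    have h2 : ∑ k ∈ NE, X.y k * (Z.d k : ℤ) = gX X * ∑ v ∈ NE, W v * (Z.d v : ℤ) := by
      rw [Finset.mul_sum]
      refine Finset.sum_congr rfl fun v hv => ?_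
      rw [hW v hv]
      ring
    rw [h2] at h1
    have h3 : gX X * (X.y w * (Z.d w : ℤ) + ∑ v ∈ NE, W v * (Z.d v : ℤ)) = gX X * 1 := by
      rw [mul_add, mul_one]
      exact h1
    exact mul_left_cancel₀ hg0 h3
  -- no invertible object
  have hd1 : ∀ k ∈ Ks X, 1 < Z.d k := by
    intro k hk
    have h0 := Z.d_pos k
    by_contra h1
    have h2 : Z.d k = 1 := by omega
    apply hT
    refine Helper70.AL.hG2T Helper36.OC.hGLA Helper1.OC.hGLB Helper38.OC.hGLC I Z hodd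
      ⟨k, ?_, h2, ?_⟩
    · have := (mem_Ks.1 hk).2.2
      rwa [h.lq.lk.o] at this
    · obtain ⟨h3, h4, -⟩ := mem_Ks.1 hk
      have := X.th_of k h3 h4
      rwa [h.lq.lk.th] at this
  -- the numbers `f`
  have hF : ∀ v ∈ NE, (Z.d v : ℤ) = p * (X.z X.o * W v + X.z v) - W v := by
    intro v hv
    obtain ⟨h1, h2, h3⟩ := mem_Ks.1 (hNEm v hv).1
    have h4 := hD1 v h1 h2 h3
    rw [hXd, hW v hv] at h4
    apply mul_left_cancel₀ hg0
    rw [h4]
    ring
  have hpd : ∀ v ∈ NE, ¬ (p : ℤ) ∣ Z.d v := by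
    intro v hv h1
    have h2 := hB.d_nd v (mem_Ks.1 (hNEm v hv).1).1
    rw [hXd] at h2
    exact h2 (Int.natCast_dvd_natCast.1 h1)
  have hpW : ∀ v ∈ NE, ¬ (p : ℤ) ∣ W v := by
    intro v hv h1
    apply hpd v hv
    rw [hF v hv]
    exact dvd_sub (dvd_mul_right _ _) h1
  have hom : ∀ v ∈ NE, ∃ k : ℤ, (p * k - N) * (Z.d v : ℤ) = D * W v := by
    intro v hv
    obtain ⟨h1, h2, h3⟩ := mem_Ks.1 (hNEm v hv).1
    have h4 := ((Helper95.OC.hTS2 Helper78.OC.hORB I p X Q hB v (hNEm v hv).1).2) b0 hb2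
    rw [hNEo v hv, Finset.sum_singleton, Finset.card_singleton, hW v hv, h.lq.lk.chi] at h4
    have hgC : ((gX X : ℤ) : ℂ) ≠ 0 := by exact_mod_cast hg0
    have h5 : Cchi Z b0 v = -((W v : ℤ) : ℂ) := by
      apply mul_left_cancel₀ hgC
      rw [h4]
      push_cast
      ring
    have h6 : (Z.d v : ℂ) * Cchi Z v b0 = ((-(A * W v) : ℤ) : ℂ) := by
      rw [← hGLA.Sf_chi, hGLA.Sf_symm, hGLA.Sf_chi, h5]
      have h7 : Z.d b0 = A := by rw [← hXd]; exact hbA
      rw [h7]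
      push_cast
      ring
    obtain ⟨y, hy⟩ := Pool.Agent.Helper94.BR.rat_dvd (Z.d_pos v) (hGLA.chi_int v b0) h6
    have hoy : (-(e * y)) * (Z.d v : ℤ) = D * W v := by
      calc (-(e * y)) * (Z.d v : ℤ) = -(e * ((Z.d v : ℤ) * y)) := by ring
        _ = D * W v := by rw [hy, hDdef]; ring
    -- congruence
    have h8 : (p : ℤ) ∣ W v * (gX X * (-(e * y)) - 1) := by
      refine ⟨gX X * (-(e * y)) * (X.z X.o * W v + X.z v) - X.z X.o * W v, ?_⟩
      have h9 : gX X * ((-(e * y)) * (Z.d v : ℤ)) = (p * X.z X.o - 1) * W v := by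
        rw [hoy, ← hgD]; ring
      rw [hF v hv] at h9
      linear_combination (-1 : ℤ) * h9
    have h10 : (p : ℤ) ∣ gX X * (-(e * y) + N) := by
      have h11 := (hpp.dvd_or_dvd h8).resolve_left (hpW v hv)
      have h12 : gX X * (-(e * y) + N) = (gX X * (-(e * y)) - 1) + p := by
        linear_combination (-1 : ℤ) * hpN
      rw [h12]
      exact dvd_add h11 (dvd_refl _)
    obtain ⟨k, hk⟩ := (hpp.dvd_or_dvd h10).resolve_left hgp
    exact ⟨k, by rw [← hoy, ← hk]; ring⟩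
  have hgN : ((gX X).toNat : ℤ) = gX X := Int.toNat_of_nonneg (by omega)
  refine ⟨(gX X).toNat, NE, W, ?_⟩
  refine
    { prime := hp
      odd := X.p_odd
      m0 := hm0
      Dm := ?_
      DN := ?_
      w0 := hW0
      d1 := fun v hv => hd1 v (hNEm v hv).1
      pd := fun v hv hd => hpd v hv (Int.natCast_dvd_natCast.2 hd)
      dm := fun v hv => hpm_dvd v (hNEm v hv).1
      F := ?_
      om := hom
      gcd := ?_
      g2 := ?_
      pN := ?_
      sq := ?_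
      dim := hdm
      dW1 := hd1 w hwKs
      dWm := hpm_dvd w hwKs
      gcdW := ?_ }
  · have h1 : (A : ℤ) ∣ m := by exact_mod_cast hAm
    have h2 : e * A ∣ (A : ℤ) := ⟨e, by
      have : e * A * e = e ^ 2 * A := by ring
      rw [this, he2, one_mul]⟩
    exact h2.trans h1
  · refine ⟨D - N * X.z X.o, ?_⟩
    linear_combination (-D) * hpN - (N : ℤ) * hgD
  · intro v hv
    refine ⟨X.z X.o * W v + X.z v, ?_⟩
    rw [hF v hv]
    ring
  · intro v hv v' hv' _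
    exact Pool.Agent.Helper94.BR.gcd_big Z hodd hT h v v' (hNEm v hv).1 (hNEpi v hv) (hNEm v' hv').1
  · have : (2 : ℤ) ≤ ((gX X).toNat : ℤ) := by rw [hgN]; exact hg2
    exact_mod_cast this
  · have : (p : ℤ) = 1 + N * ((gX X).toNat : ℤ) := by rw [hgN]; linarith
    exact_mod_cast this
  · rw [hgN]
    exact hsq
  · intro v hv
    exact Pool.Agent.Helper94.BR.gcd_big Z hodd hT h v w (hNEm v hv).1 (hNEpi v hv) hwKs

/-- the dimension of `w` divides `y w * A` -/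
theorem Gh.dWA {Z : CentreData I} {p : ℕ}
    [NeZero p] {b : ZMod Z.L} {X : PD I p 1} {Q : ℂ → Prop} {N : ℕ} {a w : I} {e : ℤ} {A : ℕ}
    (h : Gh Z b X Q N a w e A) : (Z.d w : ℤ) ∣ (e * A) * X.y w := by
  have hGLA := Helper36.OC.hGLA I Z
  have hM := Helper39.OS.hMZZ I p X
  have hB := h.gam.blk
  have hXd : X.d = Z.d := h.lq.lk.d
  have hg2 : (2 : ℤ) ≤ gX X := hM.2.2.2.2.1
  have hg0 : gX X ≠ 0 := by omega
  have hgC : ((gX X : ℤ) : ℂ) ≠ 0 := by exact_mod_cast hg0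
  have hWK := h.orbKs Helper78.OC.hORB
  obtain ⟨b0, hb1, hb2⟩ := hM.2.2.1
  obtain ⟨hbe, hbA⟩ := h.yd b0 hb1 hb2
  have h4 := ((Helper95.OC.hTS2 Helper78.OC.hORB I p X Q hB w h.wKs).2) b0 hb2
  rw [h.lq.lk.chi] at h4
  have hwO : ((Orb X w).card : ℂ) = ((gX X : ℤ) : ℂ) := by
    have := h.wO
    exact_mod_cast this
  have h5 : ∑ i ∈ Orb X w, Cchi Z b0 i = -((X.y w : ℤ) : ℂ) := by
    apply mul_left_cancel₀ hgC
    rw [h4, hwO]
    ring
  have h6 : (Z.d w : ℂ) * ∑ i ∈ Orb X w, Cchi Z i b0 = ((-(A * X.y w) : ℤ) : ℂ) := by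
    rw [Finset.mul_sum]
    have h7 : Z.d b0 = A := by rw [← hXd]; exact hbA
    calc ∑ i ∈ Orb X w, (Z.d w : ℂ) * Cchi Z i b0 =
          ∑ i ∈ Orb X w, (Z.d b0 : ℂ) * Cchi Z b0 i := by
          refine Finset.sum_congr rfl fun i hi => ?_
          rw [← (hWK i hi).2.2, ← hGLA.Sf_chi, hGLA.Sf_symm, hGLA.Sf_chi]
      _ = (Z.d b0 : ℂ) * ∑ i ∈ Orb X w, Cchi Z b0 i := by rw [Finset.mul_sum]
      _ = _ := by
          rw [h5, h7]
          push_cast
          ring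
  obtain ⟨y, hy⟩ := Pool.Agent.Helper94.BR.rat_dvd (Z.d_pos w)
    (IsIntegral.sum _ fun i _ => hGLA.chi_int i b0) h6
  refine ⟨-(e * y), ?_⟩
  calc e * A * X.y w = -(e * (-(A * X.y w))) := by ring
    _ = -(e * ((Z.d w : ℤ) * y)) := by rw [hy]
    _ = (Z.d w : ℤ) * -(e * y) := by ring

end Pool.Agent.Helper79.AL
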