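import Pool.Agent.Helper79.AL.St3

set_option autoImplicit false

namespace Pool.Agent.Helper79.AL

open Matrix ComplexConjugate Pool.Agent.Helper94.YG
open Pool.Agent.Helper94.YF hiding StORB
open Pool.Agent.Helper89.OS Pool.Agent.Helper89.OC

theorem lo_sm {L : ℕ} (b : ZMod L) : (Lo b * Sm : SL L) = Sm * U (-b) := by
  apply Subtype.ext
  rw [Matrix.SpecialLinearGroup.coe_mul, Matrix.SpecialLinearGroup.coe_mul]
  ext i j
  fin_cases i <;> fin_cases j <;> simp [U, Lo, Sm, Matrix.mul_apply, Fin.sum_univ_two]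

theorem lo_o {I : Type} [Fintype I] [DecidableEq I] (Z : CentreData I) (hA : GLA Z)
    (b : ZMod Z.L) (V : I) : (Z.n : ℂ) ^ 2 * Z.rho (Lo b) V Z.o =
      ∑ k, (Z.d k : ℂ) ^ 2 * Cchi Z k V * Z.tw (-b) k := by
  obtain ⟨f1, -⟩ := Helper36.YF.hFUS Helper88.YF.hDUA I Z.toCentreRep
  have h1 : Z.rho (Lo b) * Z.rho Sm = Z.rho Sm * Matrix.diagonal (Z.tw (-b)) := by
    rw [← map_mul, lo_sm, map_mul, f1]
  have h2 : Z.rho Sm * (Z.rho Sm)ᴴ = 1 := mul_eq_one_comm.1 (Z.unitary Sm)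
  have h3 : Z.rho (Lo b) = Z.rho Sm * Matrix.diagonal (Z.tw (-b)) * (Z.rho Sm)ᴴ := by
    rw [← h1, Matrix.mul_assoc, h2, Matrix.mul_one]
  have h4 : Z.rho (Lo b) V Z.o = ∑ k, Z.rho Sm V k * Z.tw (-b) k * conj (Z.rho Sm Z.o k) := by
    rw [h3, Matrix.mul_apply]
    refine Finset.sum_congr rfl fun k _ => ?_
    rw [Matrix.mul_diagonal, Matrix.conjTranspose_apply]
    rfl
  have hn : (Z.n : ℂ) ≠ 0 := by exact_mod_cast Z.n_pos.ne'
  rw [h4, Finset.mul_sum]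
  refine Finset.sum_congr rfl fun k _ => ?_
  have h5 : (Z.n : ℂ) * Z.rho Sm V k = (Z.d k : ℂ) * Cchi Z k V := by
    have := hA.Sf_chi k V
    rw [← hA.Sf_symm] at this
    exact this
  have h6 : conj (Z.rho Sm Z.o k) = (Z.d k : ℂ) / Z.n := by
    rw [Z.s_o]
    simp
  rw [h6]
  have h7 : (Z.n : ℂ) ^ 2 * (Z.rho Sm V k * Z.tw (-b) k * ((Z.d k : ℂ) / Z.n)) =
      ((Z.n : ℂ) * Z.rho Sm V k) * Z.tw (-b) k * Z.d k := by
    field_simp
  rw [h7, h5]
  ring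

theorem hYPR' : StYPR := by
  classical
  intro hGLA hLKN I _ _ Z p b X D1 D2 m hL hS i j hi hj
  have hA := hGLA I Z
  obtain ⟨hnf, -, -⟩ := hLKN I Z p b X hL
  obtain ⟨d1, d2, d3, d4, -, -⟩ := Helper88.YF.hDUA I Z.toCentreRep
  obtain ⟨f1, f2, f3, f4, f5, f6, f7, f8, f9, f10, f11⟩ :=
    Helper36.YF.hFUS Helper88.YF.hDUA I Z.toCentreRep
  have hn : (Z.n : ℂ) ≠ 0 := by exact_mod_cast Z.n_pos.ne'
  -- t * y = p f
  have hty : ∀ V, X.t V * X.y V = (p : ℂ) * Z.rho (Lo b) V Z.o := by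
    intro V
    have h1 : Z.rho (s2 b) V Z.o = Z.tw (-b) V * Z.rho (Lo b) V Z.o := by
      have h2 : Z.rho (s2 b) = Matrix.diagonal (Z.tw (-b)) * Z.rho (Lo b) *
          Matrix.diagonal (Z.tw (-b)) := by
        rw [← f1, ← map_mul, ← map_mul]
        rfl
      rw [h2, Matrix.mul_diagonal, Matrix.diagonal_mul, f6, mul_one]
    have h2 : (X.y V : ℂ) = X.s V X.o := (X.s_o V).symm
    rw [h2, hL.s, hL.o, hL.t]
    simp only
    rw [h1]
    have h3 : Z.tw b V * Z.tw (-b) V = 1 := by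
      rw [← f3, add_neg_cancel, f4]
    calc Z.tw b V * ((p : ℂ) * (Z.tw (-b) V * Z.rho (Lo b) V Z.o)) =
        (Z.tw b V * Z.tw (-b) V) * (p * Z.rho (Lo b) V Z.o) := by ring
      _ = _ := by rw [h3, one_mul]
  -- factorisation
  set F1 : I → ℂ := fun a => ∑ k, if D1 k then (Z.d k : ℂ) ^ 2 * Cchi Z k a * Z.tw (-b) k else 0
    with hF1
  set F2 : I → ℂ := fun a => ∑ k, if D2 k then (Z.d k : ℂ) ^ 2 * Cchi Z k a * Z.tw (-b) k else 0
    with hF2
  have hfac : ∀ i j, D1 i → D2 j → (Z.n : ℂ) ^ 2 * Z.rho (Lo b) (m i j) Z.o = F1 i * F2 j := by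
    intro i j hi hj
    rw [lo_o Z hA, hF1, hF2]
    simp only
    rw [← Finset.sum_filter, ← Finset.sum_filter, Finset.sum_mul_sum, ← Finset.sum_product']
    symm
    refine Finset.sum_bij (fun x _ => m x.1 x.2) (fun _ _ => Finset.mem_univ _) ?_ ?_ ?_
    · rintro ⟨k, l⟩ hkl ⟨k', l'⟩ hkl' h
      simp only [Finset.mem_product, Finset.mem_filter, Finset.mem_univ, true_and] at hkl hkl'
      obtain ⟨h1, h2⟩ := hS.inj k l k' l' hkl.1 hkl.2 hkl'.1 hkl'.2 h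
      exact Prod.ext h1 h2
    · intro V _
      obtain ⟨k, l, hk, hl, hV⟩ := hS.sur V
      exact ⟨(k, l), by simp [hk, hl], hV⟩
    · rintro ⟨k, l⟩ hkl
      simp only [Finset.mem_product, Finset.mem_filter, Finset.mem_univ, true_and] at hkl
      simp only
      rw [hS.d k l hkl.1 hkl.2, hS.chi i j k l hi hj hkl.1 hkl.2, hS.tw (-b) k l hkl.1 hkl.2]
      push_cast
      ring
  have ho1 : D1 Z.o := hS.fs1.o
  have ho2 : D2 Z.o := hS.fs2.o
  have hmoo : m Z.o Z.o = Z.o := hS.mo Z.o ho1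
  have hf : Z.rho (Lo b) (m i j) Z.o * Z.rho (Lo b) Z.o Z.o =
      Z.rho (Lo b) i Z.o * Z.rho (Lo b) j Z.o := by
    have h1 := hfac i j hi hj
    have h2 := hfac Z.o Z.o ho1 ho2
    have h3 := hfac i Z.o hi ho2
    have h4 := hfac Z.o j ho1 hj
    rw [hmoo] at h2
    rw [hS.mo i hi] at h3
    rw [hS.om j hj] at h4
    have hn2 : (Z.n : ℂ) ^ 2 ≠ 0 := pow_ne_zero 2 hn
    apply mul_left_cancel₀ hn2
    apply mul_left_cancel₀ hn2
    calc (Z.n : ℂ) ^ 2 * ((Z.n : ℂ) ^ 2 * (Z.rho (Lo b) (m i j) Z.o * Z.rho (Lo b) Z.o Z.o)) =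
        ((Z.n : ℂ) ^ 2 * Z.rho (Lo b) (m i j) Z.o) * ((Z.n : ℂ) ^ 2 * Z.rho (Lo b) Z.o Z.o) := by
          ring
      _ = ((Z.n : ℂ) ^ 2 * Z.rho (Lo b) i Z.o) * ((Z.n : ℂ) ^ 2 * Z.rho (Lo b) j Z.o) := by
          rw [h1, h2, h3, h4]; ring
      _ = _ := by ring
  have htm : X.t (m i j) = X.t i * X.t j := by
    rw [hL.t]; exact hS.tw b i j hi hj
  have ht0 : ∀ V, X.t V ≠ 0 := by
    intro V h
    have := X.t_pow V
    rw [h, zero_pow (by have := X.prime.ne_zero; simpa using this)] at this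
    exact zero_ne_one this
  have hyC : (X.y X.o : ℂ) * X.y (m i j) = X.y i * X.y j := by
    have h1 := hty (m i j)
    have h2 := hty Z.o
    have h3 := hty i
    have h4 := hty j
    have hto : X.t Z.o = 1 := by rw [← hL.o]; exact X.t_o
    rw [hto, one_mul] at h2
    rw [htm] at h1
    have h5 : X.t i * X.t j ≠ 0 := mul_ne_zero (ht0 i) (ht0 j)
    apply mul_left_cancel₀ h5
    rw [hL.o]
    calc X.t i * X.t j * ((X.y Z.o : ℂ) * X.y (m i j)) =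
        (X.t i * X.t j * X.y (m i j)) * X.y Z.o := by ring
      _ = ((p : ℂ) * Z.rho (Lo b) (m i j) Z.o) * ((p : ℂ) * Z.rho (Lo b) Z.o Z.o) := by
          rw [h1, h2]
      _ = (p : ℂ) ^ 2 * (Z.rho (Lo b) (m i j) Z.o * Z.rho (Lo b) Z.o Z.o) := by ring
      _ = ((p : ℂ) * Z.rho (Lo b) i Z.o) * ((p : ℂ) * Z.rho (Lo b) j Z.o) := by
          rw [hf]; ring
      _ = (X.t i * X.y i) * (X.t j * X.y j) := by rw [h3, h4]
      _ = _ := by ring
  refine ⟨by exact_mod_cast hyC, ?_⟩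
  have h1 := hnf i (X.st j)
  rw [X.st_st, X.t_st, hL.N] at h1
  have h2 : ∑ l, (Z.N i j l : ℂ) * (X.t l * X.y l) = X.t (m i j) * X.y (m i j) := by
    rw [Finset.sum_eq_single (m i j)]
    · rw [hS.N i j (m i j) hi hj]
      simp
    · intro l _ hl
      rw [hS.N i j l hi hj, if_neg hl]
      simp
    · intro h
      exact absurd (Finset.mem_univ _) h
  rw [h2, htm] at h1
  have h5 : X.t i * X.t j ≠ 0 := mul_ne_zero (ht0 i) (ht0 j)
  apply mul_left_cancel₀ h5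
  rw [← h1]
  ring

end Pool.Agent.Helper79.AL
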