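import Pool.Agent.Helper79.AL.GhGm
import Pool.Agent.Helper89.PQ0.Tup

/-! # MP_2b6189_al: the numbers and the tuple of a ghost prime, odd dimension -/

set_option autoImplicit false

namespace Pool.Agent.Helper79.AL

open Pool.Agent.Helper94.YG
open Pool.Agent.Helper94.YF hiding StORB
open Pool.Agent.Helper89.OS Pool.Agent.Helper89.OC
open Pool.Agent.Helper52.PN Pool.Agent.Helper89.PQ0

/-- the clause on two primes -/
theorem gm_vu {ι : Type} {p m N : ℕ} {D : ℤ} {S : Finset ι} {w : ι → ℤ} {d : ι → ℕ}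
    (h : Gm p m N D S w d) (hs : ∑ v ∈ S, w v ^ 2 ≤ N)
    (hT : ∀ v u : ℕ, v.Prime → u.Prime →
      ∃ s ∈ S, ∃ G : ℕ, G ∣ d s ∧ p < 2 * G ∧ ¬ v ∣ G ∧ ¬ u ∣ G)
    (v u c e R : ℕ) (hv : v.Prime) (hu : u.Prime) (hR : 0 < R) :
    (m ∣ v ^ c * u ^ e * R → p ≤ 2 * R) ∧
    (D.natAbs ∣ v ^ c * u ^ e * R → p ^ 2 ≤ 4 * N * R ^ 2) := by
  obtain ⟨s, hs1, G, hG, hpG, hGv, hGu⟩ := hT v u hv hu
  constructor
  · intro hm
    have h1 := Nat.le_of_dvd hR (dvd_R hv hu ((hG.trans (h.dm s hs1)).trans hm) hGv hGu)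
    omega
  · intro hA
    obtain ⟨k, hk⟩ := h.om s hs1
    have h1 : d s ∣ D.natAbs * (w s).natAbs := by
      rw [← Int.natAbs_mul, ← hk, Int.natAbs_mul, Int.natAbs_natCast]
      exact dvd_mul_left _ _
    have h2 : G ∣ v ^ c * u ^ e * (R * (w s).natAbs) := by
      rw [← mul_assoc]
      exact (hG.trans h1).trans (mul_dvd_mul_right hA _)
    have h3 := dvd_R hv hu h2 hGv hGu
    have hw : 0 < (w s).natAbs := Int.natAbs_pos.2 (h.w0 s hs1)
    have h4 := Nat.le_of_dvd (Nat.mul_pos hR hw) h3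
    have h5 : p ≤ 2 * (R * (w s).natAbs) := by omega
    have h6 : (w s).natAbs ^ 2 ≤ N := by
      have h7 : w s ^ 2 ≤ N :=
        (Finset.single_le_sum (f := fun v => w v ^ 2) (fun i _ => sq_nonneg _) hs1).trans hs
      have h8 : (((w s).natAbs ^ 2 : ℕ) : ℤ) = w s ^ 2 := by
        push_cast
        exact sq_abs _
      exact_mod_cast h8 ▸ h7
    calc p ^ 2 ≤ (2 * (R * (w s).natAbs)) ^ 2 := Nat.pow_le_pow_left h5 2
      _ = 4 * (w s).natAbs ^ 2 * R ^ 2 := by ring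
      _ ≤ 4 * N * R ^ 2 := Nat.mul_le_mul_right _ (Nat.mul_le_mul_left 4 h6)

/-- **Theorem.**  The numbers and the tuple of a ghost prime, odd dimension. -/
theorem exactPrimeT (I : Type) [Fintype I] [DecidableEq I] (Z : CentreData I) (hodd : Odd Z.n)
    (p m : ℕ) (hp : p.Prime) (hn : Z.n = p * m) (hpm : ¬ p ∣ m)
    (hT : ¬ ∃ D : I → Prop, TanSet Z D) :
    ∃ N A : ℕ, Odd N ∧ 5 ≤ N ∧ N ∣ p - 1 ∧ A ∣ m ∧ (p + 1) ^ 2 < A ∧
      ((p : ℤ) ∣ A - N ∨ (p : ℤ) ∣ A + N) ∧ Tup p m N A ∧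
      ∀ v u c d R : ℕ, v.Prime → u.Prime → 0 < R →
        (m ∣ v ^ c * u ^ d * R → p ≤ 2 * R) ∧
        (A ∣ v ^ c * u ^ d * R → p ^ 2 ≤ 4 * N * R ^ 2) := by
  classical
  have : NeZero p := ⟨hp.ne_zero⟩
  obtain ⟨b, X, Q, N, a, w, e, A, h⟩ := allGHO I Z p m hodd hp hn hpm hT
  obtain ⟨g, S, W, G⟩ := h.gm2 hodd hT hn
  have hA : (e * (A : ℤ)).natAbs = A := by
    have h1 := h.e2
    have h2 : e.natAbs = 1 := by
      have h3 : (e - 1) * (e + 1) = 0 := by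
        linear_combination h1
      rcases mul_eq_zero.1 h3 with h4 | h4 <;> omega
    rw [Int.natAbs_mul, h2, one_mul, Int.natAbs_natCast]
  have hAm : A ∣ m := by
    have h1 : A ∣ p * m := by
      rw [← hn]
      exact h.A_dvd
    exact ((Nat.Prime.coprime_iff_not_dvd hp).2 h.A_nd).symm.dvd_of_dvd_mul_left h1
  have hNp : N ∣ p - 1 := by
    have h1 : ((p - 1 : ℕ) : ℤ) = N * gX X := by
      rw [Nat.cast_sub hp.one_lt.le]
      exact_mod_cast h.gam.pN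
    have h2 : (N : ℤ) ∣ ((p - 1 : ℕ) : ℤ) := ⟨gX X, h1⟩
    exact_mod_cast h2
  have htup := Gm2.tup G h.dWA
  rw [hA] at htup
  have hvu := gm_vu G.toGm G.sum_le G.pairEx
  rw [hA] at hvu
  exact ⟨N, A, h.gam.N_odd, h.N5 hodd hT, hNp, hAm,
    Pool.Agent.Helper94.BR.ghost_big Z hodd hT h, h.Amod, htup, hvu⟩

end Pool.Agent.Helper79.AL
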