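import Pool.Agent.Helper79.AL.OddT
import Pool.Agent.Helper89.PQ0.OnceT

/-! # MP_2b6189_al: a prime which divides `n` exactly once, any parity, the numbers and the tuple -/

set_option autoImplicit false

namespace Pool.Agent.Helper79.AL

open Pool.Agent.Helper94.YG
open Pool.Agent.Helper94.YF hiding StORB
open Pool.Agent.Helper89.OS Pool.Agent.Helper89.OC
open Pool.Agent.Helper89.PQ0

/-- A prime which divides the dimension exactly once. -/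
theorem onceT (I : Type) [Fintype I] [DecidableEq I] (Z : CentreData I)
    (p m : ℕ) (hp : p.Prime) (hn : Z.n = p * m) (hpm : ¬ p ∣ m)
    (hT : ¬ ∃ D : I → Prop, TanSet Z D) :
    ¬ p ^ 2 ∣ Z.L ∧ ∃ N A : ℕ, 3 ≤ N ∧ N ∣ p - 1 ∧ A ∣ m ∧ (p + 1) ^ 2 ≤ 2 * A ∧
      ((p : ℤ) ∣ A - N ∨ (p : ℤ) ∣ A + N) ∧
      (Odd Z.n → Odd N ∧ 5 ≤ N ∧ (p + 1) ^ 2 < A) ∧ Tup p m N A ∧
      ∀ v u c d R : ℕ, v.Prime → u.Prime → 0 < R →
        (m ∣ v ^ c * u ^ d * R → p ≤ 2 * R) ∧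
        (A ∣ v ^ c * u ^ d * R → p ^ 2 ≤ 4 * N * R ^ 2) := by
  obtain ⟨h1, N, A, h2, h3, h4, h5, h6, h7, h8⟩ := primeOnceT I Z p m hp hn hpm hT
  refine ⟨h1, ?_⟩
  by_cases hodd : Odd Z.n
  · obtain ⟨N, A, h2, h3, h4, h5, h6, h7, h8, h9⟩ := exactPrimeT I Z hodd p m hp hn hpm hT
    exact ⟨N, A, by omega, h4, h5, by omega, h7, fun _ => ⟨h2, h3, h6⟩, h8, h9⟩
  · exact ⟨N, A, h2, h3, h4, h5, h6, fun h => absurd h hodd, h7, h8⟩

end Pool.Agent.Helper79.AL
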