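import Pool.Agent.Helper79.AL.Once2
import Pool.Agent.Helper52.PN.Small

/-! # MP_2b6189_al: a prime which divides `n` exactly once, the bound `22680` -/

set_option autoImplicit false

namespace Pool.Agent.Helper79.AL

open Pool.Agent.Helper94.YG
open Pool.Agent.Helper94.YF hiding StORB
open Pool.Agent.Helper89.OS Pool.Agent.Helper89.OC
open Pool.Agent.Helper89.PQ0 Pool.Agent.Helper52.PN

/-- If some prime divides the dimension exactly once and there is no Tannakian set then `22680 ≤ n`. -/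
theorem bound (I : Type) [Fintype I] [DecidableEq I] (Z : CentreData I)
    (p m : ℕ) (hp : p.Prime) (hn : Z.n = p * m) (hpm : ¬ p ∣ m)
    (hT : ¬ ∃ D : I → Prop, TanSet Z D) : 22680 ≤ Z.n := by
  by_contra h
  have h1 : ¬ p * p ∣ Z.n := by
    rintro ⟨c, hc⟩
    apply hpm
    refine ⟨c, ?_⟩
    have h2 : p * m = p * (p * c) := by rw [← hn, hc, mul_assoc]
    exact Nat.eq_of_mul_eq_mul_left hp.pos h2
  obtain ⟨p', m', hp', hn', hpm', -, hG⟩ :=
    small Z.n p (by omega) hp ⟨m, hn⟩ h1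
  apply hG
  obtain ⟨-, N, A, h2, h3, h4, h5, h6, h7, -⟩ := primeOnceT I Z p' m' hp' hn' hpm' hT
  exact ⟨N, A, h2, h3, h4, h5, h6, h7⟩

end Pool.Agent.Helper79.AL
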