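import Pool.Agent.Helper79.AL.Defs
import Pool.Agent.Helper4.SQ.M_LUN

/-!
# Project AL (MP_2b6189_al), part 1: matrix facts, one prime

Every module proves `theorem hXXX : StXXX` (or `: ... → StXXX` with other statements as hypotheses; all `St...` of projects YF, OS, OC, AL
may be used as hypotheses; proved theorems of OS are listed in the header of `Pool/Agent/Helper89/OC/Defs.lean`, e.g.
`Helper88.YF.hDUA : StDUA`, `Helper36.YF.hFUS : StFUS`, `Helper94.YF.hRAT' : StRAT`, `Helper19.OS.hGRP : StGRP`, `Helper33.OS.hENT : StENT`,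
`Helper36.OS.hPRM`, `Helper90.OS.hAUT`).  Notation: `G x = rho (Dg x)`, `S = rho Sm`, `S_c = rho (s2 c)`, `B = {y ≠ 0}`, `g = gX X = p - y o`.
-/

set_option autoImplicit false

namespace Pool.Agent.Helper79.AL

open Matrix ComplexConjugate Pool.Agent.Helper94.YG
open Pool.Agent.Helper94.YF hiding StORB
open Pool.Agent.Helper89.OS Pool.Agent.Helper89.OC

/-- **AL MODULE FCA.**  Matrix facts.
PROOF.  `sym`: ENT.  `uni`: `rho g` is unitary: `∑ i, conj (u i) * u i` for `u = rho g *ᵥ v` is `conj v ⬝ (rho g)ᴴ rho g v`.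
`Sm_eq`: `s2 (1 - c) * s2 c = Sm` (2x2 matrices: `s2 c = (1-c, -c; c, 1-c)`, `s2 (1-c) = (c, -(1-c); 1-c, c)`, use `c * c = c`; see GRP), `map_mul`.
`com`: `s2 c * s2 c' = s2 c' * s2 c` if `c * c' = 0` (2x2).  `supp`: `U c * s2 c' = s2 c' * U c` (2x2, `c * c' = 0`), `rho (U c) = diagonal (tw c)` (FUS): `tw c i * S_c' i k = S_c' i k * tw c k`.
`perm`: PRM (`Helper36.OS.hPRM` with its hypotheses) gives `π` with `G x i k = [k = π i]`.  Bijective: `G x * G x⁻¹ = 1` (`Dg (x * x') = Dg x * Dg x'`), so with `π'` for `x⁻¹`: `(G x * G x⁻¹) i k = [k = π' (π i)]`, so `π' (π i) = i`, and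
`π (π' i) = i`.  `π i = o ↔ i = o`: `borel`: `G x i o = [i = o]`.  `d`: see OS MODULE XC (4) (AUT for `x`: `σ (S i k) = (G x * S) i k = S (π i) k`; `k = o`: `S i o = d i / n` is rational).
`(G * M) i k = M (π i) k` and `(M * G⁻¹) i k = M i (π k)`, as `G⁻¹ l k = [l = π k]`.
`Dg x * Sm = Sm * Dg x⁻¹` (2x2) gives `S (π i) k = S i (π k)`.  `tw`: `Dg x * U c = U (x^2 c) * Dg x` and `(x - 1) c = 0` gives `x^2 c = c`, so `G x` commutes with `diagonal (tw c)`; entry `(i, π i)`: `tw c (π i) = tw c i`.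
`Dg x * s2 c = s2 c * Dg x` if `(x - 1) c = 0` (then also `(x⁻¹ - 1) c = 0`; 2x2): `S_c (π i) k = S_c i (π⁻¹ k)`; put `π k` for `k`.
`Dg x * s2 c = s2 c * Dg x⁻¹` if `(x - 1) (1 - c) = 0` (2x2: both are `((1-c) .. )`: on the part `1 - c` of the ring `x = 1` and both sides are `1`; on the part `c` it is `D(x) S = S D(x)⁻¹`): `S_c (π i) k = S_c i (π k)`. -/
def StFCA : Prop := ∀ (I : Type) [Fintype I] [DecidableEq I] (Z : CentreData I), FCA Z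

/-- **AL MODULE FCB.**  Fixed vectors.
PROOF.  `of`: FUS: `rho (U z) = diagonal (tw z)`, `tw c k * tw (-c) k = tw 0 k = 1`.  Let `u = S_c v`.  `rho (U (-c)) u = u`, `rho (U (-c)) v = v` by the support conditions.  GRP (11) (`c * x = x`: `(s2 c)⁻¹ * U x * s2 c = Lo (-x)`) for `x = -c`:
`rho (Lo c) v = rho (s2 c)⁻¹ (rho (U (-c)) u) = rho (s2 c)⁻¹ u = v`.  `s2 c = U (-c) * Lo c * U (-c)` (definition): `S_c v = v`.
(GRP can be used with `P := L`, `j x := x * c`, `tu w := ` the unit `(1 - c) + w c`; or just redo the 2x2 computation of `U x * s2 c = s2 c * Lo (-x)`.)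
`add`, `smul`, `sum` (`f = ∑ j, f j * ev j`; induction on a finset, `add`, `smul`): linearity of `mulVec`.  `s2`: `S_c (S_c' v) = S_c' (S_c v) = S_c' v` (`com`), and `(S_c' v) k ≠ 0` implies that some `i` has `S_c' k i ≠ 0`, `v i ≠ 0`, so
`tw c k = tw c i = 1` (`supp`).  `proj`: `S_c i k ≠ 0` implies `tw c' i = tw c' k` (`supp` with the roles exchanged), so `S_c` commutes with the diagonal matrix `φ (tw c' k)`.  `Sm`: `S v = S_(1-c) (S_c v) = S_(1-c) v` and `(1 - c) * c = 0`: `s2`. -/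
def StFCB : Prop := StFCA → ∀ (I : Type) [Fintype I] [DecidableEq I] (Z : CentreData I), FCB Z

/-- **AL MODULE DZ.**  Defect zero.
PROOF.  Field `con` (`j := k`): `m^2 * s k i = d k * (integral)`, `p ∣ d k`, so `m^2 * (s k i / p)` is integral; so is `p * (s k i / p)` (`s_int`), and `m^2`, `p` are coprime (Bezout): `α i := s k i / p` is integral.  `∑ i, |α i|^2 = 1` (`s_uni`).
`T = {i | α i ≠ 0}`.  For an automorphism `σ` with the unit `c` of `gal`: `σ (α i) = α (pi c i)`, so `pi c` maps `T` to `T`, bijectively (`pi c` is injective, inverse `pi c⁻¹`).  `P = ∏_{i ∈ T} α i` is integral, `σ P = P` for all `σ`: an integer (RAT), not `0`,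
`1 ≤ |P|^2 = ∏ |α i|^2`.  `∑_T (|α i|^2 - 1) ≥ ∑_T log |α i|^2 ≥ 0` (`Real.log_le_sub_one_of_pos`; as in module AMG, `Helper91.OS.hAMG`), so `|T| ≤ 1`, and `T = {k'}` (`∑ |α|^2 = 1`), `α k' = P` is an integer with `|α k'|^2 = 1`: `α k' = ε = ± 1`.
So `s k i = ε p [i = k']`.  `weil` for `w = 1`, `i = j = k`: `∑ l, t l ^ 1.val * (s k l * s l k) = t k' ^ 1.val * p^2 ≠ 0` (`s_symm`), so the right side `p * (t k ^ (-1).val * t k ^ (-1).val) * s k (pi 1 k)` is not `0`; `pi 1 k = k`: `s k k ≠ 0`, so `k' = k`, `s k k = ε p`,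
and `t k ^ 1.val = ε * (t k ^ (-1).val)^2` (values in `ZMod (p^1)`: `1.val = 1`, `(-1).val = p - 1`).  With `t k ^ p = 1`: `t k ^ 3 = ε`, so `t k ^ 6 = 1`, and `gcd (6, p) = 1` as `p ≥ 5`: `t k = 1`, `ε = 1`. -/
def StDZ : Prop := ∀ (I : Type) [Fintype I] [DecidableEq I] (p : ℕ) (X : PD I p 1), 5 ≤ p →
  ∀ k, p ∣ X.d k → X.t k = 1 ∧ ∀ i, X.s k i = if i = k then (p : ℂ) else 0

/-- **AL MODULE CG.**  The congruence modulo `p`.
PROOF.  `O = Orb X i`, `r = |O|`.  TS2 (1) for `k = i`: `E l = g [l ∈ O] + r (y i) [l = o]` satisfies `∑ l, s j l * E l = p * E j`.  LKN (third part): `Sf v k = ∑ j, z' v j * s j k`, `z'` integral.  So for every `v`: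
`g ∑_{k ∈ O} Sf v k + r (y i) Sf v o = ∑ k, Sf v k * E k = ∑ j, z' v j * p * E j = p * β v`, `β v` integral; `Sf v o = d v` (GLA).
Let `v ∈ {l, o}`.  Claim `∑_{k ∈ O} Sf v k = r * Sf v i`: if `pi c i = i` for all `c` then `O = {i}`; if `pi c l = l` for all `c`: every `k ∈ O` is `pi c i`, and `Sf v (pi c i) = Sf (pi c v) i = Sf v i` for `v = l` and for `v = o`:
by `Lq.pi` there is a unit `u` with `G u i k = [k = pi c i]`; `Dg u * Sm = Sm * Dg u⁻¹` (see FCA `perm`; the `π` there is `pi c`) gives `S (pi c v) k = S v (pi c k)`.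
So `g r (Sf l i) + r (y i) (d l) = p β l` and `g r (d i) + r (y i) = p β o`.  Multiply the second by `d l` and subtract: `g r (Sf l i - d l d i) = p β'`.  `g` is an integer with `2 ≤ g ≤ p - 1` (MZZ: `g ≥ 2`, `y o ≥ 1`), `r` divides `p - 1` (ORB `card`):
`g r` is prime to `p`: `u g r + v p = 1`.  `Sf l i - d l d i` is integral (`Sf l i = d l * Cchi l i`).  `Sf` symmetric. -/
def StCG : Prop := StTS2 → StORB → StGLA → StLKN → StFCA →
  ∀ (I : Type) [Fintype I] [DecidableEq I] (Z : CentreData I) (p : ℕ) [NeZero p] (b : ZMod Z.L)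
  (X : PD I p 1) (Q : ℂ → Prop), Lq Z b X → Blk X Q → ∀ i ∈ Ks X, ∀ l : I,
  ((∀ c, X.pi c i = i) ∨ (∀ c, X.pi c l = l)) →
  ∃ β : ℂ, IsIntegral ℤ β ∧ Sf Z i l - (Z.d i : ℂ) * Z.d l = (p : ℂ) * β

/-- **AL MODULE RBE.**  The rank bound with its defect (this is what the proof of OC MODULE RB shows; `Helper60` has proved RB in
`Pool/Agent/Helper60/OC/M_RB.lean`).
PROOF.  See the docstring of `StRB` in `Pool/Agent/Helper89/OC/St2.lean`: with `R = ∑_{Ks} (1 - 1/r k)`, `E = {b | y b ≠ 0, t b ≠ 1}`: `(p-1)(p R + p + 1) = ∑_{k ∈ B1} ∑_{t b ≠ 1} |s b k|^2 ≤ ∑_{b ∈ E} (2 p - (p-1)(y b)^2/g) = 2 p |E| - (p-1)^2`,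
as `∑_{b ∈ E} (y b)^2 = (p-1) g`. -/
def StRBE : Prop := StIB → StTS2 → StORB → StE3 → StE2 → StE4 → ∀ (I : Type) [Fintype I]
  [DecidableEq I] (p : ℕ) [NeZero p] (X : PD I p 1) (Q : ℂ → Prop), Blk X Q →
  ((p : ℝ) - 1) * (p * (∑ k ∈ Ks X, (1 - 1 / ((Orb X k).card : ℝ))) + p + 1) +
    ((p : ℝ) - 1) ^ 2 ≤ 2 * p * (open Classical in
      (Finset.univ.filter fun b => X.y b ≠ 0 ∧ X.t b ≠ 1).card : ℝ)

/-- **AL MODULE EQY.**  Equality in the rank bound.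
PROOF.  `Orb a`, `Orb w` are disjoint subsets of `Ks` with `g` elements (`w ∉ Orb a`; ORB `eq`), every element of them has `|Orb| = g`, so `R ≥ 2 g (1 - 1/g) = 2 g - 2` (other terms `≥ 0`, `|Orb| ≥ 1`).  RBE: `(p-1)(p (2g-2) + p + 1) + (p-1)^2 = 2 p g (p-1) ≤ 2 p |E|`, so
`|E| ≥ (p-1) g`.  `∑_{b ∈ E} (y b)^2 = p^2 - (p + (p-1) x) = (p-1) g` (MZZ, `∑ y^2 = p^2`), every term is `≥ 1`: so `(y b)^2 = 1` for all `b ∈ E`.
DRE (2): `g d b = E0 y b`, `E0 = p z o - 1 ≠ 0`.  So `y b = e := sign E0`, and `d b = A := |E0| / g` (the same for all `b ∈ E`; `E` is not empty, MZZ (3)).  `g A = |E0|`.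
`d a = A`: DRE (3): `∑_{t k = 1} y k d k = p z o + p - 1`; the terms with `y k = 0` vanish, the term of `o` is `x`; so `∑_{Ks} y d = p z o + p - 1 - x = E0 + g`.  `Ks` is the disjoint union of `Orb a` and `Kp X a`, `Gam.dm`: `∑_{Kp} y d = g`, so `∑_{Orb a} y d = E0`, i.e.
`g (y a)(d a) = E0` (ORB `y`, `d`), `(y a)^2 = 1`: `d a = |E0| / g = A`.
`1 < A`: `A ≥ 1`; if `A = 1` then `g = |p z o - 1|`, so `p` divides `g + 1` or `g - 1`, but `1 ≤ g - 1`, `g + 1 < p` as `p - 1 = N g ≥ 3 g`, `g ≥ 2`.  `¬ p ∣ A`: `Blk.d_nd` for `a`. -/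
def StEQY : Prop := StRBE → StIB → StTS2 → StORB → StE3 → StE2 → StE4 →
  ∀ (I : Type) [Fintype I] [DecidableEq I] (p : ℕ) [NeZero p] (X : PD I p 1) (Q : ℂ → Prop)
  (N : ℕ) (a w : I), Gam X Q N a → w ∈ Kp X a → ((Orb X w).card : ℤ) = gX X →
  ∃ (e : ℤ) (A : ℕ), e ^ 2 = 1 ∧ (∀ j, X.y j ≠ 0 → X.t j ≠ 1 → X.y j = e ∧ X.d j = A) ∧
    X.d a = A ∧ 1 < A ∧ ¬ p ∣ A

/-- **AL MODULE ETA.**  Integrality of `zz j j' / d j'`.
PROOF.  `p ∤ d j'` (DZ: otherwise `t j' = 1`).  `S = rho Sm`, `R = rho (s2 (1-b))`, `S_b = rho (s2 b)`: `R * S_b = S` (FCA `Sm_eq`, `b * b = b`: `Lk.idp.idem`), `S_b` symmetric and unitary so `S_b * conj S_b = 1` (entrywise conjugate), `R = S * conj S_b`,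
`R j' j = ∑ k, S j' k * conj (S_b k j)`; multiply by `n p`: `n p R j' j = ∑ k, Sf j' k * conj (s k j) = d j' * ∑ k, Cchi j' k * conj (s k j)` (GLA `Sf_chi`, `chi_int`; `s_int`, the conjugate of an integral number is integral).  `n = p m` (`Lk.n_eq`), `R` symmetric:
`p^2 * zz j j' = d j' * (integral)`, and `zz j j'` is integral (ENT with `q = m`, `Y = X.z`, `Lk.z`).  `p^2` and `d j'` are coprime: Bezout. -/
def StETA : Prop := StDZ → StGLA → StFCA → ∀ (I : Type) [Fintype I] [DecidableEq I]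
  (Z : CentreData I) (p : ℕ) (b : ZMod Z.L) (X : PD I p 1), Lq Z b X → 5 ≤ p →
  ∀ j j' : I, X.t j' ≠ 1 → ¬ p ∣ Z.d j' ∧ IsIntegral ℤ (zz Z b X j j' / Z.d j')

open Classical in
/-- **AL MODULE SRU.**  Sum rules.
PROOF.  `R = rho (s2 (1-b))`, `S_b = rho (s2 b)`.  (0) `U b * s2 (1-b) = s2 (1-b) * U b` (GRP or FCA `supp`).  (1) LKN: `Sf j' k = ∑ j, z' j' j * s j k` for some `z'`; better directly: `n S j' o = ∑ j, (m R j' j) * (p S_b j o)` (FCA `Sm_eq`), i.e. `d j' = ∑ j, zz j' j * y j`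
(`Lk.s`, `X.s_o`, `Lk.n_eq`, `s_o`); `zz` is symmetric, and `zz j j' ≠ 0` implies `t j = t j'` by (0).  (2) `R` is unitary: `∑ j', |R j j'|^2 = 1`; with (0) only `j'` with `t j' = t j` contribute.
(3) `n^2 * ∑_{t k = ζ} |S k o|^2 = ∑_{t k = ζ} (d k)^2`.  `S e_o = R (S_b e_o)`; `R` commutes with the projection `P` to `t = ζ`, so `P S e_o = R (P S_b e_o)`, and `R` is unitary (FCA `uni`): `∑_{t = ζ} (d k / n)^2 = ∑_{t = ζ} (y k / p)^2 = g / p^2` (MZZ (1)), `n = p m`. -/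
def StSRU : Prop := StFCA → ∀ (I : Type) [Fintype I] [DecidableEq I] (Z : CentreData I) (p : ℕ)
  (b : ZMod Z.L) (X : PD I p 1), Lq Z b X →
  (∀ j k, zz Z b X j k = zz Z b X k j) ∧ (∀ j k, zz Z b X j k ≠ 0 → X.t j = X.t k) ∧
  (∀ j', ∑ j, zz Z b X j j' * X.y j = Z.d j') ∧
  (∀ j, ∑ j', ‖zz Z b X j j'‖ ^ 2 = (X.m : ℝ) ^ 2) ∧
  ∀ ζ : ℂ, ζ ≠ 1 → ζ ^ p = 1 →
    (∑ j, if X.t j = ζ then (Z.d j : ℝ) ^ 2 else 0) = (X.m : ℝ) ^ 2 * (gX X : ℝ)

/-- **AL MODULE GAZ.**  Galois action on `zz`.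
PROOF.  `R = rho (s2 (1-b))`, `zz = m R`.  `G (x x') = G x * G x'` gives `π (x x') i = π x' (π x i)`.
(a) `galois σ` gives a unit `c`; with `g = s2 (1-b) = (b, -(1-b); 1-b, b)` (`b * b = b`), `x1 = b + c⁻¹ (1-b)` (a unit, inverse `b + c (1-b)`; `(x1 - 1) b = 0`), `g' = g * Dg x1 = (b, -c (1-b); c⁻¹ (1-b), b)`: `σ (R i k) = rho g' i k = ∑ l, R i l * G x1 l k = R i (π x1⁻¹ k)`
(`k = π x1 l` iff `l = π x1⁻¹ k`).  So `x = x1⁻¹`.  (b) AUT (`Helper90.OS.hAUT`) for `c = x`: with the same `g`, `g'`: now `x1⁻¹ = b + x (1-b) = x - (x - 1) b = x`. -/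
def StGAZ : Prop := ∀ (I : Type) [Fintype I] [DecidableEq I] (Z : CentreData I) (p : ℕ)
  (b : ZMod Z.L) (X : PD I p 1), Lq Z b X →
  ∀ π : (ZMod Z.L)ˣ → I → I, (∀ x i k, Z.rho (Dg x) i k = if k = π x i then 1 else 0) →
  (∀ σ : ℂ ≃+* ℂ, ∃ x : (ZMod Z.L)ˣ, Tr Z b x ∧ ∀ i k, σ (zz Z b X i k) = zz Z b X i (π x k)) ∧
  ∀ x : (ZMod Z.L)ˣ, Tr Z b x → ∃ σ : ℂ ≃+* ℂ, ∀ i k, σ (zz Z b X i k) = zz Z b X i (π x k)

/-- **AL MODULE UNQ.**  The local unit.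
PROOF.  Let `ζ = t j' ≠ 1` (`ζ ^ p = 1`), `V = {k | t k = ζ}`, `B = {j ∈ V | y j ≠ 0}`; `y j = e` on `B`.  Apply the theorem `Pool.Agent.Helper4.SQ.local_units` (file `Pool/Agent/Helper4/SQ/M_LUN.lean`) to `J = B`, `K = V` (subtypes), the group `G = {x : (ZMod L)ˣ | (x - 1) b = 0}` (a subgroup) acting on `V` by the
permutations `π x` of FCA `perm` (`π x' (π x i) = π (x x') i`; `t (π x k) = t k`, `t = tw b`), `w k = (d k)^2` (`d (π x k) = d k`), `η j k = zz j k / d k` (integral: ETA; Galois: GAZ, `σ` fixes the natural number `d k = d (π x k)`), `e`.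
`hsum`: SRU (3rd claim): `∑ j, zz j k * y j = d k`, and the terms with `y j = 0` or `t j ≠ ζ` vanish, so `∑_{j ∈ B} zz j k * e = d k`, `e^2 = 1`.  `hsq`: `∑_{k ∈ V} (d k)^2 ∑_{j ∈ B} |zz j k|^2 / (d k)^2 = ∑_{j ∈ B} ∑_k |zz j k|^2 = |B| m^2`, `|B| = ∑_{t j = ζ} (y j)^2 = g` (MZZ), and
`∑_{k ∈ V} (d k)^2 = m^2 g` (SRU, last claim).  The conclusion for `k = j'` is the claim (`zz k j' ≠ 0` implies `t k = t j'`). -/
def StUNQ : Prop := StGAZ → StSRU → StETA → StDZ → StGLA → StFCA → ∀ (I : Type) [Fintype I]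
  [DecidableEq I] (Z : CentreData I) (p : ℕ) (b : ZMod Z.L) (X : PD I p 1) (e : ℤ), Lq Z b X →
  5 ≤ p → e ^ 2 = 1 → (∀ j, X.y j ≠ 0 → X.t j ≠ 1 → X.y j = e) → ∀ j', X.t j' ≠ 1 →
  ∃ j, X.y j ≠ 0 ∧ X.t j = X.t j' ∧ zz Z b X j j' ≠ 0 ∧
    ∀ k, X.y k ≠ 0 → zz Z b X k j' ≠ 0 → k = j

/-- **AL MODULE LU.**  The torus away from `p` acts trivially on `{y ≠ 0, t ≠ 1}`.
PROOF.  `R = rho (s2 (1-b))`, `T = {x : (ZMod L)ˣ | (x - 1) b = 0}` (a subgroup), `π x` the permutation of FCA `perm` (`G x i k = [k = π x i]`).  For `x ∈ T`: `Dg x * s2 b = s2 b * Dg x`, so (entry `(i, o)`, `borel`) `y (π x i) = y i`, `t (π x i) = t i`.  For `y j ≠ 0`: `tw (z * (1-b)) j = 1` for every `z` (`U (z (1-b))` commutes with `s2 b` and fixes `e_o`; FUS `tw z o = 1`).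
Relation in `SL L` for a unit `x` with `(x - 1) b = 0` (2x2, `b * b = b`; or GRP (7) for the idempotent `1 - b`): `s2 (1-b) * U (x (1-b)) * s2 (1-b) = U (-(x⁻¹ (1-b))) * s2 (1-b) * Dg x * U (-(x⁻¹ (1-b)))`.
Entry `(j1, j2)` with `y j1, y j2 ≠ 0`, `t j2 = ζ ≠ 1`, `j1 ≠ j2`: the left side is `∑ k, R j1 k * tw (x (1-b)) k * R k j2`; if a term is not `0` then `zz j1 k ≠ 0`, `zz j2 k ≠ 0`, `t k = ζ` (SRU), so `j1 = j2` (UNQ): so it is `0`.  The right side is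
`(R * G x) j1 j2 = R j1 (π x⁻¹ j2)`.  So: (*) for `x ∈ T`, `y j1, y j2 ≠ 0`, `t j2 ≠ 1`, `j1 ≠ j2`: `zz j1 (π x j2) = 0`.
Let `j` with `y j ≠ 0`, `t j ≠ 1`, `x ∈ T`, `k = π x j`; `y k ≠ 0`, `t k = t j`.  UNQ for `j' = k`: some `j1` with `y j1 ≠ 0`, `zz j1 k ≠ 0`.  (*) with `j2 = j`: `j1 = j`.  (*) with `x = 1`, `j2 = k`: `j1 = k`.  So `π x j = j`. -/
def StLU : Prop := StUNQ → StGAZ → StSRU → StETA → StDZ → StGLA → StFCA → ∀ (I : Type)
  [Fintype I] [DecidableEq I] (Z : CentreData I) (p : ℕ) (b : ZMod Z.L) (X : PD I p 1) (e : ℤ),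
  Lq Z b X → 5 ≤ p → e ^ 2 = 1 → (∀ j, X.y j ≠ 0 → X.t j ≠ 1 → X.y j = e) →
  ∀ x : (ZMod Z.L)ˣ, Tr Z b x → ∀ j, X.y j ≠ 0 → X.t j ≠ 1 → Z.rho (Dg x) j j = 1

/-- **AL MODULE TF.**  The torus away from `p` acts trivially on the orbits with at least two elements in `Ks`.
PROOF.  `π = π x` (FCA `perm`), `M = rho (Dg x)`: `(M v) j = v (π j)`.  `M` commutes with `S_b = rho (s2 b)`, `y (π j) = y j`, `t (π j) = t j`; and `π` commutes with all `X.pi c` (`Lq.pi`: `X.pi c` is the permutation of a unit `u`, `Dg (x u) = Dg (u x)`).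
`δ = M e_i - e_i`.  `δ` is supported on `t = 1`.  Let `t j ≠ 1`: if `y j = 0` then `(S_b e_i) j = 0` and `(S_b e_i) (π j) = 0` (`Blk.sup`; `y i ≠ 0`); if `y j ≠ 0` then `π j = j` (LU; `M j j = 1`).  So in both cases
`(S_b δ) j = (M S_b e_i) j - (S_b e_i) j = (S_b e_i) (π j) - (S_b e_i) j = 0`.  FCB `of`: `S_b δ = δ`, i.e. `∑ k, s j k * δ k = p * δ j`.
`δ` is invariant under `X.pi w`: by `weil`, `∑_j (∑_k t k ^ w.val * (s i0 k * s k j)) * δ j = ∑_k t k ^ w.val * s i0 k * p δ k = p^2 δ i0` (`t k = 1` if `δ k ≠ 0`), and it is `p * ∑_j (t i0 ^ .. * t j ^ ..) * s i0 (pi w⁻¹ j) * δ j = p * t i0 ^ .. * ∑_j s i0 j * δ (pi w j)`.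
For `t i0 = 1`: `∑_j s i0 j δ (pi w j) = p δ i0`; for `t i0 ≠ 1`: `δ i0 = 0`, so the sum is `0 = p δ i0` too.  As `∑_j s i0 j δ j = p δ i0` and `s` is invertible (`s_uni`), `δ (pi w j) = δ j`.
Let `i1 = π⁻¹ i`: `δ = e_i1 - e_i`.  Suppose `i1 ≠ i`; then `δ i = -1`, so `δ = -1` on all of `Orb i`, which has at least two elements, but `δ` has only one negative entry: contradiction.  So `π i = i`. -/
def StTF : Prop := StLU → StUNQ → StGAZ → StSRU → StETA → StDZ → StGLA → StFCA → StFCB →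
  StORB → ∀ (I : Type) [Fintype I] [DecidableEq I] (Z : CentreData I) (p : ℕ) [NeZero p]
  (b : ZMod Z.L) (X : PD I p 1) (Q : ℂ → Prop) (e : ℤ), Lq Z b X → Blk X Q → 5 ≤ p → e ^ 2 = 1 →
  (∀ j, X.y j ≠ 0 → X.t j ≠ 1 → X.y j = e) → ∀ x : (ZMod Z.L)ˣ, Tr Z b x →
  ∀ i ∈ Ks X, 2 ≤ (Orb X i).card → Z.rho (Dg x) i i = 1

/-- **AL MODULE G2T.**  An invertible object of twist `1` generates a Tannakian subcategory.
PROOF.  `x ≠ o`, `d x = 1`, `th x = 1`.  GLC `twist` for `i = k = x`: `Sf x x * (th x * th x) = ∑ l, N x (st x) l * (th l * d l)`; by GLB `N_o` `N x (st x) o = 1` and by `dim` `∑ l, N x (st x) l * d l = d x * d (st x) = 1` (DUA), so only `l = o` contributes and `Sf x x = 1`.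
`D1 j : Cchi Z x j = d j`; `D2 j : ∀ i, D1 i → Cchi Z i j = d j`; `D j := D1 j ∧ D2 j`.  `D x`: `Sf x x = d x * Cchi x x` (GLA): `Cchi x x = 1`; `D2 x`: for `D1 i`: `Sf x i = d x * Cchi x i = d x * d i`, `Sf i x = Sf x i`, so `Cchi i x = d x`.
`D` is closed under `st` (`chi_st`, `d (st i) = d i`), products (`clos`), contains `o` (`chi_o`).  `symm`: `D x', D y'`: `Cchi x' y' = d y'` (`D1 x'`, `D2 y'`), `Sf x' y' = d x' * d y'`.  `twist`: GLC `self`. -/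
def StG2T : Prop := StGLA → StGLB → StGLC → ∀ (I : Type) [Fintype I] [DecidableEq I]
  (Z : CentreData I), Odd Z.n → Goal2 Z → ∃ D : I → Prop, TanSet Z D

end Pool.Agent.Helper79.AL
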