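import Pool.Agent.Helper79.AL.St1

/-!
# Project AL (MP_2b6189_al), part 2: two primes; the pair lemma

See the header of `St1`.  `p ≠ q` primes, `b`, `b'` their idempotents (`b * b' = 0`), `X`, `X'` the local data (`X.t = tw b`, `X'.t = tw b'`),
`S_b = rho (s2 b)`, `S_b' = rho (s2 b')`.
-/

set_option autoImplicit false

namespace Pool.Agent.Helper79.AL

open Matrix ComplexConjugate Pool.Agent.Helper94.YG
open Pool.Agent.Helper94.YF hiding StORB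
open Pool.Agent.Helper89.OS Pool.Agent.Helper89.OC

/-- **AL MODULE ORT.**  Idempotents of different primes are orthogonal (pure).
PROOF.  `x = b * b'` satisfies `p x = 0` and `q x = 0` (`Idp.ann`, `a = 1`), `u p + v q = 1` in integers.  Second part: `(u - 1) b = (u - 1) b (1 - b') + (u - 1) b b' = 0`, as `b b' = 0` and `(u - 1)(1 - b') = 0`. -/
def StORT : Prop := ∀ (L p q : ℕ) (b b' : ZMod L), p.Prime → q.Prime → p ≠ q → Idp L p 1 b →
  Idp L q 1 b' → b * b' = 0 ∧ ∀ u : ZMod L, (u - 1) * (1 - b') = 0 → (u - 1) * b = 0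

/-- **AL MODULE VPF.**  `v_p` is fixed by `SL2(q)` if all `e_j`, `y j ≠ 0`, `t j ≠ 1`, are.
PROOF.  Let `w k = y k` if `t k ≠ 1`, else `0` (complex).  FCB `sum`: `Fx Z b' w`.  `v = vp X` (complex valued).  (1) `S_b v = -(1/p) v + ((p+1)/p) w`: HEC for `f = e_o` (`∑ i, s k i * f i = y k`): `∑_{t k = 1} s j k * y k = p [j = o] + ((if t j = 1 then p else 0) - 1) y j`,
`∑ k, s j k * p [k = o] = p y j`; so `∑ k, s j k * v k = p y j - p [j = o] - ((if ..) - 1) y j`, which is `- v j` for `t j = 1` (`= y j - p [j = o]`) and `(p + 1) y j` for `t j ≠ 1` (`j ≠ o`); divide by `p` (`s = p S_b`, `Lk.s`).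
(2) `δ = S_b' v - v`.  `S_b` and `S_b'` commute (FCA `com`): `S_b δ = (S_b' - 1) S_b v = -(1/p) δ + ((p+1)/p) (S_b' w - w) = -(1/p) δ`.  FCA `uni`: `∑ |δ|^2 = ∑ |S_b δ|^2 = (1/p^2) ∑ |δ|^2`, so `δ = 0`.
(3) `δ k = (tw b' k - 1) v k`.  Multiplication by `tw b'` commutes with `S_b` (FCA `supp`), and `(tw b' k - 1) w k = 0` (`Fx Z b' w`).  So again `S_b δ = -(1/p) δ`, `δ = 0`: `v k ≠ 0` implies `tw b' k = 1`. -/
def StVPF : Prop := StFCA → StFCB → ∀ (I : Type) [Fintype I] [DecidableEq I] (Z : CentreData I)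
  (p : ℕ) (b b' : ZMod Z.L) (X : PD I p 1), Lk Z b X → b' * b' = b' → b * b' = 0 →
  (∀ j, X.y j ≠ 0 → X.t j ≠ 1 → Fx Z b' (ev j)) → Fx Z b' (fun k => (vp X k : ℂ))

/-- **AL MODULE VPT.**  If `v_p` is fixed by `SL2(q)` then `p` and `q` are not adjacent.
PROOF.  `v = vp X`, `u = S v` (`S = rho Sm`): `Fx Z b' u` (FCB `Sm`), so `tw b' l = 1` if `u l ≠ 0`.  Let `t l ≠ 1`.  `S = R S_b`, `R = rho (s2 (1-b))` (FCA `Sm_eq`).  `S_b v = -(1/p) v + ((p+1)/p) w` (see VPF (1)).  `R` commutes with multiplication by functions of `t = tw b`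
(FCA `supp`), `v` is supported on `t = 1`, so `(R v) l = 0`; `w = y - (y on t = 1)`, so `(R w) l = (R y) l = p (R S_b e_o) l = p S l o = p d l / n` (`y k = p S_b k o`; `s_o`, `s_symm`).  So `u l = (p + 1) d l / n ≠ 0`. -/
def StVPT : Prop := StFCA → StFCB → ∀ (I : Type) [Fintype I] [DecidableEq I] (Z : CentreData I)
  (p : ℕ) (b b' : ZMod Z.L) (X : PD I p 1), Lk Z b X → b' * b' = b' → b * b' = 0 →
  Fx Z b' (fun k => (vp X k : ℂ)) → ∀ l, X.t l ≠ 1 → Z.tw b' l = 1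

/-- **AL MODULE NAJ.**  Not adjacent: all `e_j`, `t j ≠ 1`, are fixed by `SL2(q)`, and `q ∣ d j`.
PROOF.  `Fx Z b' (ev j)` for `t j ≠ 1`: `tw b' j = 1` by hypothesis; if `(S_b' ev j) k = S_b' k j ≠ 0` then `tw b k = tw b j ≠ 1` (FCA `supp`), so `tw b' k = 1`: FCB `of`.  Then `∑ l, S_b' i l * (ev j) l = ev j i`, so (`X'.s = q S_b'`) `∑ l, X'.s i l * (ev j) l = q * ev j i`; LKN (third part, for `X'`):
`Sf o j = ∑ k, z' o k * X'.s k j = q z' o j` with `z'` integral; `Sf o j = d j` (GLA `Sf_o`, `Sf_symm`).  `d j / q` is rational and integral: an integer (RAT). -/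
def StNAJ : Prop := StFCA → StFCB → StGLA → StLKN → ∀ (I : Type) [Fintype I] [DecidableEq I]
  (Z : CentreData I) (q : ℕ) (b b' : ZMod Z.L) (X' : PD I q 1), Lk Z b' X' → b * b = b →
  b * b' = 0 → (∀ l, Z.tw b l ≠ 1 → Z.tw b' l = 1) → ∀ j, Z.tw b j ≠ 1 →
  Fx Z b' (ev j) ∧ q ∣ Z.d j

/-- **AL MODULE NDW.**  Adjacent: `q` does not divide `d w`.
PROOF.  Suppose `q ∣ d w`.  Every `i ∈ Orb X w` has `d i = d w` (ORB `d`).  DZ for `X'`: `X'.t i = 1`, `X'.s i k = q [k = i]`.  Field `tor` of `X'` for `E = ev i` (`∑ k, X'.s j k * E k = X'.s j i = X'.s i j = q E j`): `chi l i = 0` for `X'.t l ≠ 1`.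
Take `l` with `X.t l ≠ 1`, `X'.t l ≠ 1`: TS2 (2) for `X`: `g * ∑_{i ∈ Orb w} chi l i = -(|Orb w| * y w)`: the left side is `0` (`X.chi = Cchi Z = X'.chi`), the right side is not (`w ∈ Ks X`, `|Orb w| ≥ 1`). -/
def StNDW : Prop := StDZ → StTS2 → Helper89.OC.StORB → ∀ (I : Type) [Fintype I] [DecidableEq I]
  (Z : CentreData I) (p q : ℕ) [NeZero p] (b b' : ZMod Z.L) (X : PD I p 1) (X' : PD I q 1)
  (Q : ℂ → Prop), Lk Z b X → Lk Z b' X' → Blk X Q → 5 ≤ q →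
  (∃ l, X.t l ≠ 1 ∧ X'.t l ≠ 1) → ∀ w ∈ Ks X, ¬ q ∣ Z.d w

/-- **AL MODULE ADJ.**  Adjacency.
PROOF.  `X.t = tw b`, `X'.t = tw b'` (`Lk.t`).  (1) If `q ∣ A`: for `y j ≠ 0`, `t j ≠ 1`: `d j = A`, DZ for `X'` gives `X'.t j = 1`, `X'.s j k = q [k = j]`, i.e. `Fx Z b' (ev j)`; VPF, VPT.  (2) NAJ gives `Fx Z b' (ev j)` for `t j ≠ 1`, so VPF gives the second claim, and `q ∣ d j = A` for one `j` with
`y j ≠ 0`, `t j ≠ 1` (field `ex` of `X`, `p ^ (1-1) = 1`). -/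
def StADJ : Prop := StDZ → StVPF → StVPT → StNAJ → StFCA → StFCB → StGLA → StLKN →
  ∀ (I : Type) [Fintype I] [DecidableEq I] (Z : CentreData I) (p q : ℕ) (b b' : ZMod Z.L)
  (X : PD I p 1) (X' : PD I q 1) (A : ℕ), Lk Z b X → Lk Z b' X' → b * b' = 0 → 5 ≤ q →
  (∀ j, X.y j ≠ 0 → X.t j ≠ 1 → X.d j = A) →
  (q ∣ A → ∀ l, X.t l ≠ 1 → X'.t l = 1) ∧
  ((∀ l, X.t l ≠ 1 → X'.t l = 1) → q ∣ A ∧ Fx Z b' (fun k => (vp X k : ℂ)))

/-- **AL MODULE TOU.**  The tournament.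
PROOF.  `v = vp X`, `v' = vp X'`, integer vectors; `g = p - x = gX X`, `g' = gX X'`.
(1) `∑ k, v k * v' k = 0`: `∑ k, X'.s j k * v k = q v j` (`Fx Z b' v`, `X'.s = q S_b'`), `v k = 0` if `X'.t k ≠ 1`; for `X'.t k = 1`: `∑ j, X'.s k j * v' j = - v' k` (VPF (1) for `X'`).  So `q ∑ v v' = ∑ k, ∑ j, X'.s k j * v k * v' j = ∑ k, v k * (- v' k)`, `(q + 1) ∑ v v' = 0`.
(2) `v o = p - x = g`, `v' o = g'`, and for `k ≠ o`: `v k = - y k` if `t k = 1`, else `0`.  If `y k ≠ 0` and `y' k ≠ 0` then `tw b k = 1`: `y' k ≠ 0` implies `tw (1-b') k = 1` (`U (1-b')` commutes with `s2 b'`; see OS XA `th_of`), and `tw b k = tw (1-b') k ^ ..`: easier: `U b` commutes with `s2 b'` (FCA `supp` for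
`S_b' k o ≠ 0`: `tw b k = tw b o = 1`).  In the same way `tw b' k = 1`.  So `0 = g g' + ∑_{k ≠ o} y k * y' k`.
(3) Suppose that some `i0 ∈ Orb X w` has `y' i0 = 0` and some `i1 ∈ Orb X' w'` has `y i1 = 0`.  Then `y' = 0` on `Orb X w`, as `y' (X.pi c i) = y' i` (`Lq.pi`: `X.pi c` is the permutation of a unit `u` with `(u - 1)(1 - b) = 0`, so `(u - 1) b' = 0` (ORT-like: `(u - 1) b' = (u-1)(1-b) b' + (u-1) b b' = 0`);
FCA `perm` for `c = b'`, `k = o`).  In the same way `y = 0` on `Orb X' w'`.  Let `k ≠ o`, `y k ≠ 0`, `y' k ≠ 0` (so `k ∈ Ks X`, `k ∈ Ks X'`).  `k ∉ Orb X a`: there `d k = d a = A`, `q ∣ A`, but `q ∤ d k` (`Blk.d_nd` for `X'`).  `k ∉ Orb X' a'` in the same way.  `k ∉ Orb X w`, `∉ Orb X' w'`.  So `sng`: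
`|Orb X k| = 1`, `|Orb X' k| = 1`, and `g ∣ y k`, `g' ∣ y' k` (`Helper45.OS.hTSU`, second part: `g ∣ |Orb| * y k`).  So `y k * y' k = g g' c k`, `c k` an integer, and (2) gives `∑_{k ∈ M} c k = -1`, `M = {k ≠ o | y k ≠ 0, y' k ≠ 0}`.  `st` is an involution of `M` without fixed points (`nsd`, `st_o`, `y_st`) and
`c (st k) = c k`, so the sum is even (`Finset.sum_involution` in `ZMod 2`, see the use in `Pool/Agent/Helper94/OT/Cmb.lean`): contradiction. -/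
def StTOU : Prop := StFCA → StFCB → Helper89.OC.StORB → ∀ (I : Type) [Fintype I] [DecidableEq I]
  (Z : CentreData I) (p q : ℕ) [NeZero p] [NeZero q] (b b' : ZMod Z.L) (X : PD I p 1)
  (X' : PD I q 1) (Q Q' : ℂ → Prop) (N N' : ℕ) (a w a' w' : I) (e e' : ℤ) (A A' : ℕ),
  Gh Z b X Q N a w e A → Gh Z b' X' Q' N' a' w' e' A' → b * b' = 0 → q ∣ A → p ∣ A' →
  Fx Z b' (fun k => (vp X k : ℂ)) →
  (∀ i ∈ Orb X w, X'.y i ≠ 0) ∨ (∀ i ∈ Orb X' w', X.y i ≠ 0)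

/-- **AL MODULE PR.**  The pair lemma.
PROOF.  `γ = Sf Z i l - d i * d l` is integral (GLA: `Sf = d i * Cchi i l`).  `M = ∏_{t ∈ T} t`; the primes `t ∈ T` are pairwise coprime and `γ / t` is integral for every `t ∈ T`, so `γ / M` is integral (induction over finite sets: `u M' + v t = 1`, `γ / (M' t) = u γ / t + v γ / M'`).  For every automorphism `σ`: `|σ γ| ≤ 2 d i d l`
(GLA `bound` and `Sf_chi`: `|σ (Sf i l)| = d i |σ (Cchi i l)| ≤ d i d l`), so `|σ (γ / M)| ≤ 2 d i d l / M < 1`.  KRO: `γ = 0`. -/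
def StPR : Prop := StKRO → StGLA → ∀ (I : Type) [Fintype I] [DecidableEq I] (Z : CentreData I)
  (i l : I) (T : Finset ℕ), (∀ t ∈ T, t.Prime) →
  (∀ t ∈ T, ∃ β : ℂ, IsIntegral ℤ β ∧ Sf Z i l - (Z.d i : ℂ) * Z.d l = (t : ℂ) * β) →
  2 * (Z.d i : ℝ) * Z.d l < ((∏ t ∈ T, t : ℕ) : ℝ) → Sf Z i l = (Z.d i : ℂ) * Z.d l

end Pool.Agent.Helper79.AL
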