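import Pool.Agent.Helper79.AL.St2

/-!
# Project AL (MP_2b6189_al), part 3: centralisers (Muger), the principal block of a product

See the header of `St1`.  `Sf Z i k = n S i k = d i * Cchi i k`.
-/

set_option autoImplicit false

namespace Pool.Agent.Helper79.AL

open Matrix ComplexConjugate Pool.Agent.Helper94.YG
open Pool.Agent.Helper94.YF hiding StORB
open Pool.Agent.Helper89.OS Pool.Agent.Helper89.OC

/-- **AL MODULE CEF.**  Centralisers are fusion subsets.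
PROOF.  `Sf i j = d i * Cchi i j` (GLA), `d i > 0`: so `Ce Z E j ↔ ∀ i, E i → Cchi Z i j = d j`.  Contains `o` (`chi_o`, `d_o`), closed under `st` (`chi_st`, `d (st j) = d j`: DUA) and constituents of products (`clos`).
Last part: `D x := D1 x ∧ D2 x` is a `TanSet` if it contains some `x ≠ o`: it is a fusion subset; `symm`: `D1 x`, `D2 y = Ce Z D1 y`: `Sf x y = d x * d y`; `twist`: `Sf x x = (d x)^2`, GLC `self`. -/
def StCEF : Prop := StGLA → StGLB → StGLC → ∀ (I : Type) [Fintype I] [DecidableEq I]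
  (Z : CentreData I) (E : I → Prop), FS Z (Ce Z E) ∧
  (Odd Z.n → (¬ ∃ D : I → Prop, TanSet Z D) → FS Z E → ∀ x, E x → Ce Z E x → x = Z.o)

open Classical in
/-- **AL MODULE DIM.**  The dimension of the centraliser.
PROOF.  (1) For `j`: `∑_{i ∈ D} d i * Sf i j = (∑_{i ∈ D} (d i)^2) * d j` if `Ce Z D j`, else `0`.  First case: `Sf i j = d i d j`.  Second case: `Sf i j = d j * Cchi j i` (`Sf_symm`); there is `l ∈ D` with `Cchi j l ≠ d l`.
`Cchi j l * ∑_{i ∈ D} d i * Cchi j i = ∑_{i ∈ D} d i ∑_v N i l v * Cchi j v` (`chi_mul`) `= ∑_{v ∈ D} (∑_{i ∈ D} d i * N i l v) * Cchi j v` (`N i l v ≠ 0`, `i, l ∈ D` gives `v ∈ D`), and for `v ∈ D`: `∑_{i ∈ D} d i * N i l v = ∑_i d i * N i l v` (`N i l v ≠ 0` gives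
`N v (st l) i ≠ 0`, so `i ∈ D`) `= ∑_i d i * N v (st l) i = d v * d l` (GLB `dim`).  Here `N i l v = N v (st l) i`: GLB `assoc` for `(i, l, v, o)`: `∑_x N i l x * N v o x = ∑_x N i (st v) x * N o (st l) x`; or from `verlinde` and unitarity: `N i l v = ∑_x S i x S l x conj (S v x) / S o x`, and
`conj (S l x) = S (st l) x`, take the complex conjugate.  So `(Cchi j l - d l) * ∑_{i ∈ D} d i * Cchi j i = 0`.
(2) `∑_j d j * ∑_{i ∈ D} d i * Sf i j = (∑_{i ∈ D} (d i)^2) (∑_{j : Ce} (d j)^2)` by (1), and `∑_j d j * Sf i j = n^2 [i = o]` (`S` is unitary, `S o j = d j / n` real), so it is `n^2`. -/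
def StDIM : Prop := StGLA → StGLB → ∀ (I : Type) [Fintype I] [DecidableEq I] (Z : CentreData I)
  (D : I → Prop), FS Z D →
  (∑ i, if D i then (Z.d i : ℤ) ^ 2 else 0) * (∑ j, if Ce Z D j then (Z.d j : ℤ) ^ 2 else 0) =
    (Z.n : ℤ) ^ 2

/-- **AL MODULE SPL.**  The decomposition `Z = D ⊠ Ce D`.
PROOF.  Write `D1 = D`, `D2 = Ce Z D`, fusion subsets (CEF).  `cen`: definition.  For `i, i' ∈ D1`, `j, j' ∈ D2`: GLB `assoc`: `∑_l N i j l * N i' j' l = ∑_l N i (st i') l * N j' (st j) l`; a nonzero term on the right has `l ∈ D1 ∩ D2`, so `l = o`, and GLB `N_o`: it is `[i = i'] * [j' = j]`.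
`(i, j) = (i', j')`: `∑_l (N i j l)^2 = 1`, so there is exactly one `l =: m i j` with `N i j l ≠ 0`, and `N i j l = 1`.  (For other pairs put `m i j = o`.)  Different pairs have different `m`: `inj`.  `d`: GLB `dim`.
`mo`, `om`: `N i o l = [l = i]`: GLB `N_o` and `N i l v = N v (st l) i`, or `dim` and `verlinde` (`S o x * S i x = S o x * ∑ N`); e.g. the proof of NSD in `Pool/Agent/Helper48/OS/M_NSD.lean` has these facts.
`sur`: the elements `m i j` are different, and `∑ (d (m i j))^2 = (∑_{D1} (d i)^2)(∑_{D2} (d j)^2) = n^2 = ∑_V (d V)^2` (DIM; DIM for `D = {o}` or unitarity of `S` at `(o, o)`), and `d > 0`: so every `V` is some `m i j`.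
`tw`: GLC `bal`: `th (m i j) = th i * th j` (`Sf i j = d i d j`, `N i j (m i j) ≠ 0`); `tw z i = th i ^ z.val`.
`chi`: `Cchi k (m i j) = Cchi k i * Cchi k j` for all `k` (`chi_mul` with `N i j l = [l = m i j]`).  `V = m k l`: `Cchi V i = Sf V i / d V = Sf i V / d V = d i * Cchi i V / d V = d i * Cchi i k * Cchi i l / (d k * d l)`, and `Cchi i l = d l` (`i ∈ D1`, `l ∈ D2`), so it is
`Sf i k / d k = Cchi k i`.  In the same way `Cchi V j = Cchi l j`. -/
def StSPL : Prop := StCEF → StDIM → StGLA → StGLB → StGLC → ∀ (I : Type) [Fintype I]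
  [DecidableEq I] (Z : CentreData I) (D : I → Prop), FS Z D →
  (∀ x, D x → Ce Z D x → x = Z.o) → ∃ m : I → I → I, Spl Z D (Ce Z D) m

/-- **AL MODULE YPR.**  The vector `y` on a product.
PROOF.  (1) `f V := Z.rho (Lo b) V o`.  `Lo b * Sm = Sm * U (-b)` (2x2), so `f V = ∑ k, S V k * tw (-b) k * conj (S o k) = (1/n) ∑ k, S V k * tw (-b) k * d k` `= (1/n^2) ∑ k, (d k)^2 * Cchi k V * tw (-b) k` (`n S V k = Sf k V = d k * Cchi k V`).
The map `(k, l) ↦ m k l` is a bijection from `D1 × D2` to `I` (`sur`, `inj`).  So for `i ∈ D1`, `j ∈ D2`: `n^2 f (m i j) = ∑_{k ∈ D1, l ∈ D2} (d k d l)^2 * Cchi k i * Cchi l j * tw (-b) k * tw (-b) l = F1 i * F2 j` (`d`, `chi`, `tw`), `F1 i = ∑_{k ∈ D1} (d k)^2 Cchi k i tw (-b) k`, `F2 j` similar.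
So `f (m i j) * f o = f i * f j` (`m i o = i`, `m o j = j`, `m o o = o`).  (2) `X.t V * X.y V = p * f V` (`s2 b = U (-b) * Lo b * U (-b)`: `S_b V o = tw (-b) V * f V`, `X.y V = X.s V o = p S_b V o`, `X.t = tw b`, `tw b * tw (-b) = 1`; this is in the proof of LKN), `t (m i j) = t i * t j`, `t o = 1`,
`t ≠ 0`: `y (m i j) * y o = y i * y j`.  (3) LKN (first part) for `(i, st j)`: `s i (st j) * (t i * t (st j)) = ∑ l, N i (st (st j)) l * (t l * y l) = t (m i j) * y (m i j)` (`st (st j) = j`), `t (st j) = t j` (`X.t_st`). -/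
def StYPR : Prop := StGLA → StLKN → ∀ (I : Type) [Fintype I] [DecidableEq I] (Z : CentreData I)
  (p : ℕ) (b : ZMod Z.L) (X : PD I p 1) (D1 D2 : I → Prop) (m : I → I → I), Lk Z b X →
  Spl Z D1 D2 m → ∀ i j, D1 i → D2 j →
  X.y X.o * X.y (m i j) = X.y i * X.y j ∧ X.s i (X.st j) = X.y (m i j)

/-- **AL MODULE ZED.**  The principal block is contained in one of the two factors.
PROOF.  `x = y o`, `g = p - x ≥ 2`, `x > 1` (`p - 1 = N g`, `N ≥ 3`: `x = (N-1) g + 1`).  (A) There are no `i ∈ D1`, `j ∈ D2`, `i, j ≠ o`, `y i ≠ 0`, `y j ≠ 0`.  Suppose there are.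
Case `t i = 1` (`i ∈ Ks X`): `O = Orb X i ⊆ D1` (stable), `r = |O|`; TS2 (1) for `k = i` at the coordinate `st j`: `st j ∉ O` (`D1 ∩ D2 = {o}`, `st j ≠ o`), so `g ∑_{k ∈ O} s (st j) k + r (y i) s (st j) o = 0`.  `s (st j) o = y (st j) = y j`; YPR for `k ∈ O`: `x * s k (st j) = x * y (m k j) = y k * y j = y i * y j`;
`s` symmetric.  Multiply by `x`: `g r (y i)(y j) + r x (y i)(y j) = 0`, so `g + x = 0`: but `g + x = p > 0`.  Case `t j = 1`: the same with the roles exchanged: `O = Orb X j ⊆ D2`, coordinate `st i` (`D1`); for `k ∈ O`: `s (st i) k`: YPR for `(st i, st k)`: `st i ∈ D1`, `st k ∈ D2`: `s (st i) (st (st k)) = s (st i) k = y (m (st i) (st k))` and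
`x * y (m ..) = y (st i) * y (st k) = y i * y j`.  Case `t i ≠ 1`, `t j ≠ 1`: `(y i)^2 = (y j)^2 = 1`, so `x * y (m i j) = ± 1`: impossible as `x > 1`.
(B) Let `y k ≠ 0`; `k = m k1 k2` (`sur`); YPR: `y k1 * y k2 = x * y k ≠ 0`, so by (A) `k1 = o` or `k2 = o`, i.e. `k = k2 ∈ D2` or `k = k1 ∈ D1` (`mo`, `om`).  If some `k ≠ o` with `y k ≠ 0` is in `D1`, then by (A) none is in `D2`, so all are in `D1` (`o` too).  Otherwise all are in `D2`. -/
def StZED : Prop := StYPR → StTS2 → Helper89.OC.StORB → StGLA → StLKN → ∀ (I : Type) [Fintype I]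
  [DecidableEq I] (Z : CentreData I) (p : ℕ) [NeZero p] (b : ZMod Z.L) (X : PD I p 1)
  (Q : ℂ → Prop) (N : ℕ) (a w : I) (e : ℤ) (A : ℕ) (D1 D2 : I → Prop) (m : I → I → I),
  Gh Z b X Q N a w e A → Spl Z D1 D2 m → (∀ c i, D1 i → D1 (X.pi c i)) →
  (∀ c i, D2 i → D2 (X.pi c i)) →
  (∀ k, X.y k ≠ 0 → D1 k) ∨ (∀ k, X.y k ≠ 0 → D2 k)

/-- **AL MODULE CST.**  The centraliser of a stable set is stable.
PROOF.  `Lq.pi`: `X.pi c` is the permutation of a unit `u`; FCA `perm`: `S (pi c i) k = S i (pi c k)` (the `π` of FCA for `u` is `X.pi c`, as both describe the matrix `rho (Dg u)`), `d (pi c i) = d i`.  For `Ce Z E j`, `E i`: `Sf i (pi c j) = Sf (pi c i) j = d (pi c i) * d j = d i * d (pi c j)`. -/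
def StCST : Prop := StFCA → ∀ (I : Type) [Fintype I] [DecidableEq I] (Z : CentreData I) (p : ℕ)
  (b : ZMod Z.L) (X : PD I p 1) (E : I → Prop), Lq Z b X → (∀ c i, E i → E (X.pi c i)) →
  ∀ c i, Ce Z E i → Ce Z E (X.pi c i)

end Pool.Agent.Helper79.AL
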