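import Pool.Agent.Helper79.AL.All
import Pool.Agent.Helper94.BR.Main

/-! # Project AL (MP_2b6189_al): a prime which divides `n` exactly once -/

set_option autoImplicit false

namespace Pool.Agent.Helper79.AL

open Matrix ComplexConjugate Pool.Agent.Helper94.YG
open Pool.Agent.Helper94.YF hiding StORB
open Pool.Agent.Helper89.OS Pool.Agent.Helper89.OC

section

variable {I : Type} [Fintype I] [DecidableEq I]

/-- A torus-fixed element of the principal block centralises no other element of it. -/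
theorem Gh.ncen {Z : CentreData I} {p : ℕ} [NeZero p] {b : ZMod Z.L}
    {X : PD I p 1} {Q : ℂ → Prop} {N : ℕ} {a w : I} {e : ℤ} {A : ℕ} (h : Gh Z b X Q N a w e A)
    (hodd : Odd Z.n) (hT : ¬ ∃ D : I → Prop, TanSet Z D) (i l : I) (hi : i ∈ Ks X)
    (hl : l ∈ Ks X) (hfix : ∀ c, X.pi c i = i) : Sf Z i l ≠ (Z.d i : ℂ) * Z.d l := by
  intro hS
  have hCEF := Helper18.AL.hCEF Helper36.OC.hGLA Helper1.OC.hGLB Helper38.OC.hGLC
  have hSPL := Helper71.AL.hSPL Helper18.AL.hCEF Helper2.AL.hDIM Helper36.OC.hGLA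
    Helper1.OC.hGLB Helper38.OC.hGLC
  have hZED := Helper88.AL.hZED Helper79.AL.hYPR' (Helper95.OC.hTS2) Helper78.OC.hORB
    Helper36.OC.hGLA Helper32.OC.hLKN
  have hCST := Helper95.AL.hCST Helper45.AL.hFCA
  let E : I → Prop := fun j => j = i
  have hint : ∀ x, Ce Z E x → Ce Z (Ce Z E) x → x = Z.o :=
    (hCEF I Z (Ce Z E)).2 hodd hT (hCEF I Z E).1
  obtain ⟨m, hm⟩ := hSPL I Z (Ce Z E) (hCEF I Z E).1 hint
  have hE : ∀ c j, E j → E (X.pi c j) := by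
    intro c j hj
    show X.pi c j = i
    rw [show j = i from hj]
    exact hfix c
  have hE1 := hCST I Z p b X E h.lq hE
  have hE2 := hCST I Z p b X (Ce Z E) h.lq hE1
  have hl1 : Ce Z E l := by
    intro j hj
    rw [show j = i from hj]
    exact hS
  have hi2 : Ce Z (Ce Z E) i := by
    intro j hj
    rw [(Helper36.OC.hGLA I Z).Sf_symm, hj i rfl, mul_comm]
  have hio : i ≠ Z.o := by
    have := (mem_Ks.1 hi).2.2
    rwa [h.lq.lk.o] at this
  have hlo : l ≠ Z.o := by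
    have := (mem_Ks.1 hl).2.2
    rwa [h.lq.lk.o] at this
  rcases hZED I Z p b X Q N a w e A (Ce Z E) (Ce Z (Ce Z E)) m h hm hE1 hE2 with h4 | h4
  · exact hio (hint i (h4 i (mem_Ks.1 hi).1) hi2)
  · exact hlo (hint l hl1 (h4 l (mem_Ks.1 hl).1))

theorem Gh.fixed {Z : CentreData I} {p : ℕ} [NeZero p] {b : ZMod Z.L}
    {X : PD I p 1} {Q : ℂ → Prop} {N : ℕ} {a w : I} {e : ℤ} {A : ℕ} (h : Gh Z b X Q N a w e A)
    (k : I) (hk : k ∈ Kp X a) (hkw : k ∉ Orb X w) : ∀ c, X.pi c k = k := by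
  classical
  intro c
  obtain ⟨j, hj⟩ := Finset.card_eq_one.1 (h.sng k hk hkw)
  have h1 : X.pi c k ∈ Orb X k := by simp [Orb]
  have h2 : k ∈ Orb X k := (Helper78.OC.hORB I p X).self k
  rw [hj, Finset.mem_singleton] at h1 h2
  rw [h1, h2]

/-- The gcd bound in the principal block. -/
theorem Gh.gcd {Z : CentreData I} {p : ℕ} [NeZero p] {b : ZMod Z.L}
    {X : PD I p 1} {Q : ℂ → Prop} {N : ℕ} {a w : I} {e : ℤ} {A : ℕ} (h : Gh Z b X Q N a w e A)
    (hodd : Odd Z.n) (hT : ¬ ∃ D : I → Prop, TanSet Z D) (i l : I) (hi : i ∈ Kp X a)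
    (hiw : i ∉ Orb X w) (hl : l ∈ Ks X) : p ≤ 2 * Nat.gcd (Z.d i) (Z.d l) := by
  classical
  by_contra hlt
  push Not at hlt
  have hiK : i ∈ Ks X := by
    simp only [Kp, Finset.mem_filter] at hi
    exact hi.1
  have hfix := h.fixed i hi hiw
  refine h.ncen hodd hT i l hiK hl hfix ?_
  have hnd : ∀ k ∈ Ks X, ¬ p ∣ Z.d k := by
    intro k hk hd
    apply h.gam.blk.d_nd k (mem_Ks.1 hk).1
    rw [h.lq.lk.d]
    exact hd
  refine Helper52.SQ.pr2 Helper2.OC.hKRO Z (Helper36.OC.hGLA I Z) i l {p} ?_ ?_ ?_ ?_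
  · intro t ht
    rw [Finset.mem_singleton.1 ht]
    exact X.prime
  · intro t ht
    rw [Finset.mem_singleton.1 ht]
    exact ⟨hnd i hiK, hnd l hl⟩
  · intro t ht
    rw [Finset.mem_singleton.1 ht]
    exact Helper98.AL.hCG Helper95.OC.hTS2 Helper78.OC.hORB Helper36.OC.hGLA Helper32.OC.hLKN
      Helper45.AL.hFCA I Z p b X Q h.lq h.gam.blk i hiK l (Or.inl hfix)
  · rw [Finset.prod_singleton]
    exact hlt

/-- No prime divides all the dimensions in `Kp`. -/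
theorem Gh.exv {Z : CentreData I} {p : ℕ} [NeZero p] {b : ZMod Z.L}
    {X : PD I p 1} {Q : ℂ → Prop} {N : ℕ} {a w : I} {e : ℤ} {A : ℕ} (h : Gh Z b X Q N a w e A)
    (v : ℕ) (hv : v.Prime) : ∃ k ∈ Kp X a, ¬ v ∣ Z.d k := by
  classical
  by_contra hall
  push Not at hall
  have hO := Helper78.OC.hORB I p X
  have hdm := h.gam.dm
  have hsub : Orb X w ⊆ Kp X a := by
    intro j hj
    have hw := h.wK
    simp only [Kp, Finset.mem_filter] at hw ⊢
    refine ⟨(h.orbKs Helper78.OC.hORB j hj).1, fun hja => hw.2 ?_⟩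
    rw [← hO.eq a j hja, hO.eq w j hj]
    exact hO.self w
  have hg0 : gX X ≠ 0 := by
    have : (2 : ℤ) ≤ gX X := (Helper39.OS.hMZZ I p X).2.2.2.2.1
    omega
  have hdv : ∀ k ∈ Kp X a, (v : ℤ) ∣ X.d k := by
    intro k hk
    rw [h.lq.lk.d]
    exact_mod_cast hall k hk
  have h1 : gX X * v ∣ gX X := by
    have h2 : gX X * v ∣ ∑ k ∈ Kp X a, X.y k * (X.d k : ℤ) := by
      rw [← Finset.sum_sdiff hsub]
      refine dvd_add ?_ ?_
      · refine Finset.dvd_sum fun k hk => ?_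
        obtain ⟨hk1, hk2⟩ := Finset.mem_sdiff.1 hk
        have hkK : k ∈ Ks X := by
          simp only [Kp, Finset.mem_filter] at hk1
          exact hk1.1
        obtain ⟨hk3, hk4, hk5⟩ := mem_Ks.1 hkK
        have h3 := (Helper45.OS.hTSU Helper47.OS.hSTL Helper8.OS.hHEC Helper39.OS.hMZZ hRAT' I p X
          Q h.gam.blk k hk3 hk4 hk5).2
        rw [h.sng k hk1 hk2, Nat.cast_one, one_mul] at h3
        exact mul_dvd_mul h3 (hdv k hk1)
      · rw [Finset.sum_congr rfl (fun k hk => by rw [hO.y w k hk, hO.d w k hk]),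
          Finset.sum_const, nsmul_eq_mul, h.wO]
        exact mul_dvd_mul_left _ ((hdv w h.wK).mul_left _)
    rwa [hdm] at h2
  have h2 : gX X * v ∣ gX X * 1 := by rwa [mul_one]
  have h3 := (mul_dvd_mul_iff_left hg0).1 h2
  have h4 : v ∣ 1 := by exact_mod_cast h3
  exact hv.one_lt.ne' (Nat.dvd_one.1 h4)

end

section

variable {I : Type} [Fintype I] [DecidableEq I]

theorem Gh.oK {Z : CentreData I} {p : ℕ} [NeZero p] {b : ZMod Z.L}
    {X : PD I p 1} {Q : ℂ → Prop} {N : ℕ} {a w : I} {e : ℤ} {A : ℕ} (h : Gh Z b X Q N a w e A) :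
    Orb X w ⊆ Kp X a := by
  have hO := Helper78.OC.hORB I p X
  intro j hj
  have hw := h.wK
  simp only [Kp, Finset.mem_filter] at hw ⊢
  refine ⟨(h.orbKs Helper78.OC.hORB j hj).1, fun hja => hw.2 ?_⟩
  rw [← hO.eq a j hja, hO.eq w j hj]
  exact hO.self w

/-- `N = 3` is impossible. -/
theorem Gh.N5 {Z : CentreData I} {p : ℕ} [NeZero p] {b : ZMod Z.L}
    {X : PD I p 1} {Q : ℂ → Prop} {N : ℕ} {a w : I} {e : ℤ} {A : ℕ} (h : Gh Z b X Q N a w e A)
    (hodd : Odd Z.n) (hT : ¬ ∃ D : I → Prop, TanSet Z D) : 5 ≤ N := by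
  classical
  by_contra hN
  have hG := h.gam
  have h3 : N = 3 := by
    obtain ⟨r, hr⟩ := hG.N_odd
    have := hG.N_ge
    omega
  subst h3
  obtain ⟨hnf, hsst, hfull⟩ := Helper32.OC.hLKN I Z p b X h.lq.lk
  have hGA : GA X := Helper10.OC.hGA2 I p X hsst
  obtain ⟨v, w', c1, c2, -, -, c5, -, -, -, -, c10, -⟩ :=
    Helper75.OC.hN33 Helper28.OC.hGPP Helper7.OC.hKSS Helper70.OC.hGPZ Helper8.OC.hMXX
      Helper3.OC.hPRV Helper33.OC.hCMM Helper60.OC.hRB Helper55.OC.hIB Helper95.OC.hTS2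
      Helper78.OC.hORB Helper9.OC.hE3 Helper24.OC.hE4 Helper61.OC.hE2 I p X Q a hG hGA hnf
  have hg2 : (2 : ℤ) ≤ gX X := (Helper39.OS.hMZZ I p X).2.2.2.2.1
  have hO := Helper78.OC.hORB I p X
  have hcv : (Orb X v).card = 1 := by rw [c5]; simp
  have hva : v ∉ Orb X a := by
    intro hv
    have h1 := hO.eq a v hv
    have h2 := hG.aO
    rw [← h1, hcv] at h2
    norm_num at h2
    omega
  have hvw : v ∉ Orb X w := by
    intro hv
    have h1 := hO.eq w v hv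
    have h2 := h.wO
    rw [← h1, hcv] at h2
    norm_num at h2
    omega
  have hvK : v ∈ Kp X a := by
    simp only [Kp, Finset.mem_filter]
    exact ⟨c1, hva⟩
  have h1 := h.gcd hodd hT v w' hvK hvw c2
  rw [h.lq.lk.d] at c10
  have h2 : Nat.gcd (Z.d v) (Z.d w') = 1 := c10
  have := h.p7
  omega

theorem Gh.Amod {Z : CentreData I} {p : ℕ} [NeZero p] {b : ZMod Z.L}
    {X : PD I p 1} {Q : ℂ → Prop} {N : ℕ} {a w : I} {e : ℤ} {A : ℕ} (h : Gh Z b X Q N a w e A) :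
    (p : ℤ) ∣ A - N ∨ (p : ℤ) ∣ A + N := by
  obtain ⟨-, hD2, -, -⟩ := Helper79.OS.hDRE Helper47.OS.hSTL Helper8.OS.hHEC
    Helper39.OS.hMZZ I p X Q h.gam.blk
  obtain ⟨j, hj1, hj2⟩ := (Helper39.OS.hMZZ I p X).2.2.1
  obtain ⟨h1, h2⟩ := h.yd j hj1 hj2
  have h3 := hD2 j hj1 hj2
  rw [h1, h2] at h3
  have h4 : gX X * (A : ℤ) = (p * X.z X.o - 1) * e := h3
  have h5 := h.gam.pN
  have h6 : (p : ℤ) ∣ A - N * e := by
    refine ⟨A - N * X.z X.o * e, ?_⟩
    linear_combination (-(A : ℤ)) * h5 - (N : ℤ) * h4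
  have h7 : (e - 1) * (e + 1) = 0 := by linear_combination h.e2
  rcases mul_eq_zero.1 h7 with h8 | h8
  · left
    have h9 : e = 1 := by linarith
    rw [h9, mul_one] at h6
    exact h6
  · right
    have h9 : e = -1 := by linarith
    rw [h9] at h6
    have h10 : (A : ℤ) - N * (-1) = A + N := by ring
    rwa [h10] at h6

/-- The dimension of a torus-fixed element divides `w A`. -/
theorem Gh.dvA {Z : CentreData I} {p : ℕ} [NeZero p] {b : ZMod Z.L}
    {X : PD I p 1} {Q : ℂ → Prop} {N : ℕ} {a w : I} {e : ℤ} {A : ℕ} (h : Gh Z b X Q N a w e A)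
    (k : I) (hk : k ∈ Kp X a) (hkw : k ∉ Orb X w) :
    ∃ c : ℕ, 0 < c ∧ c ^ 2 ≤ N - 1 ∧ Z.d k ∣ c * A := by
  classical
  have hkK : k ∈ Ks X := by
    simp only [Kp, Finset.mem_filter] at hk
    exact hk.1
  obtain ⟨hk3, hk4, hk5⟩ := mem_Ks.1 hkK
  have hO := Helper78.OC.hORB I p X
  have hg2 : (2 : ℤ) ≤ gX X := (Helper39.OS.hMZZ I p X).2.2.2.2.1
  have hgC : (gX X : ℂ) ≠ 0 := by
    have : gX X ≠ 0 := by omega
    exact_mod_cast this
  have hc1 := h.sng k hk hkw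
  obtain ⟨c, hc⟩ := (Helper45.OS.hTSU Helper47.OS.hSTL Helper8.OS.hHEC Helper39.OS.hMZZ hRAT' I p X
    Q h.gam.blk k hk3 hk4 hk5).2
  rw [hc1, Nat.cast_one, one_mul] at hc
  have hc' : X.y k = gX X * c := hc
  have hc0 : c ≠ 0 := by
    rintro rfl
    rw [mul_zero] at hc'
    exact hk3 hc'
  refine ⟨c.natAbs, Int.natAbs_pos.2 hc0, ?_, ?_⟩
  · -- the sum of squares
    have hsq := h.gam.sq
    have hsub := h.oK
    have h1 : ∑ j ∈ Orb X w, X.y j ^ 2 = gX X * X.y w ^ 2 := by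
      rw [Finset.sum_congr rfl (fun j hj => by rw [hO.y w j hj]), Finset.sum_const, nsmul_eq_mul,
        h.wO]
    have h2 : X.y k ^ 2 ≤ ∑ j ∈ Kp X a \ Orb X w, X.y j ^ 2 :=
      Finset.single_le_sum (f := fun j => X.y j ^ 2) (fun j _ => sq_nonneg _)
        (Finset.mem_sdiff.2 ⟨hk, hkw⟩)
    rw [← Finset.sum_sdiff hsub, h1] at hsq
    have h3 : X.y w ≠ 0 := (mem_Ks.1 h.wKs).1
    have h4 : 1 ≤ X.y w ^ 2 := by
      have : 0 < X.y w ^ 2 := by positivity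
      omega
    have h5 := h.gam.pN
    have h6 : (gX X * c) ^ 2 + gX X ≤ gX X * (p - gX X) := by
      rw [← hc']
      nlinarith [h2, hsq, mul_le_mul_of_nonneg_left h4 (by omega : (0 : ℤ) ≤ gX X)]
    have h7 : gX X * (gX X * c ^ 2) ≤ gX X * (gX X * (N - 1)) := by
      have h8 : (p : ℤ) = N * gX X + 1 := by linarith
      rw [h8] at h6
      nlinarith [h6]
    have h8 : c ^ 2 ≤ N - 1 := by
      have h9 := le_of_mul_le_mul_left h7 (by omega : (0 : ℤ) < gX X)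
      exact le_of_mul_le_mul_left h9 (by omega : (0 : ℤ) < gX X)
    have hN1 : 1 ≤ N := by
      have := h.gam.N_ge
      omega
    have h9 : ((c.natAbs ^ 2 : ℕ) : ℤ) ≤ ((N - 1 : ℕ) : ℤ) := by
      rw [Nat.cast_pow, Int.natCast_natAbs, sq_abs, Nat.cast_sub hN1, Nat.cast_one]
      exact h8
    exact_mod_cast h9
  · -- integrality of `chi`
    obtain ⟨j, hj1, hj2⟩ := (Helper39.OS.hMZZ I p X).2.2.1
    have hd := (h.yd j hj1 hj2).2
    have hA := Helper36.OC.hGLA I Z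
    have h1 := (Helper95.OC.hTS2 Helper78.OC.hORB I p X Q h.gam.blk k hkK).2 j hj2
    obtain ⟨k', hk'⟩ := Finset.card_eq_one.1 hc1
    have hkk : k ∈ Orb X k := hO.self k
    rw [hk', Finset.mem_singleton] at hkk
    rw [hc1, hk', Finset.sum_singleton, ← hkk, h.lq.lk.chi, hc'] at h1
    have h2 : Cchi Z j k = -(c : ℂ) := by
      apply mul_left_cancel₀ hgC
      rw [h1]
      push_cast
      ring
    have h3 : (Z.d k : ℂ) * Cchi Z k j = -((c : ℂ) * A) := by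
      rw [← hA.Sf_chi, hA.Sf_symm, hA.Sf_chi, h2]
      rw [h.lq.lk.d] at hd
      rw [hd]
      ring
    have hdk : (Z.d k : ℂ) ≠ 0 := by exact_mod_cast (Z.d_pos k).ne'
    have h4 : Cchi Z k j = ((-(c * A : ℤ) / (Z.d k : ℤ) : ℚ) : ℂ) := by
      push_cast
      rw [eq_div_iff hdk]
      linear_combination h3
    have h5 : IsIntegral ℤ (((-(c * A : ℤ) / (Z.d k : ℤ) : ℚ) : ℂ)) := by
      rw [← h4]
      exact hA.chi_int k j
    obtain ⟨m, hm⟩ := hRAT'.2 _ h5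
    have hdk' : ((Z.d k : ℤ) : ℚ) ≠ 0 := by exact_mod_cast (Z.d_pos k).ne'
    rw [eq_div_iff hdk'] at hm
    have h6 : m * (Z.d k : ℤ) = -(c * A) := by exact_mod_cast hm
    have h7 : (Z.d k : ℤ) ∣ c * A := ⟨-m, by linarith⟩
    have h8 := Int.natAbs_dvd_natAbs.2 h7
    rw [Int.natAbs_natCast, Int.natAbs_mul, Int.natAbs_natCast] at h8
    exact h8

end

/-- A prime which divides the odd dimension exactly once. -/
theorem exactPrime (I : Type) [Fintype I] [DecidableEq I] (Z : CentreData I) (hodd : Odd Z.n)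
    (p m : ℕ) (hp : p.Prime) (hn : Z.n = p * m) (hpm : ¬ p ∣ m)
    (hT : ¬ ∃ D : I → Prop, TanSet Z D) :
    ¬ p ^ 2 ∣ Z.L ∧ ∃ N A : ℕ, Odd N ∧ 5 ≤ N ∧ N ∣ p - 1 ∧ A ∣ m ∧ (p + 1) ^ 2 < A ∧
      ((p : ℤ) ∣ A - N ∨ (p : ℤ) ∣ A + N) ∧ ∀ v u c d R : ℕ, v.Prime → u.Prime → 0 < R →
        (m ∣ v ^ c * u ^ d * R → p ≤ 2 * R) ∧
        (A ∣ v ^ c * u ^ d * R → p ^ 2 ≤ 4 * (N - 1) * R ^ 2) := by
  classical
  have : NeZero p := ⟨hp.ne_zero⟩
  refine ⟨fun hL => hT ?_, ?_⟩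
  · have hm : Z.n = p * m := hn
    exact oddLocal I Z hodd p m 0 hp hn hpm (Or.inr (Or.inr hL))
  obtain ⟨b, X, Q, N, a, w, e, A, h⟩ := allGHO I Z p m hodd hp hn hpm hT
  have hO := Helper78.OC.hORB I p X
  have hnd : ∀ k ∈ Ks X, ¬ p ∣ Z.d k := by
    intro k hk hd
    apply h.gam.blk.d_nd k (mem_Ks.1 hk).1
    rw [h.lq.lk.d]
    exact hd
  have hKs : ∀ k ∈ Kp X a, k ∈ Ks X := by
    intro k hk
    simp only [Kp, Finset.mem_filter] at hk
    exact hk.1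
  have hdm : ∀ k ∈ Ks X, Z.d k ∣ m := by
    intro k hk
    have h1 : Z.d k ∣ p * m := by
      have h2 := X.d_dvd k
      rw [h.lq.lk.d, ← h.lq.lk.n_eq, hn] at h2
      exact h2
    exact ((Nat.Prime.coprime_iff_not_dvd hp).2 (hnd k hk)).symm.dvd_of_dvd_mul_left h1
  -- there is a torus-fixed element
  have hex : ∃ s ∈ Kp X a, s ∉ Orb X w := by
    by_contra hs
    push Not at hs
    have hKO : Kp X a = Orb X w := Finset.Subset.antisymm hs (h.oK)
    have hdm2 := h.gam.dm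
    rw [hKO, Finset.sum_congr rfl (fun k hk => by rw [hO.y w k hk, hO.d w k hk]),
      Finset.sum_const, nsmul_eq_mul, h.wO] at hdm2
    have hg0 : gX X ≠ 0 := by
      have : (2 : ℤ) ≤ gX X := (Helper39.OS.hMZZ I p X).2.2.2.2.1
      omega
    have h1 : X.y w * (X.d w : ℤ) = 1 := by
      apply mul_left_cancel₀ hg0
      rw [mul_one]
      exact hdm2
    have h2 : (X.d w : ℤ) ∣ 1 := ⟨X.y w, by rw [← h1, mul_comm]⟩
    have h3 : X.d w = 1 := by
      have h4 : X.d w ∣ 1 := by exact_mod_cast h2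
      exact Nat.dvd_one.1 h4
    apply hT
    refine Helper70.AL.hG2T Helper36.OC.hGLA Helper1.OC.hGLB Helper38.OC.hGLC I Z hodd
      ⟨w, ?_, ?_, ?_⟩
    · have := (mem_Ks.1 h.wKs).2.2
      rwa [h.lq.lk.o] at this
    · rw [← h.lq.lk.d]
      exact h3
    · rw [← h.lq.lk.th]
      exact X.th_of w (mem_Ks.1 h.wKs).1 (mem_Ks.1 h.wKs).2.1
  -- a torus-fixed `s` and an element `l` with a gcd prime to `v` and `u`
  have hpair : ∀ v u : ℕ, v.Prime → u.Prime → ∃ s ∈ Kp X a, s ∉ Orb X w ∧ ∃ l ∈ Kp X a,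
      ¬ v ∣ Nat.gcd (Z.d s) (Z.d l) ∧ ¬ u ∣ Nat.gcd (Z.d s) (Z.d l) := by
    intro v u hv hu
    obtain ⟨k, hk, hkv⟩ := h.exv v hv
    obtain ⟨l, hl, hlu⟩ := h.exv u hu
    by_cases hkw : k ∈ Orb X w
    · by_cases hlw : l ∈ Orb X w
      · obtain ⟨s, hs1, hs2⟩ := hex
        have hdk := (h.orbKs Helper78.OC.hORB k hkw).2.2
        have hdl := (h.orbKs Helper78.OC.hORB l hlw).2.2
        refine ⟨s, hs1, hs2, k, hk, ?_, ?_⟩
        · exact fun h1 => hkv (h1.trans (Nat.gcd_dvd_right _ _))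
        · rw [hdk, ← hdl]
          exact fun h1 => hlu (h1.trans (Nat.gcd_dvd_right _ _))
      · refine ⟨l, hl, hlw, k, hk, ?_, ?_⟩
        · exact fun h1 => hkv (h1.trans (Nat.gcd_dvd_right _ _))
        · exact fun h1 => hlu (h1.trans (Nat.gcd_dvd_left _ _))
    · refine ⟨k, hk, hkw, l, hl, ?_, ?_⟩
      · exact fun h1 => hkv (h1.trans (Nat.gcd_dvd_left _ _))
      · exact fun h1 => hlu (h1.trans (Nat.gcd_dvd_right _ _))
  have hle : ∀ v u c d R g M : ℕ, v.Prime → u.Prime → 0 < R → M ∣ v ^ c * u ^ d * R → g ∣ M →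
      ¬ v ∣ g → ¬ u ∣ g → g ≤ R := by
    intro v u c d R g M hv hu hR hM hg hgv hgu
    have h1 : Nat.Coprime g (v ^ c * u ^ d) :=
      Nat.Coprime.mul_right (Nat.Coprime.pow_right c ((Nat.Prime.coprime_iff_not_dvd hv).2 hgv).symm)
        (Nat.Coprime.pow_right d ((Nat.Prime.coprime_iff_not_dvd hu).2 hgu).symm)
    exact Nat.le_of_dvd hR (h1.dvd_of_dvd_mul_left (hg.trans hM))
  have hAm : A ∣ m := by
    have h1 : A ∣ p * m := by
      rw [← hn]
      exact h.A_dvd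
    exact ((Nat.Prime.coprime_iff_not_dvd hp).2 h.A_nd).symm.dvd_of_dvd_mul_left h1
  have hNp : N ∣ p - 1 := by
    have h1 : ((p - 1 : ℕ) : ℤ) = N * gX X := by
      rw [Nat.cast_sub hp.one_lt.le]
      exact_mod_cast h.gam.pN
    have h2 : (N : ℤ) ∣ ((p - 1 : ℕ) : ℤ) := ⟨gX X, h1⟩
    exact_mod_cast h2
  refine ⟨N, A, h.gam.N_odd, h.N5 hodd hT, hNp, hAm,
    Pool.Agent.Helper94.BR.ghost_big Z hodd hT h, h.Amod, ?_⟩
  intro v u c d R hv hu hR
  obtain ⟨s, hs1, hs2, l, hl, hgv, hgu⟩ := hpair v u hv hu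
  have hg := h.gcd hodd hT s l hs1 hs2 (hKs l hl)
  refine ⟨fun hM => ?_, fun hM => ?_⟩
  · have h1 := hle v u c d R _ m hv hu hR hM
      ((Nat.gcd_dvd_left _ _).trans (hdm s (hKs s hs1))) hgv hgu
    omega
  · obtain ⟨t, ht0, ht2, htd⟩ := h.dvA s hs1 hs2
    set G := Nat.gcd (Z.d s) (Z.d l) with hG
    have hGpos : 0 < G := Nat.gcd_pos_of_pos_left _ (Z.d_pos s)
    have h1 : G ∣ t * A := (Nat.gcd_dvd_left _ _).trans htd
    have h2 : G ∣ t * Nat.gcd G A := by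
      have h3 := Nat.dvd_gcd h1 (Dvd.intro_left t rfl : G ∣ t * G)
      rw [Nat.gcd_mul_left, Nat.gcd_comm A G] at h3
      exact h3
    have h3 : Nat.gcd G A ≤ R := hle v u c d R _ A hv hu hR hM (Nat.gcd_dvd_right _ _)
      (fun h4 => hgv (h4.trans (Nat.gcd_dvd_left _ _)))
      (fun h4 => hgu (h4.trans (Nat.gcd_dvd_left _ _)))
    have h4 : 0 < Nat.gcd G A := Nat.gcd_pos_of_pos_left _ hGpos
    have h5 : G ≤ t * R :=
      (Nat.le_of_dvd (Nat.mul_pos ht0 h4) h2).trans (Nat.mul_le_mul_left t h3)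
    have h6 : p ≤ 2 * (t * R) := by omega
    calc p ^ 2 ≤ (2 * (t * R)) ^ 2 := Nat.pow_le_pow_left h6 2
      _ = 4 * t ^ 2 * R ^ 2 := by ring
      _ ≤ 4 * (N - 1) * R ^ 2 := by gcongr

end Pool.Agent.Helper79.AL
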